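import Pool.Agent.U233.HG.Ell

/-!
# Independence of elliptic curves
-/

set_option autoImplicit false
set_option linter.unusedSectionVars false

open CategoryTheory AlgebraicGeometry TensorProduct

namespace Pool.Agent.U233.HG

open Module Pool.Agent.N179.DB Pool.Agent.N179.GR.S Pool.Agent.N179.DB.Rk
open Pool.Agent.N179.DB.S (Cx tens gal bc cx_ind tens_add tens_smul smul_tens exists_tens
  inF_tens bx_apply bc_tens bc_gal gal_add gal_tens)

open Pool.Agent.U233.HG.St (NoCM NonIsogenous)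

noncomputable section

variable {K : Type} [Field K] [Algebra K ℂ]

/-- the basis of the conjugates -/
def cB (K : Type) [Field K] [Algebra K ℂ] (τ : UpperHalfPlane) (σ : ℂ ≃+* ℂ) :
    Basis (Fin 2) ℂ (Cx K (Fin 2 → K)) := mv (stdB K) (ellB K τ) σ

theorem sl_ellVec (σ : ℂ ≃+* ℂ) (z : ℂ) : sl (stdB K) σ (ellVec K z) = ellVec K (σ z) := by
  rw [ellVec_eq, ellVec_eq, map_add, sl_smul, sl_basis, sl_basis]

theorem cB_0 (τ : UpperHalfPlane) (σ : ℂ ≃+* ℂ) : cB K τ σ 0 = ellVec K (σ τ) := by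
  rw [cB, mv_apply]
  have h0 : ellB K τ 0 = ellVec K τ := ellB_apply τ 0
  rw [h0, sl_ellVec]

theorem cB_1 (τ : UpperHalfPlane) (σ : ℂ ≃+* ℂ) : cB K τ σ 1 = ellVec K (σ (star (τ : ℂ))) := by
  rw [cB, mv_apply]
  have h0 : ellB K τ 1 = ellVec K (star (τ : ℂ)) := ellB_apply τ 1
  rw [h0, sl_ellVec]

/-- the operator of a generator -/
def opG (τ : UpperHalfPlane) (p : HP K) : Cx K (Fin 2 → K) →ₗ[ℂ] Cx K (Fin 2 → K) :=
  (rep (ell K τ)).act (FreeGroup.of p)

theorem opG_0 (τ : UpperHalfPlane) (p : HP K) :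
    opG τ p (cB K τ p.τ 0) = (p.z : ℂ) • cB K τ p.τ 0 := by
  have h1 := rho_pq (ell K τ) p (r := 1) (s := 0) (x := ellVec K (τ : ℂ)) (mem10 τ)
  have h2 : gal p.τ p.fix (ellVec K (τ : ℂ)) = cB K τ p.τ 0 := by rw [gal_ellVec, cB_0]
  have h3 : (mon p.z p.w (1, 0) : ℂ) = p.z := by simp [mon]
  have h4 : opG τ p (gal p.τ p.fix (ellVec K (τ : ℂ))) =
    (mon p.z p.w (1, 0) : ℂ) • gal p.τ p.fix (ellVec K (τ : ℂ)) := h1
  rwa [h2, h3] at h4

theorem opG_1 (τ : UpperHalfPlane) (p : HP K) :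
    opG τ p (cB K τ p.τ 1) = (p.w : ℂ) • cB K τ p.τ 1 := by
  have h1 := rho_pq (ell K τ) p (r := 0) (s := 1) (x := ellVec K (star (τ : ℂ))) (mem01 τ)
  have h2 : gal p.τ p.fix (ellVec K (star (τ : ℂ))) = cB K τ p.τ 1 := by rw [gal_ellVec, cB_1]
  have h3 : (mon p.z p.w (0, 1) : ℂ) = p.w := by simp [mon]
  have h4 : opG τ p (gal p.τ p.fix (ellVec K (star (τ : ℂ)))) =
    (mon p.z p.w (0, 1) : ℂ) • gal p.τ p.fix (ellVec K (star (τ : ℂ))) := h1
  rwa [h2, h3] at h4

theorem det_opG (τ : UpperHalfPlane) (p : HP K) : LinearMap.det (opG τ p) = p.z * p.w := by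
  rw [← LinearMap.det_toMatrix (cB K τ p.τ)]
  have h : LinearMap.toMatrix (cB K τ p.τ) (cB K τ p.τ) (opG τ p) =
      !![(p.z : ℂ), 0; 0, (p.w : ℂ)] := by
    ext i j
    rw [LinearMap.toMatrix_apply]
    fin_cases j
    · change (cB K τ p.τ).repr (opG τ p (cB K τ p.τ 0)) i = _
      rw [opG_0, map_smul, Basis.repr_self]
      fin_cases i <;> simp
    · change (cB K τ p.τ).repr (opG τ p (cB K τ p.τ 1)) i = _
      rw [opG_1, map_smul, Basis.repr_self]
      fin_cases i <;> simp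
  rw [h, Matrix.det_fin_two_of]
  ring

theorem ell_det (τ : UpperHalfPlane) (g : HGp K) :
    LinearMap.det ((rep (ell K τ)).act g) = (chi K g : ℂ) := by
  have hmul : ∀ g h : HGp K, LinearMap.det ((rep (ell K τ)).act (g * h)) =
      LinearMap.det ((rep (ell K τ)).act g) * LinearMap.det ((rep (ell K τ)).act h) := by
    intro g h
    rw [← LinearMap.det_comp]
    congr 1
    exact LinearMap.ext fun x => (rep (ell K τ)).mul g h x
  have hone : LinearMap.det ((rep (ell K τ)).act 1) = 1 := by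
    have h : (rep (ell K τ)).act 1 = LinearMap.id := LinearMap.ext fun x => (rep (ell K τ)).one x
    rw [h, LinearMap.det_id]
  refine hg_ind (C := fun g => LinearMap.det ((rep (ell K τ)).act g) = (chi K g : ℂ)) g ?_ ?_ ?_ ?_
  · rw [hone, map_one, Units.val_one]
  · intro p
    rw [chi_of]
    exact det_opG τ p
  · intro g hg
    have h1 := hmul g g⁻¹
    rw [mul_inv_cancel, hone, hg] at h1
    rw [map_inv, Units.val_inv_eq_inv_val]
    exact (eq_inv_of_mul_eq_one_right h1.symm)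
  · intro g h hg hh
    rw [hmul, hg, hh, map_mul, Units.val_mul]

/-- the basis of the space -/
def rB (K : Type) [Field K] [Algebra K ℂ] (τ : UpperHalfPlane) :
    Basis (Fin 2) ℂ (rep (ell K τ)).V := stdB K

section iso

variable {τ τ' : UpperHalfPlane} (f : Cx K (Fin 2 → K) ≃ₗ[ℂ] Cx K (Fin 2 → K))
  (hf : ∀ p : HP K, ∃ ε : ℂ, ε ^ 2 = 1 ∧ ∀ x, opG τ' p (f x) = ε • f (opG τ p x))

/-- the generator with the eigenvalues `2` and `1` -/
def p21 (σ : ℂ ≃+* ℂ) (h : FixK K σ) : HP K := ⟨σ, h, Units.mk0 2 two_ne_zero, 1⟩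

include hf in
theorem iso_lines (σ : ℂ ≃+* ℂ) (h : FixK K σ) :
    (∃ a : ℂ, f (cB K τ σ 0) = a • cB K τ' σ 0) ∧ ∃ a : ℂ, f (cB K τ σ 1) = a • cB K τ' σ 1 := by
  obtain ⟨ε, hε, hx⟩ := hf (p21 σ h)
  have e0 := opG_0 τ (p21 σ h)
  have e1 := opG_1 τ (p21 σ h)
  have e0' := opG_0 τ' (p21 σ h)
  have e1' := opG_1 τ' (p21 σ h)
  change opG τ (p21 σ h) (cB K τ σ 0) = (2 : ℂ) • cB K τ σ 0 at e0
  change opG τ (p21 σ h) (cB K τ σ 1) = (1 : ℂ) • cB K τ σ 1 at e1
  change opG τ' (p21 σ h) (cB K τ' σ 0) = (2 : ℂ) • cB K τ' σ 0 at e0'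
  change opG τ' (p21 σ h) (cB K τ' σ 1) = (1 : ℂ) • cB K τ' σ 1 at e1'
  have hexp : ∀ y : Cx K (Fin 2 → K), y = (cB K τ' σ).repr y 0 • cB K τ' σ 0 +
      (cB K τ' σ).repr y 1 • cB K τ' σ 1 := fun y => by
    conv_lhs => rw [← (cB K τ' σ).sum_repr y, Fin.sum_univ_two]
  have hop : ∀ y : Cx K (Fin 2 → K), (cB K τ' σ).repr (opG τ' (p21 σ h) y) 0 =
      2 * (cB K τ' σ).repr y 0 ∧ (cB K τ' σ).repr (opG τ' (p21 σ h) y) 1 =
        (cB K τ' σ).repr y 1 := by
    intro y
    conv_lhs => rw [hexp y, map_add, map_smul, map_smul, e0', e1']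
    conv_rhs => rw [hexp y, map_add, map_smul, map_smul, e0', e1']
    constructor
    · simp [mul_comm]
    · simp
  have hε2 : ε ≠ 2 := fun h => by rw [h] at hε; norm_num at hε
  have hε3 : 2 * ε ≠ 1 := fun h => by
    have h4 : ε = 1 / 2 := by linear_combination h / 2
    rw [h4] at hε
    norm_num at hε
  constructor
  · refine ⟨(cB K τ' σ).repr (f (cB K τ σ 0)) 0, ?_⟩
    have h1 := hx (cB K τ σ 0)
    rw [e0, map_smul] at h1
    have h2 := (hop (f (cB K τ σ 0))).2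
    rw [h1, map_smul, map_smul] at h2
    simp only [Finsupp.smul_apply, smul_eq_mul] at h2
    have h3 : (cB K τ' σ).repr (f (cB K τ σ 0)) 1 = 0 := by
      by_contra h4
      apply hε3
      apply mul_right_cancel₀ h4
      linear_combination h2
    conv_lhs => rw [hexp (f (cB K τ σ 0)), h3, zero_smul, add_zero]
  · refine ⟨(cB K τ' σ).repr (f (cB K τ σ 1)) 1, ?_⟩
    have h1 := hx (cB K τ σ 1)
    rw [e1, one_smul] at h1
    have h2 := (hop (f (cB K τ σ 1))).1
    rw [h1, map_smul] at h2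
    simp only [Finsupp.smul_apply, smul_eq_mul] at h2
    have h3 : (cB K τ' σ).repr (f (cB K τ σ 1)) 0 = 0 := by
      by_contra h4
      apply hε2
      apply mul_right_cancel₀ h4
      linear_combination h2
    conv_lhs => rw [hexp (f (cB K τ σ 1)), h3, zero_smul, zero_add]

include hf in
theorem iso_gen (p : HP K) (x : Cx K (Fin 2 → K)) : f (opG τ p x) = opG τ' p (f x) := by
  obtain ⟨⟨a, ha⟩, ⟨c, hc⟩⟩ := iso_lines f hf p.τ p.fix
  have h : (f : Cx K (Fin 2 → K) →ₗ[ℂ] Cx K (Fin 2 → K)) ∘ₗ opG τ p =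
      opG τ' p ∘ₗ (f : Cx K (Fin 2 → K) →ₗ[ℂ] Cx K (Fin 2 → K)) := by
    refine (cB K τ p.τ).ext fun i => ?_
    change f (opG τ p (cB K τ p.τ i)) = opG τ' p (f (cB K τ p.τ i))
    fin_cases i
    · change f (opG τ p (cB K τ p.τ 0)) = opG τ' p (f (cB K τ p.τ 0))
      rw [opG_0, map_smul, ha, map_smul, opG_0, smul_comm]
    · change f (opG τ p (cB K τ p.τ 1)) = opG τ' p (f (cB K τ p.τ 1))
      rw [opG_1, map_smul, hc, map_smul, opG_1, smul_comm]
  exact LinearMap.congr_fun h x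

end iso

/-- homomorphisms between the structures of two elliptic curves which are not isogenous vanish -/
theorem hom_zero (hK : ∀ r : K, ∃ q : ℚ, (q : K) = r) {τ τ' : UpperHalfPlane}
    (h : NonIsogenous τ τ') {P : (Fin 2 → K) →ₗ[K] (Fin 2 → K)}
    (hP : IsHom (M := ell K τ) (N := ell K τ') P) : P = 0 := by
  have h1 : bc P (ellVec K τ) ∈ ellPQ K τ' 1 0 := hP 1 0 _ (mem10 τ)
  unfold ellPQ at h1
  rw [if_pos ⟨rfl, rfl⟩] at h1
  obtain ⟨c, hc⟩ := Submodule.mem_span_singleton.1 h1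
  have h2 : bc P (ellVec K τ) = tens 1 (P (Pi.single 0 1)) + tens (τ : ℂ) (P (Pi.single 1 1)) := by
    unfold ellVec
    rw [map_add, bc_tens, bc_tens]
  have hr : ∀ (z : ℂ) (v : Fin 2 → K) (i : Fin 2), (stdB K).repr (tens z v) i =
      z * algebraMap K ℂ (v i) := by
    intro z v i
    rw [stdB, S.bx_repr]
    rfl
  rw [h2] at hc
  have e0 := congrArg (fun x => (stdB K).repr x 0) hc
  have e1 := congrArg (fun x => (stdB K).repr x 1) hc
  simp only [map_add, map_smul, Finsupp.add_apply, Finsupp.smul_apply, hr, (ellVec_repr _).1,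
    (ellVec_repr _).2, smul_eq_mul, mul_one, one_mul] at e0 e1
  obtain ⟨a, ha⟩ := hK (P (Pi.single 0 1) 1)
  obtain ⟨b, hb⟩ := hK (P (Pi.single 0 1) 0)
  obtain ⟨c', hc'⟩ := hK (P (Pi.single 1 1) 1)
  obtain ⟨d, hd⟩ := hK (P (Pi.single 1 1) 0)
  rw [← hb, ← hd, map_ratCast, map_ratCast] at e0
  rw [← ha, ← hc', map_ratCast, map_ratCast] at e1
  obtain ⟨g1, g2, g3, g4⟩ := h c' a d b (by
    rw [e0] at e1
    linear_combination e1)
  refine LinearMap.pi_ext' fun i => LinearMap.ext_ring ?_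
  funext j
  fin_cases i <;> fin_cases j
  · exact hb.symm.trans (by rw [g4, Rat.cast_zero]; rfl)
  · exact ha.symm.trans (by rw [g2, Rat.cast_zero]; rfl)
  · exact hd.symm.trans (by rw [g3, Rat.cast_zero]; rfl)
  · exact hc'.symm.trans (by rw [g1, Rat.cast_zero]; rfl)

theorem ell_no (hK : ∀ r : K, ∃ q : ℚ, (q : K) = r) {τ τ' : UpperHalfPlane}
    (h : NonIsogenous τ τ') (f : (rep (ell K τ)).V ≃ₗ[ℂ] (rep (ell K τ')).V) :
    ¬∀ g, ∃ ε : ℂ, ∀ x, (rep (ell K τ')).act g (f x) = ε • f ((rep (ell K τ)).act g x) := by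
  intro hf
  let f' : Cx K (Fin 2 → K) ≃ₗ[ℂ] Cx K (Fin 2 → K) := f
  have hf' : ∀ p : HP K, ∃ ε : ℂ, ε ^ 2 = 1 ∧ ∀ x, opG τ' p (f' x) = ε • f' (opG τ p x) := by
    intro p
    obtain ⟨ε, hε⟩ := hf (FreeGroup.of p)
    refine ⟨ε, ?_, hε⟩
    refine sq_eq_one (M := rep (ell K τ)) (M' := rep (ell K τ')) (rB K τ) f ?_ hε
    rw [ell_det, ell_det]
  have hgen := iso_gen f' hf'
  have hall : ∀ (g : HGp K) (x : (rep (ell K τ)).V), f ((rep (ell K τ)).ap g x) =
      (rep (ell K τ')).ap g (f x) := by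
    intro g
    refine hg_ind (C := fun g => ∀ x : (rep (ell K τ)).V, f ((rep (ell K τ)).ap g x) =
      (rep (ell K τ')).ap g (f x)) g ?_ ?_ ?_ ?_
    · intro x
      have h1 : (rep (ell K τ)).ap 1 x = x := (rep (ell K τ)).one x
      have h2 : (rep (ell K τ')).ap 1 (f x) = f x := (rep (ell K τ')).one _
      rw [h1, h2]
    · intro p x
      exact hgen p x
    · intro g hg x
      have h1 : (rep (ell K τ)).ap g ((rep (ell K τ)).ap g⁻¹ x) = x := by
        have h := (rep (ell K τ)).mul g g⁻¹ x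
        rw [mul_inv_cancel, (rep (ell K τ)).one] at h
        exact h.symm
      have h2 : ∀ y, (rep (ell K τ')).ap g⁻¹ ((rep (ell K τ')).ap g y) = y := by
        intro y
        have h := (rep (ell K τ')).mul g⁻¹ g y
        rw [inv_mul_cancel, (rep (ell K τ')).one] at h
        exact h.symm
      have h3 := hg ((rep (ell K τ)).ap g⁻¹ x)
      rw [h1] at h3
      rw [h3, h2]
    · intro g g' hg hg' x
      have h1 : (rep (ell K τ)).ap (g * g') x = (rep (ell K τ)).ap g ((rep (ell K τ)).ap g' x) :=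
        (rep (ell K τ)).mul g g' x
      have h2 : (rep (ell K τ')).ap (g * g') (f x) =
        (rep (ell K τ')).ap g ((rep (ell K τ')).ap g' (f x)) := (rep (ell K τ')).mul g g' _
      rw [h1, h2, hg, hg']
  let F : Cx K (ell K τ).V →ₗ[ℂ] Cx K (ell K τ').V :=
    (f' : Cx K (Fin 2 → K) →ₗ[ℂ] Cx K (Fin 2 → K))
  have h1 := pot_hom (M := ell K τ) (N := ell K τ') F ⊤ inferInstance (fun g _ x => hall g x)
  have h2 : Submodule.span ℂ {h : Cx K (ell K τ).V →ₗ[ℂ] Cx K (ell K τ').V | ∃ P : (ell K τ).V →ₗ[K]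
      (ell K τ').V, IsHom (M := ell K τ) (N := ell K τ') P ∧ h = bc P} ≤ ⊥ := by
    refine Submodule.span_le.2 ?_
    rintro _ ⟨P, hP, rfl⟩
    have h3 : P = 0 := hom_zero hK h hP
    rw [h3]
    exact LinearMap.baseChange_zero
  have h3 := h2 h1
  have h4 : ∀ x, f' x = 0 := fun x => LinearMap.congr_fun ((Submodule.mem_bot ℂ).1 h3) x
  have h5 : stdB K 0 = 0 := f'.injective (by rw [h4, h4])
  exact (stdB K).ne_zero 0 h5

/-- **Independence for the representations gives independence for the Hodge structures.** -/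
theorem independent_of {M N : HS K} (h : Pool.Agent.N179.GR.S.Independent (rep M) (rep N)) :
    Independent M N := by
  intro f hf x
  let F : (Cx K M.V →ₗ[ℂ] Cx K M.V) →ₗ[ℂ] (Cx K N.V →ₗ[ℂ] Cx K N.V) :=
    ((opM N).toLinearMap.comp (show Cx K M.endo.V →ₗ[ℂ] Cx K N.endo.V from bc f)).comp
      (opM M).symm.toLinearMap
  have hF : ∀ y, F (opM M y) = opM N (bc f y) := fun y => by
    change opM N (bc f ((opM M).symm (opM M y))) = _
    rw [(opM M).symm_apply_apply]
  have h1 := h F (by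
    intro g y
    obtain ⟨z, hz⟩ := (opM M).surjective (show Cx K M.V →ₗ[ℂ] Cx K M.V from y)
    have h2 : (endo (rep M)).ap g (opM M z) = opM M ((rep M.endo).ap g z) := (opM_act M g z).symm
    have h3 : (endo (rep N)).ap g (opM N (bc f z)) = opM N ((rep N.endo).ap g (bc f z)) :=
      (opM_act N g (bc f z)).symm
    have h4 : bc f ((rep M.endo).ap g z) = (rep N.endo).ap g (bc f z) :=
      rho_lin (M := M.endo) (N := N.endo) f hf g z
    have h5 : F ((endo (rep M)).ap g y) = (endo (rep N)).ap g (F y) := by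
      have hz' : y = opM M z := hz.symm
      rw [hz']
      refine (congrArg F h2).trans ((hF _).trans ?_)
      rw [h4]
      exact h3.symm.trans (congrArg ((endo (rep N)).ap g) (hF z).symm)
    exact h5) (opM M (tens 1 x))
  have h6 : Submodule.span ℂ {y : (endo (rep N)).V | SemiInv (M := endo (rep N)) y} ≤
      (Submodule.span ℂ (pures N.endo)).map (opM N).toLinearMap := by
    refine Submodule.span_le.2 fun y hy => ?_
    obtain ⟨z, hz⟩ := (opM N).surjective (show Cx K N.V →ₗ[ℂ] Cx K N.V from y)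
    have hz' : y = opM N z := hz.symm
    rw [hz'] at hy ⊢
    exact ⟨z, Submodule.subset_span (semi_endo.1 hy), rfl⟩
  obtain ⟨z, hz, hz'⟩ := h6 h1
  have h7 : opM N z = opM N (tens 1 (f x)) := by
    refine hz'.trans ((hF _).trans ?_)
    rw [bc_tens]
  rw [← (opM N).injective h7]
  exact hz

/-- **The elliptic curves form an independent family.** -/
theorem ell_family (hK : ∀ r : K, ∃ q : ℚ, (q : K) = r) {ι : Type} {τ : ι → UpperHalfPlane}
    (h : ∀ i, NoCM (τ i)) (h' : ∀ i j, i ≠ j → NonIsogenous (τ i) (τ j)) :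
    Family (fun i => ell K (τ i)) :=
  ⟨fun i => ⟨_, ell_pol hK (τ i)⟩, fun i j hij => independent_of
    ((noSemi hK (h i)).independent (noSemi hK (h j)) (rB K (τ i)) (rB K (τ j))
      (ell_no hK (h' i j hij)))⟩

end

end Pool.Agent.U233.HG
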