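import Pool.Agent.U233.HG.Fin
import Pool.Agent.U233.HG.Ell2
import Pool.Agent.N179.DB.Ten3

/-!
# Varieties whose cohomology is generated by a structure of rank two
-/

set_option autoImplicit false
set_option linter.unusedSectionVars false

open CategoryTheory AlgebraicGeometry TensorProduct

universe u

namespace Pool.Agent.U233.HG

open Module Pool.Agent.N179 Pool.Agent.N179.DB Pool.Agent.N179.GR.S Pool.Agent.N179.DB.Rk
open Pool.Agent.N179.DB.S (Cx tens gal bc cx_ind tens_add tens_smul smul_tens exists_tens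
  inF_tens bx_apply bc_tens bc_gal gal_add gal_tens galB gal_mul gr' gr'_eq gal_gr' mem_of_base
  span_alg algS algT base_mul GeneratesK)
open Pool.Agent.H914 Pool.Agent.H914.VarClass Pool.Agent.H914.VarClass.Obj
  Pool.Agent.H914.WeilCohomology Pool.Agent.TH125.Gal
open Pool.Agent.U233.HG.St (Theory coho prd NoCM NonIsogenous)
open Pool.Agent.Y133.Per (Base baseMap baseTr tm base_ind baseTr_tm)
open Pool.Agent.N179.GR (algR SemiS inv InDer full)

variable {k : Type u} [Field k] {𝒱 : VarClass k} {ops : CycleOps 𝒱} (T : Theory ops)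

noncomputable section

/-- the action -/
def ta (P : 𝒱.Obj) : HGp T.W.K →* (Base T.W.K (T.W.H P) ≃ₐ[ℂ] Base T.W.K (T.W.H P)) := actA T P

/-- the grading -/
def gB (P : 𝒱.Obj) (i : ℕ) : Submodule ℂ (Base T.W.K (T.W.H P)) := gr' T.W P i

theorem finB (P : 𝒱.Obj) : FiniteDimensional ℂ (Base T.W.K (T.W.H P)) := (coh T P).fdC

theorem one_gB (P : 𝒱.Obj) : (1 : Base T.W.K (T.W.H P)) ∈ gB T P 0 :=
  ((baseW T.W ℂ).isPoincareAlgebra P).one_mem

theorem mul_gB (P : 𝒱.Obj) (m n : ℕ) : ∀ x ∈ gB T P m, ∀ y ∈ gB T P n,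
    x * y ∈ gB T P (m + n) := fun _ hx _ hy =>
  ((baseW T.W ℂ).isPoincareAlgebra P).mul_mem hx hy

theorem tm_gB {P : 𝒱.Obj} {i : ℕ} {c : T.W.H P} (hc : c ∈ T.W.gr P i) :
    (tm 1 c : Base T.W.K (T.W.H P)) ∈ gB T P i :=
  Submodule.tmul_mem_baseChange_of_mem (1 : ℂ) hc

theorem ta_hodge {P : 𝒱.Obj} {j : ℕ} {c : T.W.H P} (hc : IsHodge T P j c) (g : HGp T.W.K) :
    ta T P g (tm 1 c) = ((chi T.W.K g : ℂ) ^ j) • tm 1 c := hodge_tw T hc g

/-- the generation with complex coefficients -/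
theorem gen_pow {V : HS T.W.K} {P : 𝒱.Obj} (h : PowerType T V P) :
    Algebra.adjoin ℂ (Tn.Tw (ta T P) (chi T.W.K) (gB T P) ∪
      Tn.Im1 (rep V) (ta T P) (gB T P)) = ⊤ := by
  set B := Algebra.adjoin ℂ (Tn.Tw (ta T P) (chi T.W.K) (gB T P) ∪
      Tn.Im1 (rep V) (ta T P) (gB T P)) with hB
  have key : ∀ c : T.W.H P, (tm 1 c : Base T.W.K (T.W.H P)) ∈ B := by
    intro c
    have hc : c ∈ Algebra.adjoin T.W.K (hodgeCl T P ∪ degOne T V P) := by
      rw [show Algebra.adjoin T.W.K (hodgeCl T P ∪ degOne T V P) = ⊤ from h]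
      exact Algebra.mem_top
    have hone : (tm 1 (1 : T.W.H P) : Base T.W.K (T.W.H P)) = 1 := rfl
    induction hc using Algebra.adjoin_induction with
    | mem c hc =>
      rcases hc with ⟨j, hc⟩ | ⟨f, v, h1, h2, rfl⟩
      · exact Algebra.subset_adjoin (Or.inl ⟨j, tm_gB T hc.1, ta_hodge T hc⟩)
      · refine Algebra.subset_adjoin (Or.inr ⟨bc f, tens 1 v, fun w => ?_, fun g w => ?_, ?_⟩)
        · refine cx_ind (p := fun w => (bc f w : Base T.W.K (T.W.H P)) ∈ gB T P 1) ?_ ?_ ?_ w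
          · rw [map_zero]
            exact Submodule.zero_mem _
          · intro r c
            rw [bc_tens]
            exact Submodule.tmul_mem_baseChange_of_mem r (h1 c)
          · intro a b ha hb
            rw [map_add]
            exact Submodule.add_mem _ ha hb
        · have h3 := rho_lin (M := V) (N := coh T P) f h2 g w
          have h4 := rep_act V g w
          change bc f ((rep V).ap g w) = _
          rw [h4]
          exact h3
        · exact (bc_tens f 1 v).symm
    | algebraMap r =>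
      have h1 : (tm 1 (algebraMap T.W.K (T.W.H P) r) : Base T.W.K (T.W.H P)) =
          algebraMap T.W.K ℂ r • (1 : Base T.W.K (T.W.H P)) := by
        rw [Algebra.algebraMap_eq_smul_one]
        have h2 := tens_smul (K := T.W.K) r (1 : T.W.H P) 1
        have h3 := smul_tens (K := T.W.K) (algebraMap T.W.K ℂ r) 1 (1 : T.W.H P)
        exact h2.trans h3.symm
      rw [h1]
      exact B.smul_mem (one_mem _) _
    | add a c _ _ ha hc =>
      have h1 : (tm 1 (a + c) : Base T.W.K (T.W.H P)) = tm 1 a + tm 1 c := tens_add 1 a c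
      rw [h1]
      exact add_mem ha hc
    | mul a c _ _ ha hc =>
      have h1 : (tm 1 (a * c) : Base T.W.K (T.W.H P)) = tm 1 a * tm 1 c := by
        have h2 := Algebra.TensorProduct.tmul_mul_tmul (R := T.W.K) (A := ℂ) (B := T.W.H P) 1 1 a c
        rw [mul_one] at h2
        exact h2.symm
      rw [h1]
      exact mul_mem ha hc
  rw [eq_top_iff]
  intro x _
  refine cx_ind (K := T.W.K) (V := T.W.H P)
    (p := fun x => (show Base T.W.K (T.W.H P) from x) ∈ B) ?_ ?_ ?_ x
  · exact zero_mem _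
  · intro r c
    have h1 : (tens r c : Cx T.W.K (T.W.H P)) = r • tens 1 c := by rw [smul_tens, mul_one]
    rw [h1]
    exact B.smul_mem (key c) r
  · intro a b ha hb
    exact add_mem ha hb

/-- **Varieties of power type.** -/
theorem power_type {V : HS T.W.K} (b0 : Basis (Fin 2) T.W.K V.V)
    (hV : NoSemi (rep V)) (hdet : ∀ g, LinearMap.det ((rep V).act g) = (chi T.W.K g : ℂ))
    {P : 𝒱.Obj} (h : PowerType T V P) : TypeG T V P := by
  have hfd := finB T P
  have hgen := gen_pow T h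
  have hdet' : ∀ g, (mat (rep V) (S.bx b0) g).det = (chi T.W.K g : ℂ) := by
    intro g
    rw [← hdet g]
    exact LinearMap.det_toMatrix (S.bx b0) _
  have hsp := Tn.vals_span (M := rep V) (b := S.bx b0) (τ := ta T P) (χ := chi T.W.K)
    (gr := gB T P) (one_gB T P) (mul_gB T P) hgen
  have hss : SemiS (algR (ta T P)) := Tn.semisimple hV hdet' hsp
  have hinv := Tn.inv_le_tw hV hdet' hsp
  refine ⟨⟨?_, ?_⟩, ?_⟩
  · have h1 : Algebra.adjoin (baseW T.W ℂ).K (show Set ((baseW T.W ℂ).H P) from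
        (Tn.Tw (ta T P) (chi T.W.K) (gB T P) ∪ Tn.Im1 (rep V) (ta T P) (gB T P) :
          Set (Base T.W.K (T.W.H P)))) ≤
        Algebra.adjoin (baseW T.W ℂ).K (semis (var T P).act ∪ images (K := (baseW T.W ℂ).K)
          (fun _ : Unit => (rep V : GRep (baseW T.W ℂ).K (HGp T.W.K))) (var T P).act) := by
      refine Algebra.adjoin_mono ?_
      rintro x (⟨j, -, hx⟩ | ⟨f, v, -, hf, rfl⟩)
      · left
        exact ⟨⊤, inferInstance, fun g _ => ⟨_, hx g⟩⟩
      · right
        exact ⟨(), f, v, ⟨⊤, inferInstance, fun g _ x => hf g x⟩, rfl⟩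
    have h2 : Algebra.adjoin (baseW T.W ℂ).K (show Set ((baseW T.W ℂ).H P) from
        (Tn.Tw (ta T P) (chi T.W.K) (gB T P) ∪ Tn.Im1 (rep V) (ta T P) (gB T P) :
          Set (Base T.W.K (T.W.H P)))) = ⊤ := hgen
    rw [h2] at h1
    exact eq_top_iff.2 h1
  · rw [coh_var T P]
    exact fun A hA => hss A hA
  · intro z hz
    have h1 : z ∈ inv 1 (ta T P) := fun D' hD' => hD'.kill hz
    refine (Submodule.span_mono ?_) (hinv h1)
    rintro x ⟨j, hj, hx⟩
    exact ⟨j, hj, ⊤, inferInstance, fun g _ => hx g⟩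

end

end Pool.Agent.U233.HG
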