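import Pool.Agent.U233.HG.Def4
import Pool.Agent.U233.HG.Pow

/-!
# The proofs of the statements
-/

set_option autoImplicit false
set_option linter.unusedSectionVars false

open CategoryTheory AlgebraicGeometry TensorProduct

universe u

namespace Pool.Agent.U233.HG.St

open Pool.Agent.N179.DB.S (Cx tens gal bc)
open Pool.Agent.H914 Pool.Agent.H914.VarClass Pool.Agent.H914.VarClass.Obj
  Pool.Agent.H914.WeilCohomology

section HS

variable {K : Type} [Field K] [Algebra K ℂ]

theorem hs_ext {V : Type} [AddCommGroup V] [Module K V] [FiniteDimensional K V]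
    {pq pq' : ℤ → ℤ → Submodule ℂ (Cx K V)} (h : HG.IsDec pq) (h' : HG.IsDec pq')
    (he : ∀ p q x, x ∈ pq p q ↔ x ∈ pq' p q) :
    (⟨V, pq, h⟩ : HG.HS K) = ⟨V, pq', h'⟩ := by
  have h1 : pq = pq' := funext fun p => funext fun q => SetLike.ext (he p q)
  subst h1
  rfl

theorem toHG_ell (τ : UpperHalfPlane) : toHG (ell K τ) = HG.ell K τ :=
  hs_ext (K := K) (V := Fin 2 → K) _ _ fun p q x => Two.mem_iff K τ p q x

theorem pol_iff (M : HS K) : M.Polarisable ↔ HG.Polarisable (toHG M) := by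
  constructor
  · rintro ⟨ψ, h⟩
    exact ⟨ψ, h.real, h.conj, fun p q r s x hx y hy hne => h.orth p q r s x y hx hy hne, h.pos⟩
  · rintro ⟨ψ, h⟩
    exact ⟨ψ, h.real, h.conj, fun p q r s x y hx hy hne => h.orth p q r s x hx y hy hne, h.pos⟩

theorem indep_iff (M N : HS K) : Independent M N ↔ HG.Independent (toHG M) (toHG N) := Iff.rfl

theorem family_iff {ι : Type} (V : ι → HS K) : Family V ↔ HG.Family (fun i => toHG (V i)) :=
  ⟨fun h => ⟨fun i => (pol_iff _).1 (h.polarisable i), fun i j hij =>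
    (indep_iff _ _).1 (h.independent i j hij)⟩,
    fun h => ⟨fun i => (pol_iff _).2 (h.polarisable i), fun i j hij =>
    (indep_iff _ _).2 (h.independent i j hij)⟩⟩

end HS

variable {k : Type u} [Field k] {𝒱 : VarClass k} {ops : CycleOps 𝒱} (T : Theory ops)

theorem gen_of {κ : Type} {U : κ → HS T.W.K} {X : 𝒱.Obj} (h : (coho T X).GenBy U) :
    GeneratedBy T (fun a => toHG (U a)) X := h

theorem type_of' {V : HS T.W.K} {P : 𝒱.Obj} (h : (coho T P).OfType V) :
    OfType T (toHG V) P where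
  gen := gen_of T h.gen
  polarisable := (pol_iff _).1 h.polarisable
  hodge := h.hodge

theorem good_of {ι : Type} {Q : ι → HA T.W.K → Prop} {Q' : ι → 𝒱.Obj → Prop} {E E' : Set ι}
    (hE : ∀ i, i ∉ E → i ∉ E') (hQ : ∀ i P, Q i (coho T P) → Q' i P) {L : List (ι × 𝒱.Obj)}
    (h : Good T Q E L) : HG.Good Q' E' L :=
  ⟨h.1, fun x hx => ⟨hE _ (h.2 x hx).1, hQ _ _ (h.2 x hx).2⟩⟩

theorem splits_of {ι : Type} {Q : ι → HA T.W.K → Prop} {Q' : ι → 𝒱.Obj → Prop} {E E' : Set ι}
    {Z : 𝒱.Obj} (hE : ∀ i, i ∉ E → i ∉ E') (hQ : ∀ i P, Q i (coho T P) → Q' i P)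
    (h : HG.Splits T Q' E' Z) : Splits T Q E Z where
  kunneth i P L hL := h.kunneth i P L (good_of T hE hQ hL)
  conjecture L hL := h.conjecture L (good_of T hE hQ hL)

theorem split {ι : Type} {V : ι → HS T.W.K} (hV : Family V) :
    ∃ E : HS T.W.K → Set ι, Splitting T V E := by
  obtain ⟨E, hE⟩ := splitG T (family_rep T ((family_iff V).1 hV))
  refine ⟨fun U => E (toHG U), ⟨fun U => hE.finite _, fun U => hE.card (toHG U),
    fun i => hE.self i⟩, fun Z => ⟨hE.finite _, hE.variety Z⟩, fun m U Z hZ => ?_⟩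
  exact splits_of T (fun i hi => hi) (fun i P hP => type_of T (type_of' T hP))
    (hE.splits m _ Z (gen_of T hZ))

theorem power_of {V : HS T.W.K} {P : 𝒱.Obj} (h : (coho T P).Power V) :
    PowerType T (toHG V) P := h

theorem elliptic {ι : Type} (τ : ι → UpperHalfPlane) (h : ∀ i, NoCM (τ i))
    (h' : ∀ i j, i ≠ j → NonIsogenous (τ i) (τ j)) : Elliptic T τ := by
  have hfam := ell_family T.rat h h'
  have h3 : (fun i => toHG (ell T.W.K (τ i))) = fun i => HG.ell T.W.K (τ i) :=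
    funext fun i => toHG_ell (τ i)
  refine ⟨(family_iff _).2 (by rw [h3]; exact hfam), fun Z => ?_⟩
  obtain ⟨E, hE⟩ := splitG T (family_rep T hfam)
  refine ⟨E (coh T Z), ⟨hE.finite _, hE.variety Z⟩, ?_⟩
  refine splits_of T (fun i hi => ?_) (fun i P hP => ?_)
    (hE.splits 1 (fun _ => coh T Z) Z (gen_self T Z))
  · rw [Set.mem_iUnion]
    rintro ⟨-, h⟩
    exact hi h
  · have h2 := power_of T hP
    rw [toHG_ell] at h2
    exact power_type T (Pi.basisFun T.W.K (Fin 2)) (noSemi T.rat (h i))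
      (fun g => ell_det (τ i) g) h2

end Pool.Agent.U233.HG.St
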