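import Pool.Agent.U233.HG.Def2a

/-!
# Independent families of Hodge structures: definitions
-/

set_option autoImplicit false

open CategoryTheory AlgebraicGeometry TensorProduct

universe u

namespace Pool.Agent.U233.HG.St

open Pool.Agent.N179.DB.S (Cx tens gal bc)
open Pool.Agent.H914 Pool.Agent.H914.VarClass Pool.Agent.H914.VarClass.Obj
  Pool.Agent.H914.WeilCohomology

noncomputable section

section K

variable {K : Type} [Field K] [Algebra K ℂ]

/-- The Hodge structure on the space of the linear operators. -/
def HS.endo (M : HS K) : HS K where
  V := OprV K M.V
  fd := OprV.fd M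
  pq := oprPQ M
  dec := opr_dec M

/-- Every homomorphism of Hodge structures `End M → End N` has its values in the part with complex
multiplication. -/
def Independent (M N : HS K) : Prop :=
  ∀ f : Map M.endo N.endo, IsHom f → ∀ x, N.endo.em 1 (f.ev x) ∈ Submodule.span ℂ N.endo.pures

/-- The Hodge structures are polarisable and pairwise independent. -/
structure Family {ι : Type} (V : ι → HS K) : Prop where
  polarisable : ∀ i, (V i).Polarisable
  independent : ∀ i j, i ≠ j → Independent (V i) (V j)

section alg

variable (X : HA K)

/-- The algebra is polarisable and generated by `V`, and the part with complex multiplication is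
spanned by the Hodge classes. -/
structure HA.OfType (V : HS K) : Prop where
  gen : X.GenBy (fun _ : Unit => V)
  polarisable : X.str.Polarisable
  hodge : Spanned (A := X.A) X.str.pures X.hodge

/-- The images of the homomorphisms of Hodge structures from `V` to the part of degree `1`. -/
def HA.degOne (V : HS K) : Set X.A :=
  {x | ∃ (f : Map V X.str) (v : V.V), (∀ w, f.ev w ∈ X.gr 1) ∧ IsHom f ∧ x = f.ev v}

/-- The algebra is generated by the Hodge classes and by the images of the homomorphisms of Hodge
structures from `V` to the part of degree `1`. (For instance, if `V` is the first cohomology of an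
elliptic curve: the powers of this curve.) -/
def HA.Power (V : HS K) : Prop := GenK (K := K) (X.hodge ∪ X.degOne V)

end alg

end K

variable {k : Type u} [Field k] {𝒱 : VarClass k} {ops : CycleOps 𝒱} (T : Theory ops)

/-- The list `L` of the pairs `(i_a, P_a)`: the indices are pairwise different and not in `E`, and the
cohomology of `P_a` has the property `Q i_a`. -/
def Good {ι : Type} (Q : ι → HA T.W.K → Prop) (E : Set ι) (L : List (ι × 𝒱.Obj)) : Prop :=
  (L.map Prod.fst).Nodup ∧ ∀ x ∈ L, x.1 ∉ E ∧ Q x.1 (coho T x.2)

/-- Let `P_a` be varieties with the property `Q i_a`, where the indices `i_a` are pairwise different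
and not in `E`. The Hodge classes on `P_1 × (P_2 × (⋯ × Z))` are the linear combinations of the
products of the pull-backs of Hodge classes on `P_1` and on `P_2 × (⋯ × Z)`; and the Hodge
conjecture holds for the product if and only if it holds for `Z` and for all `P_a`. -/
structure Splits {ι : Type} (Q : ι → HA T.W.K → Prop) (E : Set ι) (Z : 𝒱.Obj) : Prop where
  kunneth : ∀ (i : ι) (P : 𝒱.Obj) (L : List (ι × 𝒱.Obj)), Good T Q E ((i, P) :: L) →
    HodgeKun T P (prd L Z)
  conjecture : ∀ L : List (ι × 𝒱.Obj), Good T Q E L →
    ((coho T (prd L Z)).HC ↔ (coho T Z).HC ∧ ∀ x ∈ L, (coho T x.2).HC)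

/-- `E U` is the set of the exceptional indices with respect to the Hodge structure `U`.

* The sets `E U` are finite (`Few`), and for every variety `Z` the number of the exceptional indices
  with respect to the cohomology of `Z` is at most one half of `b - b'`, where `b` is the sum of the
  Betti numbers and `b'` is the dimension of the part with complex multiplication.
* If `Z` is generated by finitely many structures `U a` (for instance by its own cohomology), then
  the theorem `Splits` holds for the products of `Z` with varieties of the types `V i`, without
  indices in the `E (U a)`. -/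
structure Splitting {ι : Type} (V : ι → HS T.W.K) (E : HS T.W.K → Set ι) : Prop where
  few : Few V E
  variety : ∀ Z : 𝒱.Obj, (coho T Z).Bound (E (coho T Z).str)
  splits : ∀ (m : ℕ) (U : Fin m → HS T.W.K) (Z : 𝒱.Obj), (coho T Z).GenBy U →
    Splits T (fun i X => X.OfType (V i)) (⋃ a, E (U a)) Z

end

end Pool.Agent.U233.HG.St
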