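import Pool.Agent.U233.HG.Def2

/-!
# The Hodge structure on the cohomology of a variety
-/

set_option autoImplicit false
set_option linter.unusedSectionVars false

open CategoryTheory AlgebraicGeometry TensorProduct

universe u

namespace Pool.Agent.U233.HG

open Module Pool.Agent.N179.DB
open Pool.Agent.N179.DB.S (Cx tens gal bc cx_ind)
open Pool.Agent.H914 Pool.Agent.H914.VarClass Pool.Agent.H914.VarClass.Obj
  Pool.Agent.H914.WeilCohomology
open Pool.Agent.U233.HG.St (Theory coho toSub toHG)

variable {k : Type u} [Field k] {𝒱 : VarClass k} {ops : CycleOps 𝒱}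

noncomputable section

/-- The classes of type `(p, q)` as a subspace. -/
def pqC (T : Theory ops) (X : 𝒱.Obj) (p q : ℤ) : Submodule ℂ (Cx T.W.K (T.W.H X)) :=
  toSub (coho T X).str p q

/-- The Hodge structure on the cohomology of the variety `X`. -/
def coh (T : Theory ops) (X : 𝒱.Obj) : HS T.W.K := toHG (coho T X).str

/-- The class `c` is a Hodge class of degree `2 j`. -/
def IsHodge (T : Theory ops) (X : 𝒱.Obj) (j : ℕ) (c : T.W.H X) : Prop :=
  c ∈ T.W.gr X (2 * j) ∧ (tens 1 c : Cx T.W.K (T.W.H X)) ∈ pqC T X j j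

/-- The Hodge conjecture. -/
def HodgeConjecture (T : Theory ops) (X : 𝒱.Obj) : Prop :=
  ∀ (j : ℕ) (c : T.W.H X), IsHodge T X j c → ∃ z, X.IsCyc j z ∧ T.W.cl X z = c

theorem hc_iff (T : Theory ops) (X : 𝒱.Obj) : (coho T X).HC ↔ HodgeConjecture T X := Iff.rfl

end

end Pool.Agent.U233.HG
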