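import Mathlib

/-!
# Complements of subspaces for positive definite forms
-/

set_option autoImplicit false
set_option linter.unusedSectionVars false

namespace Pool.Agent.U233.HG

open Module ComplexConjugate

noncomputable section

/-- A sesquilinear form (linear in the first variable), positive definite. -/
structure IsHerm {V : Type*} [AddCommGroup V] [Module ℂ V] (h : V → V → ℂ) : Prop where
  add : ∀ x y z, h (x + y) z = h x z + h y z
  smul : ∀ (c : ℂ) x y, h (c • x) y = c * h x y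
  add' : ∀ x y z, h x (y + z) = h x y + h x z
  smul' : ∀ (c : ℂ) x y, h x (c • y) = conj c * h x y
  pos : ∀ x, x ≠ 0 → ∃ r : ℝ, 0 < r ∧ h x x = r

variable {V : Type*} [AddCommGroup V] [Module ℂ V] {h : V → V → ℂ}

namespace IsHerm

theorem zero_left (H : IsHerm h) (y : V) : h 0 y = 0 := by
  have h1 := H.smul 0 0 y
  rwa [zero_smul, zero_mul] at h1

theorem self_im (H : IsHerm h) (x : V) : (h x x).im = 0 := by
  by_cases hx : x = 0
  · rw [hx, H.zero_left, Complex.zero_im]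
  · obtain ⟨r, -, hr⟩ := H.pos x hx
    rw [hr, Complex.ofReal_im]

theorem symm (H : IsHerm h) (x y : V) : conj (h y x) = h x y := by
  have h1 := H.self_im (x + y)
  rw [H.add, H.add', H.add'] at h1
  simp only [Complex.add_im, H.self_im] at h1
  have h2 := H.self_im (x + Complex.I • y)
  rw [H.add, H.add', H.add', H.smul, H.smul, H.smul', H.smul'] at h2
  simp only [Complex.add_im, H.self_im, Complex.conj_I] at h2
  apply Complex.ext
  · rw [Complex.conj_re]
    simp [Complex.mul_im, H.self_im] at h2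
    linarith
  · rw [Complex.conj_im]
    linarith

/-- the inner product -/
@[reducible] def core (H : IsHerm h) : InnerProductSpace.Core ℂ V where
  inner := fun x y => h y x
  conj_inner_symm := fun x y => by
    change conj (h x y) = h y x
    exact H.symm y x
  re_inner_nonneg := fun x => by
    change 0 ≤ (h x x).re
    by_cases hx : x = 0
    · rw [hx, H.zero_left, Complex.zero_re]
    · obtain ⟨r, hr, h1⟩ := H.pos x hx
      rw [h1, Complex.ofReal_re]
      exact hr.le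
  add_left := fun x y z => H.add' z x y
  smul_left := fun x y r => H.smul' r y x
  definite := fun x hx => by
    by_contra hx0
    obtain ⟨r, hr, h1⟩ := H.pos x hx0
    have h2 : h x x = 0 := hx
    rw [h1] at h2
    exact hr.ne' (by exact_mod_cast h2)

/-- the complement -/
theorem exists_compl [FiniteDimensional ℂ V] (H : IsHerm h) (A : Submodule ℂ V) :
    ∃ B : Submodule ℂ V, IsCompl A B ∧ ∀ y, y ∈ B ↔ ∀ x ∈ A, h x y = 0 := by
  let _ : NormedAddCommGroup V := H.core.toNormedAddCommGroup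
  let _ : InnerProductSpace ℂ V := InnerProductSpace.ofCore H.core.toCore
  refine ⟨Aᗮ, Submodule.isCompl_orthogonal A, fun y => ?_⟩
  rw [Submodule.mem_orthogonal]
  refine forall₂_congr fun x _ => ?_
  change h y x = 0 ↔ h x y = 0
  rw [← H.symm x y]
  exact (map_eq_zero_iff (starRingEnd ℂ) (RingHom.injective _)).symm

end IsHerm

section trace

variable {E : Type*} [NormedAddCommGroup E] [InnerProductSpace ℂ E] [FiniteDimensional ℂ E]

/-- the trace form -/
def trF (X Y : E →ₗ[ℂ] E) : ℂ := LinearMap.trace ℂ E (LinearMap.adjoint Y ∘ₗ X)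

theorem trF_herm : IsHerm (trF (E := E)) where
  add x y z := by
    unfold trF
    rw [LinearMap.comp_add, map_add]
  smul c x y := by
    unfold trF
    rw [LinearMap.comp_smul, map_smul, smul_eq_mul]
  add' x y z := by
    unfold trF
    rw [map_add, LinearMap.add_comp, map_add]
  smul' c x y := by
    unfold trF
    rw [map_smulₛₗ, LinearMap.smul_comp, map_smul, smul_eq_mul]
  pos x hx := by
    let o := stdOrthonormalBasis ℂ E
    refine ⟨∑ i, ‖x (o i)‖ ^ 2, ?_, ?_⟩
    · by_contra hcon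
      apply hx
      have h1 : ∑ i, ‖x (o i)‖ ^ 2 = 0 :=
        le_antisymm (not_lt.1 hcon) (Finset.sum_nonneg fun i _ => sq_nonneg _)
      have h2 := (Finset.sum_eq_zero_iff_of_nonneg fun i _ => sq_nonneg ‖x (o i)‖).1 h1
      refine o.toBasis.ext fun i => ?_
      rw [OrthonormalBasis.coe_toBasis, LinearMap.zero_apply]
      exact norm_eq_zero.1 (pow_eq_zero_iff (two_ne_zero)|>.1 (h2 i (Finset.mem_univ i)))
    · unfold trF
      rw [LinearMap.trace_eq_sum_inner _ o]
      push_cast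
      refine Finset.sum_congr rfl fun i _ => ?_
      rw [Function.comp_apply, LinearMap.adjoint_inner_right, inner_self_eq_norm_sq_to_K]
      rfl

theorem trF_conj {g g' u u' : E →ₗ[ℂ] E} (hg : LinearMap.adjoint g = g')
    (hu : LinearMap.adjoint u = u') (X Y : E →ₗ[ℂ] E) :
    trF X (g ∘ₗ Y ∘ₗ u) = trF (g' ∘ₗ X ∘ₗ u') Y := by
  unfold trF
  rw [LinearMap.adjoint_comp, LinearMap.adjoint_comp, hg, hu]
  have h1 : ((u' ∘ₗ LinearMap.adjoint Y) ∘ₗ g') ∘ₗ X = u' ∘ₗ (LinearMap.adjoint Y ∘ₗ g' ∘ₗ X) :=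
    rfl
  rw [h1, LinearMap.trace_comp_comm']
  rfl

end trace

/-- **Complements of stable spaces of operators.** -/
theorem IsHerm.endo_compl {V : Type*} [AddCommGroup V] [Module ℂ V] [FiniteDimensional ℂ V]
    {h : V → V → ℂ} (H : IsHerm h) {G : Type*} [Group G] (ρ : G →* (V ≃ₗ[ℂ] V))
    (hadj : ∀ g, ∃ g', ∀ x y, h x (ρ g y) = h (ρ g' x) y) (A : Submodule ℂ (V →ₗ[ℂ] V))
    (hA : ∀ g, ∀ x ∈ A, (ρ g).toLinearMap ∘ₗ x ∘ₗ (ρ g⁻¹).toLinearMap ∈ A) :
    ∃ B : Submodule ℂ (V →ₗ[ℂ] V),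
      (∀ g, ∀ x ∈ B, (ρ g).toLinearMap ∘ₗ x ∘ₗ (ρ g⁻¹).toLinearMap ∈ B) ∧ IsCompl A B := by
  let _ : NormedAddCommGroup V := H.core.toNormedAddCommGroup
  let _ : InnerProductSpace ℂ V := InnerProductSpace.ofCore H.core.toCore
  obtain ⟨B, hAB, hB⟩ := (trF_herm (E := V)).exists_compl A
  refine ⟨B, fun g x hx => ?_, hAB⟩
  rw [hB]
  intro y hy
  obtain ⟨g', hg'⟩ := hadj g
  have h1 : LinearMap.adjoint (ρ g).toLinearMap = (ρ g').toLinearMap := by
    rw [eq_comm, LinearMap.eq_adjoint_iff]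
    intro a b
    change h b (ρ g' a) = h (ρ g b) a
    have h2 := hg' a b
    rw [← H.symm b (ρ g' a), ← h2, H.symm]
  have h2 : LinearMap.adjoint (ρ g⁻¹).toLinearMap = (ρ g'⁻¹).toLinearMap := by
    rw [eq_comm, LinearMap.eq_adjoint_iff]
    intro a b
    change h b (ρ g'⁻¹ a) = h (ρ g⁻¹ b) a
    have h3 := hg' (ρ g'⁻¹ a) (ρ g⁻¹ b)
    have h4 : ρ g (ρ g⁻¹ b) = b := by
      rw [← LinearEquiv.mul_apply, ← map_mul, mul_inv_cancel, map_one]; rfl
    have h5 : ρ g' (ρ g'⁻¹ a) = a := by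
      rw [← LinearEquiv.mul_apply, ← map_mul, mul_inv_cancel, map_one]; rfl
    rw [h4, h5] at h3
    rw [← H.symm b (ρ g'⁻¹ a), h3, H.symm]
  rw [trF_conj h1 h2]
  exact (hB x).1 hx _ (hA g' y hy)

/-- **Complements of stable subspaces.** -/
theorem IsHerm.compl_stable {V : Type*} [AddCommGroup V] [Module ℂ V] [FiniteDimensional ℂ V]
    {h : V → V → ℂ} (H : IsHerm h) {G : Type*} [Group G] (ρ : G →* (V ≃ₗ[ℂ] V))
    (hadj : ∀ g, ∃ g', ∀ x y, h x (ρ g y) = h (ρ g' x) y) (A : Submodule ℂ V)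
    (hA : ∀ g, ∀ x ∈ A, ρ g x ∈ A) :
    ∃ B : Submodule ℂ V, (∀ g, ∀ x ∈ B, ρ g x ∈ B) ∧ IsCompl A B := by
  obtain ⟨B, hAB, hB⟩ := H.exists_compl A
  refine ⟨B, fun g x hx => ?_, hAB⟩
  rw [hB]
  intro y hy
  obtain ⟨g', hg'⟩ := hadj g
  rw [hg']
  exact (hB x).1 hx _ (hA g' y hy)

end

end Pool.Agent.U233.HG
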