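import Pool.Agent.U233.HG.Rep
import Pool.Agent.U233.HG.Uni

/-!
# Polarisable Hodge structures are semisimple
-/

set_option autoImplicit false
set_option linter.unusedSectionVars false

open TensorProduct

namespace Pool.Agent.U233.HG

open Module Pool.Agent.N179.DB Pool.Agent.N179.GR.S
open Pool.Agent.N179.DB.S (Cx tens gal bc cx_ind tens_add tens_smul smul_tens exists_tens
  inF_tens bx_apply bc_tens bc_gal gal_add gal_tens)

noncomputable section

variable {K : Type} [Field K] [Algebra K ℂ]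

theorem formC_tens {V : Type} [AddCommGroup V] [Module K V] (ψ : V →ₗ[K] V →ₗ[K] K) (a c : ℂ)
    (v w : V) : formC ψ (tens a v) (tens c w) = a * c * algebraMap K ℂ (ψ v w) := by
  have h := LinearMap.BilinForm.baseChange_tmul (A := ℂ) ψ a v c w
  refine Eq.trans (show formC ψ (tens a v) (tens c w) = _ from h) ?_
  rw [Algebra.smul_def, mul_comm]

/-- The form `ψ` is a polarisation of the Hodge structure: the complex conjugation maps the vectors
of type `(p, q)` to vectors of type `(q, p)`, the rational form `ψ` vanishes on the pairs of vectors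
of types `(p, q)` and `(r, s)` unless `(r, s) = (q, p)`, and `i ^ (p - q) ψ(x, x̄)` is a positive
real number for all nonzero `x` of type `(p, q)`. -/
structure IsPol (M : HS K) (ψ : M.V →ₗ[K] M.V →ₗ[K] K) : Prop where
  real : ∀ r : K, cc (algebraMap K ℂ r) = algebraMap K ℂ r
  conj : ∀ p q, ∀ x ∈ M.pq p q, gal cc real x ∈ M.pq q p
  orth : ∀ p q r s, ∀ x ∈ M.pq p q, ∀ y ∈ M.pq r s, (r ≠ q ∨ s ≠ p) → formC ψ x y = 0
  pos : ∀ p q, ∀ x ∈ M.pq p q, x ≠ 0 →
    ∃ r : ℝ, 0 < r ∧ Complex.I ^ (p - q) * formC ψ x (gal cc real x) = r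

/-- There is a polarisation. -/
def Polarisable (M : HS K) : Prop := ∃ ψ, IsPol M ψ

theorem formC_gal {V : Type} [AddCommGroup V] [Module K V] (ψ : V →ₗ[K] V →ₗ[K] K)
    (τ : ℂ ≃+* ℂ) (hτ : ∀ r : K, τ (algebraMap K ℂ r) = algebraMap K ℂ r) (x y : Cx K V) :
    formC ψ (gal τ hτ x) (gal τ hτ y) = τ (formC ψ x y) := by
  refine cx_ind (p := fun x => formC ψ (gal τ hτ x) (gal τ hτ y) = τ (formC ψ x y)) ?_ ?_ ?_ x
  · have h0 : gal τ hτ (0 : Cx K V) = 0 := map_zero ((S.autLin τ hτ).rTensor V)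
    rw [h0, map_zero, LinearMap.zero_apply, LinearMap.zero_apply, map_zero]
  · intro r c
    refine cx_ind (p := fun y => formC ψ (gal τ hτ (tens r c)) (gal τ hτ y) =
      τ (formC ψ (tens r c) y)) ?_ ?_ ?_ y
    · have h0 : gal τ hτ (0 : Cx K V) = 0 := map_zero ((S.autLin τ hτ).rTensor V)
      rw [h0, map_zero, map_zero, map_zero]
    · intro s d
      rw [gal_tens, gal_tens, formC_tens, formC_tens, map_mul, map_mul, hτ]
    · intro a b ha hb
      rw [gal_add, map_add, map_add, ha, hb, map_add]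
  · intro a b ha hb
    rw [gal_add, map_add, map_add, LinearMap.add_apply, LinearMap.add_apply, ha, hb, map_add]

/-- the image of a unit -/
def un (σ : ℂ ≃+* ℂ) (z : ℂˣ) : ℂˣ := Units.map (σ : ℂ →* ℂ) z

theorem mon_un (σ : ℂ ≃+* ℂ) (z w : ℂˣ) (r : ℤ × ℤ) : mon (un σ z) (un σ w) r = un σ (mon z w r) := by
  unfold mon un
  rw [map_mul, map_zpow, map_zpow]

section gen

variable {V : Type*} [AddCommGroup V] [Module ℂ V] {ι κ : Type*} [Fintype ι] [Fintype κ]
  (b : Basis ι ℂ V) (e : Basis κ ℂ V) (t : κ → ℤ × ℤ)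

theorem sl_Dg (τ σ : ℂ ≃+* ℂ) (z w : ℂˣ) (x : V) :
    sl b σ (Dg b e t τ z w x) = Dg b e t (τ.trans σ) (un σ z) (un σ w) (sl b σ x) := by
  have h1 : x = ∑ k, (mv b e τ).repr x k • mv b e τ k := ((mv b e τ).sum_repr x).symm
  rw [h1, map_sum, map_sum, sl_sum, map_sum]
  refine Finset.sum_congr rfl fun k _ => ?_
  rw [map_smul, Dg_mv, sl_smul, sl_smul, map_smul, mv_apply, sl_comp, Dg_basis, mon_un]
  rfl

end gen

section herm

variable {M : HS K} {ψ : M.V →ₗ[K] M.V →ₗ[K] K}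

/-- the imaginary unit -/
def iu : ℂˣ := Units.mk0 Complex.I Complex.I_ne_zero

/-- the Weil operator -/
def weil (M : HS K) : Cx K M.V ≃ₗ[ℂ] Cx K M.V := Dg M.b M.e M.t (RingEquiv.refl ℂ) iu iu⁻¹

/-- the hermitian form -/
def hf (M : HS K) (ψ : M.V →ₗ[K] M.V →ₗ[K] K) (x y : Cx K M.V) : ℂ :=
  formC ψ (weil M x) (sl M.b cc y)

theorem weil_typ {r : ℤ × ℤ} {x : Cx K M.V} (h : Typ M.e M.t r x) :
    weil M x = Complex.I ^ (r.1 - r.2) • x := by
  have h1 := h.dg (b := M.b) (RingEquiv.refl ℂ) iu iu⁻¹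
  rw [sl_refl] at h1
  rw [weil, h1]
  congr 1
  have h2 : mon iu iu⁻¹ r = iu ^ (r.1 - r.2) := by
    unfold mon
    rw [inv_zpow', ← zpow_add, sub_eq_add_neg]
  rw [h2, Units.val_zpow_eq_zpow_val]
  rfl

/-- the part of type `r` -/
def part (M : HS K) (x : Cx K M.V) (r : ℤ × ℤ) : Cx K M.V :=
  ∑ k ∈ Finset.univ.filter (fun k => M.t k = r), M.e.repr x k • M.e k

theorem part_typ (x : Cx K M.V) (r : ℤ × ℤ) : Typ M.e M.t r (part M x r) :=
  typ_sum fun k hk => by
    have h1 : Typ M.e M.t (M.t k) (M.e k) := Typ.basis k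
    rw [(Finset.mem_filter.1 hk).2] at h1
    exact h1.smul _

theorem sum_part (x : Cx K M.V) : x = ∑ r ∈ Finset.univ.image M.t, part M x r := by
  classical
  conv_lhs => rw [← M.e.sum_repr x]
  unfold part
  rw [Finset.sum_fiberwise_of_maps_to]
  exact fun k _ => Finset.mem_image_of_mem _ (Finset.mem_univ k)

theorem hf_part (h : IsPol M ψ) (x y : Cx K M.V) {r s : ℤ × ℤ} (hrs : r ≠ s) :
    hf M ψ (part M x r) (part M y s) = 0 := by
  unfold hf
  rw [weil_typ (part_typ x r), map_smul, LinearMap.smul_apply, ← M.gal_eq h.real]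
  have h1 : gal cc h.real (part M y s) ∈ M.pq s.2 s.1 :=
    h.conj s.1 s.2 _ ((M.mem' s _).2 (part_typ y s))
  rw [h.orth r.1 r.2 s.2 s.1 _ ((M.mem' r _).2 (part_typ x r)) _ h1, smul_zero]
  by_contra hcon
  push Not at hcon
  exact hrs (Prod.ext hcon.2.symm hcon.1.symm)

theorem hf_add (x y z : Cx K M.V) : hf M ψ (x + y) z = hf M ψ x z + hf M ψ y z := by
  unfold hf
  rw [map_add, map_add, LinearMap.add_apply]

theorem hf_add' (x y z : Cx K M.V) : hf M ψ x (y + z) = hf M ψ x y + hf M ψ x z := by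
  unfold hf
  rw [map_add, map_add]

theorem hf_zero (z : Cx K M.V) : hf M ψ 0 z = 0 := by
  unfold hf
  rw [map_zero, map_zero, LinearMap.zero_apply]

theorem hf_zero' (z : Cx K M.V) : hf M ψ z 0 = 0 := by
  unfold hf
  rw [map_zero, map_zero]

theorem hf_sum {α : Type*} (s : Finset α) (v : α → Cx K M.V) (z : Cx K M.V) :
    hf M ψ (∑ i ∈ s, v i) z = ∑ i ∈ s, hf M ψ (v i) z := by
  classical
  induction s using Finset.induction_on with
  | empty => rw [Finset.sum_empty, Finset.sum_empty, hf_zero]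
  | insert a s ha ih => rw [Finset.sum_insert ha, Finset.sum_insert ha, hf_add, ih]

theorem hf_sum' {α : Type*} (s : Finset α) (v : α → Cx K M.V) (z : Cx K M.V) :
    hf M ψ z (∑ i ∈ s, v i) = ∑ i ∈ s, hf M ψ z (v i) := by
  classical
  induction s using Finset.induction_on with
  | empty => rw [Finset.sum_empty, Finset.sum_empty, hf_zero']
  | insert a s ha ih => rw [Finset.sum_insert ha, Finset.sum_insert ha, hf_add', ih]

theorem hf_typ (h : IsPol M ψ) (x : Cx K M.V) (r : ℤ × ℤ) :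
    part M x r = 0 ∨ ∃ c : ℝ, 0 < c ∧ hf M ψ (part M x r) (part M x r) = c := by
  by_cases h0 : part M x r = 0
  · exact Or.inl h0
  · right
    obtain ⟨c, hc, h1⟩ := h.pos r.1 r.2 _ ((M.mem' r _).2 (part_typ x r)) h0
    refine ⟨c, hc, ?_⟩
    unfold hf
    rw [weil_typ (part_typ x r), map_smul, LinearMap.smul_apply, ← M.gal_eq h.real, smul_eq_mul]
    exact h1

theorem hf_self (h : IsPol M ψ) (x : Cx K M.V) :
    hf M ψ x x = ∑ r ∈ Finset.univ.image M.t, hf M ψ (part M x r) (part M x r) := by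
  classical
  conv_lhs => rw [sum_part x]
  rw [hf_sum]
  refine Finset.sum_congr rfl fun r hr => ?_
  rw [hf_sum', Finset.sum_eq_single r]
  · intro s _ hs
    exact hf_part h x x (Ne.symm hs)
  · intro h1
    exact absurd hr h1

/-- the form is hermitian and positive definite -/
theorem herm (h : IsPol M ψ) : IsHerm (hf M ψ) where
  add := hf_add
  add' := hf_add'
  smul c x y := by
    unfold hf
    rw [map_smul, map_smul, LinearMap.smul_apply, smul_eq_mul]
  smul' c x y := by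
    unfold hf
    rw [sl_smul, map_smul, smul_eq_mul]
    rfl
  pos x hx := by
    classical
    have h1 : ∀ r, ∃ c : ℝ, 0 ≤ c ∧ hf M ψ (part M x r) (part M x r) = c ∧
        (part M x r ≠ 0 → 0 < c) := by
      intro r
      rcases hf_typ h x r with h2 | ⟨c, hc, h2⟩
      · exact ⟨0, le_rfl, by rw [h2, hf_zero, Complex.ofReal_zero], fun h3 => absurd h2 h3⟩
      · exact ⟨c, hc.le, h2, fun _ => hc⟩
    choose c hc0 hc hc1 using h1
    refine ⟨∑ r ∈ Finset.univ.image M.t, c r, ?_, ?_⟩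
    · obtain ⟨r, hr, hr0⟩ : ∃ r ∈ Finset.univ.image M.t, part M x r ≠ 0 := by
        by_contra hcon
        push Not at hcon
        apply hx
        rw [sum_part x]
        exact Finset.sum_eq_zero hcon
      exact Finset.sum_pos' (fun r _ => hc0 r) ⟨r, hr, hc1 r hr0⟩
    · rw [hf_self h, Complex.ofReal_sum]
      exact Finset.sum_congr rfl fun r _ => hc r

/-- the adjoint operators for the bilinear form -/
theorem form_Dg (h : IsPol M ψ) {τ : ℂ ≃+* ℂ} (hτ : FixK K τ) (z w : ℂˣ) (x y : Cx K M.V) :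
    formC ψ x (Dg M.b M.e M.t τ z w y) = formC ψ (Dg M.b M.e M.t τ w z x) y := by
  let B := formC ψ
  have key : B.compl₂ (Dg M.b M.e M.t τ z w).toLinearMap =
      B.comp (Dg M.b M.e M.t τ w z).toLinearMap := by
    refine (mv M.b M.e τ).ext fun k => (mv M.b M.e τ).ext fun l => ?_
    change B (mv M.b M.e τ k) (Dg M.b M.e M.t τ z w (mv M.b M.e τ l)) =
      B (Dg M.b M.e M.t τ w z (mv M.b M.e τ k)) (mv M.b M.e τ l)
    rw [Dg_mv, Dg_mv, map_smul, map_smul, LinearMap.smul_apply, mv_apply, mv_apply,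
      ← M.gal_eq hτ, ← M.gal_eq hτ, formC_gal]
    by_cases hkl : (M.t l).1 = (M.t k).2 ∧ (M.t l).2 = (M.t k).1
    · congr 2
      unfold mon
      rw [hkl.1, hkl.2, mul_comm]
    · have h1 : formC ψ (M.e k) (M.e l) = 0 := by
        refine h.orth (M.t k).1 (M.t k).2 (M.t l).1 (M.t l).2 _ ((M.mem' _ _).2 (Typ.basis k)) _
          ((M.mem' _ _).2 (Typ.basis l)) ?_
        by_contra hcon
        push Not at hcon
        exact hkl hcon
      rw [h1, map_zero, smul_zero, smul_zero]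
  exact LinearMap.congr_fun (LinearMap.congr_fun key x) y

theorem FixK.trans' {τ σ : ℂ ≃+* ℂ} (hτ : FixK K τ) (hσ : FixK K σ) : FixK K (τ.trans σ) := by
  intro r
  rw [RingEquiv.coe_trans, Function.comp_apply, hτ r, hσ r]

/-- **The group is stable under adjoints.** -/
theorem hf_adj (h : IsPol M ψ) (g : HGp K) :
    ∃ g' : HGp K, ∀ x y, hf M ψ x (rho M.b M.e M.t K g y) =
      hf M ψ (rho M.b M.e M.t K g' x) y := by
  refine hg_ind (C := fun g => ∃ g' : HGp K, ∀ x y, hf M ψ x (rho M.b M.e M.t K g y) =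
      hf M ψ (rho M.b M.e M.t K g' x) y) g ⟨1, fun x y => by rw [map_one]; rfl⟩ (fun p => ?_)
      (fun g hg => ?_) (fun g g' hg hg' => ?_)
  · let c : HP K := ⟨RingEquiv.refl ℂ, fun _ => rfl, iu, iu⁻¹⟩
    let p' : HP K := ⟨p.τ.trans cc, FixK.trans' p.fix h.real, un cc p.w, un cc p.z⟩
    refine ⟨(FreeGroup.of c)⁻¹ * FreeGroup.of p' * FreeGroup.of c, fun x y => ?_⟩
    have hc : ∀ v, rho M.b M.e M.t K (FreeGroup.of c) v = weil M v := fun v => by
      rw [rho_of]
      rfl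
    have h1 : weil M (rho M.b M.e M.t K ((FreeGroup.of c)⁻¹ * FreeGroup.of p' *
        FreeGroup.of c) x) = rho M.b M.e M.t K (FreeGroup.of p') (weil M x) := by
      rw [map_mul, map_mul, LinearEquiv.mul_apply, LinearEquiv.mul_apply, ← hc, apply_inv', hc]
    unfold hf
    rw [h1, rho_of, rho_of, sl_Dg, form_Dg h (FixK.trans' p.fix h.real)]
  · obtain ⟨g', hg'⟩ := hg
    refine ⟨g'⁻¹, fun x y => ?_⟩
    have h1 := hg' (rho M.b M.e M.t K g'⁻¹ x) (rho M.b M.e M.t K g⁻¹ y)
    rw [apply_inv', apply_inv'] at h1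
    exact h1.symm
  · obtain ⟨k, hk⟩ := hg
    obtain ⟨k', hk'⟩ := hg'
    refine ⟨k' * k, fun x y => ?_⟩
    rw [map_mul, map_mul, LinearEquiv.mul_apply, LinearEquiv.mul_apply, hk, hk']

theorem Polarisable.semisimple (h : Polarisable M) : Semisimple (rep M) := by
  obtain ⟨ψ, h⟩ := h
  have := M.fdC
  intro A hA
  obtain ⟨B, h1, h2⟩ := (herm h).compl_stable (rho M.b M.e M.t K) (hf_adj h) A hA
  exact ⟨B, h1, h2⟩

theorem Polarisable.semisimple_endo (h : Polarisable M) : Semisimple (endo (rep M)) := by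
  obtain ⟨ψ, h⟩ := h
  have := M.fdC
  intro A hA
  obtain ⟨B, h1, h2⟩ := (herm h).endo_compl (rho M.b M.e M.t K) (hf_adj h) A hA
  exact ⟨B, h1, h2⟩

end herm

end

end Pool.Agent.U233.HG
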