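import Pool.Agent.U233.HG.Def1
import Pool.Agent.U233.HG.Pol

/-!
# Hodge structures given by subspaces
-/

set_option autoImplicit false

open TensorProduct

namespace Pool.Agent.U233.HG.St

open Pool.Agent.N179.DB.S (Cx tens gal bc)

noncomputable section

variable {K : Type} [Field K] [Algebra K ℂ] (M : HS K)

/-- the subspace -/
def toSub (p q : ℤ) : Submodule ℂ (Cx K M.V) where
  carrier := M.pq p q
  zero_mem' := by
    obtain ⟨n, e, t, h⟩ := M.dec
    rw [h]
    exact fun k _ => by rw [map_zero, Finsupp.zero_apply]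
  add_mem' := by
    obtain ⟨n, e, t, h⟩ := M.dec
    intro a b ha hb
    rw [h] at ha hb ⊢
    exact fun k hk => by rw [map_add, Finsupp.add_apply, ha k hk, hb k hk, add_zero]
  smul_mem' := by
    obtain ⟨n, e, t, h⟩ := M.dec
    intro c a ha
    rw [h] at ha ⊢
    exact fun k hk => by rw [map_smul, Finsupp.smul_apply, ha k hk, smul_zero]

theorem dec_toSub : HG.IsDec (toSub M) := by
  obtain ⟨n, e, t, h⟩ := M.dec
  exact isDec_typ e t fun r x => h r.1 r.2 x

/-- the Hodge structure with subspaces -/
def toHG : HG.HS K where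
  V := M.V
  pq := toSub M
  dec := dec_toSub M

theorem dec_of (N : HG.HS K) : IsDec fun p q => {x | x ∈ N.pq p q} :=
  ⟨N.n, N.e, N.t, fun p q x => N.mem' (p, q) x⟩

theorem opr_dec : IsDec (oprPQ M) := dec_of (toHG M).endo

theorem OprV.fd (M : HS K) : FiniteDimensional K (OprV K M.V) :=
  inferInstanceAs (FiniteDimensional K (M.V →ₗ[K] M.V))

end

end Pool.Agent.U233.HG.St
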