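import Pool.Agent.U233.HG.EllDefs

/-!
# The decomposition for elliptic curves
-/

set_option autoImplicit false

open TensorProduct

namespace Pool.Agent.U233.HG.St

open Pool.Agent.N179.DB.S (Cx tens)

noncomputable section

variable (K : Type) [Field K] [Algebra K ℂ]

theorem Two.vec_eq (z : ℂ) : (show Cx K (Fin 2 → K) from Two.vec K z) = ellVec K z := by
  have h0 : (Two.mk K 1 0 : Fin 2 → K) = Pi.single 0 1 := by
    funext i
    fin_cases i <;> rfl
  have h1 : (Two.mk K 0 1 : Fin 2 → K) = Pi.single 1 1 := by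
    funext i
    fin_cases i <;> rfl
  have h2 : (show Cx K (Fin 2 → K) from Two.vec K z) =
    tens 1 (Two.mk K 1 0 : Fin 2 → K) + tens z (Two.mk K 0 1 : Fin 2 → K) := rfl
  rw [h2, h0, h1]
  rfl

theorem Two.mem_iff (τ : UpperHalfPlane) (p q : ℤ) (x : Cx K (Fin 2 → K)) :
    (show Cx K (Two K) from x) ∈ Two.pq K τ p q ↔ x ∈ ellPQ K τ p q := by
  have key : ∀ z : ℂ, (show Cx K (Two K) from x) ∈ Two.line K z ↔
      x ∈ Submodule.span ℂ {ellVec K z} := by
    intro z
    rw [Submodule.mem_span_singleton, ← Two.vec_eq]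
    exact ⟨fun ⟨c, hc⟩ => ⟨c, hc.symm⟩, fun ⟨c, hc⟩ => ⟨c, hc.symm⟩⟩
  have h0 : (show Cx K (Two K) from x) ∈ Two.pq K τ p q ↔
    ((p = 1 ∧ q = 0 ∧ x ∈ Submodule.span ℂ {ellVec K (τ : ℂ)}) ∨
      (p = 0 ∧ q = 1 ∧ x ∈ Submodule.span ℂ {ellVec K (star (τ : ℂ))}) ∨ x = 0) := by
    rw [← key, ← key]
    rfl
  rw [h0]
  unfold ellPQ
  split_ifs with h1 h2
  · constructor
    · rintro (h | h | h)
      · exact h.2.2
      · omega
      · rw [h]; exact Submodule.zero_mem _
    · exact fun h => Or.inl ⟨h1.1, h1.2, h⟩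
  · constructor
    · rintro (h | h | h)
      · omega
      · exact h.2.2
      · rw [h]; exact Submodule.zero_mem _
    · exact fun h => Or.inr (Or.inl ⟨h2.1, h2.2, h⟩)
  · rw [Submodule.mem_bot]
    constructor
    · rintro (h | h | h)
      · exact absurd ⟨h.1, h.2.1⟩ h1
      · exact absurd ⟨h.1, h.2.1⟩ h2
      · exact h
    · exact fun h => Or.inr (Or.inr h)

theorem Two.dec (τ : UpperHalfPlane) : IsDec (Two.pq K τ) :=
  ⟨2, ellB K τ, ellT, fun p q x => (Two.mem_iff K τ p q x).trans (ell_typ τ (p, q) x)⟩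

theorem Two.fd : FiniteDimensional K (Two K) := inferInstanceAs (FiniteDimensional K (Fin 2 → K))

end

end Pool.Agent.U233.HG.St
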