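import Pool.Agent.U233.HG.Raw

/-!
# Hodge structures, homomorphisms and polarisations: definitions
-/

set_option autoImplicit false

open TensorProduct

namespace Pool.Agent.U233.HG.St

open Pool.Agent.N179.DB.S (Cx tens gal bc)

noncomputable section

/-- The sets `pq p q` are subspaces and the space is their direct sum: there are a basis and types
`t k` of its elements, such that `pq p q` consists of the vectors whose coordinates of a type
different from `(p, q)` vanish. -/
def IsDec {V : Type} [AddCommGroup V] [Module ℂ V] (pq : ℤ → ℤ → Set V) : Prop :=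
  ∃ (n : ℕ) (e : Module.Basis (Fin n) ℂ V) (t : Fin n → ℤ × ℤ),
    ∀ p q x, x ∈ pq p q ↔ ∀ k, t k ≠ (p, q) → e.repr x k = 0

/-- A Hodge structure: a vector space `V` of finite dimension over `K` (for `K = ℚ`) and subspaces
`V ^ (p, q)` of the space with complex coefficients, which is their direct sum. The weights are
arbitrary, and nothing else is required here. -/
structure HS (K : Type) [Field K] [Algebra K ℂ] where
  /-- the space -/
  V : Type
  [ac : AddCommGroup V]
  [md : Module K V]
  [fd : FiniteDimensional K V]
  /-- the vectors of type `(p, q)` -/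
  pq : ℤ → ℤ → Set (Cx K V)
  dec : IsDec pq

attribute [instance] HS.ac HS.md HS.fd

/-- The automorphism `τ` of the field of complex numbers is the identity on `K`. -/
def Fixes (K : Type) [Field K] [Algebra K ℂ] (τ : ℂ ≃+* ℂ) : Prop :=
  ∀ r : K, τ (algebraMap K ℂ r) = algebraMap K ℂ r

variable {K : Type} [Field K] [Algebra K ℂ]

section raw

variable (K) (V : Type) [AddCommGroup V] [Module K V]

/-- The linear operators. -/
def OprV : Type := V →ₗ[K] V

instance OprV.ac : AddCommGroup (OprV K V) := LinearMap.addCommGroup

instance OprV.md : Module K (OprV K V) := LinearMap.module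

/-- The bilinear forms. -/
def FormV : Type := V →ₗ[K] V →ₗ[K] K

variable {K V}

/-- The action of the operators with complex coefficients: `(c ⊗ f) (d ⊗ v) = c d ⊗ f(v)`. -/
def OprV.act (x : Cx K (OprV K V)) (v : Cx K V) : Cx K V := opC x v

/-- The value of a bilinear form. -/
def evB {V : Type} [AddCommGroup V] [Module ℂ V] (B : V →ₗ[ℂ] V →ₗ[ℂ] ℂ) (x y : V) : ℂ := B x y

/-- The extension of a bilinear form to complex coefficients. -/
def FormV.ext (ψ : FormV K V) (x y : Cx K V) : ℂ := evB (formC ψ) x y

end raw

section one

variable (M : HS K)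

/-- The space with complex coefficients. -/
def HS.C : Type := Cx K M.V

instance HS.cac : AddCommGroup M.C := Pool.Agent.N179.DB.S.Cx.ac

instance HS.cmd : Module ℂ M.C := Pool.Agent.N179.DB.S.Cx.md

/-- The vector `c ⊗ v`. -/
def HS.em (c : ℂ) (v : M.V) : M.C := tens c v

/-- The action `c ⊗ v ↦ τ(c) ⊗ v` of the automorphism `τ` on the coefficients. -/
def HS.conj (τ : ℂ ≃+* ℂ) (h : Fixes K τ) (x : M.C) : M.C := gal τ h x

/-- The vector `x` is of type `(p, q)`. -/
def HS.has (p q : ℤ) (x : M.C) : Prop := x ∈ M.pq p q

/-- The vectors all of whose conjugates under the automorphisms of the complex numbers over `K` are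
of pure types (the types may be different). They span the part of the Hodge structure with
complex multiplication: the largest Hodge substructure with a commutative Mumford-Tate group. -/
def HS.pures : Set M.C := {x | ∀ (τ : ℂ ≃+* ℂ) (h : Fixes K τ), ∃ p q, M.has p q (M.conj τ h x)}

/-- The dimension. -/
def HS.dim : ℕ := Module.finrank K M.V

/-- The dimension of the part with complex multiplication. -/
def HS.cmDim : ℕ := Set.finrank ℂ M.pures

end one

/-- The linear maps. -/
def Map (M N : HS K) : Type := M.V →ₗ[K] N.V

/-- The value of a linear map. -/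
def Map.ev {M N : HS K} (f : Map M N) (v : M.V) : N.V := (show M.V →ₗ[K] N.V from f) v

/-- The extension of a linear map to complex coefficients. -/
def Map.ext {M N : HS K} (f : Map M N) (x : M.C) : N.C := bc f x

/-- A homomorphism of Hodge structures: a linear map which respects the types. -/
def IsHom {M N : HS K} (f : Map M N) : Prop := ∀ p q x, M.has p q x → N.has p q (f.ext x)

/-- The bilinear forms. -/
def Form (M : HS K) : Type := FormV K M.V

/-- The extension of a bilinear form to complex coefficients. -/
def Form.ext {M : HS K} (ψ : Form M) (x y : M.C) : ℂ := FormV.ext (V := M.V) ψ x y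

/-- The form `ψ` is a polarisation of the Hodge structure: the complex conjugation maps the vectors
of type `(p, q)` to vectors of type `(q, p)`, the rational form `ψ` vanishes on the pairs of vectors
of types `(p, q)` and `(r, s)` unless `(r, s) = (q, p)`, and `i ^ (p - q) ψ(x, x̄)` is a positive
real number for all nonzero `x` of type `(p, q)`. -/
structure IsPol {M : HS K} (ψ : Form M) : Prop where
  real : Fixes K cc
  conj : ∀ p q x, M.has p q x → M.has q p (M.conj cc real x)
  orth : ∀ p q r s x y, M.has p q x → M.has r s y → (r ≠ q ∨ s ≠ p) → ψ.ext x y = 0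
  pos : ∀ p q x, M.has p q x → x ≠ 0 →
    ∃ r : ℝ, 0 < r ∧ Complex.I ^ (p - q) * ψ.ext x (M.conj cc real x) = r

/-- There is a polarisation. -/
def HS.Polarisable (M : HS K) : Prop := ∃ ψ : Form M, IsPol ψ

/-- The operators of type `(p, q)`: they map the vectors of type `(r, s)` to vectors of type
`(p + r, q + s)`. -/
def oprPQ (M : HS K) (p q : ℤ) : Set (Cx K (OprV K M.V)) :=
  {x | ∀ r s v, M.has r s v → M.has (p + r) (q + s) (OprV.act x v)}

end

end Pool.Agent.U233.HG.St
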