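import Pool.Agent.U233.HG.Conv1
import Pool.Agent.H914R2.Weil

/-!
# Hodge theories: definitions
-/

set_option autoImplicit false

open CategoryTheory AlgebraicGeometry TensorProduct

universe u

namespace Pool.Agent.U233.HG.St

open Pool.Agent.N179.DB.S (Cx tens gal bc)
open Pool.Agent.H914 Pool.Agent.H914.VarClass Pool.Agent.H914.VarClass.Obj
  Pool.Agent.H914.WeilCohomology

noncomputable section

section K

variable {K : Type} [Field K] [Algebra K ℂ]

/-- A cohomology algebra with a Hodge decomposition: an algebra over `K` (for `K = ℚ` the singular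
cohomology of a variety) with a grading, the classes of type `(p, q)` in the algebra with complex
coefficients, and the classes of the algebraic cycles of codimension `j`. -/
structure HA (K : Type) [Field K] [Algebra K ℂ] where
  /-- the algebra -/
  A : Type
  [ring : Ring A]
  [alg : Algebra K A]
  [fd : FiniteDimensional K A]
  /-- the grading -/
  gr : ℕ → Submodule K A
  /-- the classes of type `(p, q)` -/
  pq : ℤ → ℤ → Set (Cx K A)
  dec : IsDec pq
  /-- the algebraic classes -/
  cl : ℕ → Set A

attribute [instance] HA.ring HA.alg HA.fd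

section raw

variable {A B C : Type} [Ring A] [Algebra K A] [Ring B] [Algebra K B] [Ring C] [Algebra K C]

/-- The product of two elements of the algebra with complex coefficients. -/
def mulC (x y : Cx K A) : Cx K A := (show ℂ ⊗[K] A from x) * (show ℂ ⊗[K] A from y)

/-- The sets `pq p q` are subspaces and the algebra with complex coefficients is their direct
sum. -/
def TypesDec (pq : ℤ → ℤ → Set (Cx K A)) : Prop := IsDec pq

/-- The types are additive for products. -/
def TypesMul (pq : ℤ → ℤ → Set (Cx K A)) : Prop :=
  ∀ p q r s x y, x ∈ pq p q → y ∈ pq r s → mulC x y ∈ pq (p + r) (q + s)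

/-- The algebra homomorphism respects the types. -/
def TypesMap (f : A →ₐ[K] B) (pq : ℤ → ℤ → Set (Cx K A)) (pq' : ℤ → ℤ → Set (Cx K B)) : Prop :=
  ∀ p q x, x ∈ pq p q → bc f.toLinearMap x ∈ pq' p q

/-- The classes of degree `i` are sums of classes of types `(p, q)` with `p + q = i`. -/
def TypesDeg (gr : ℕ → Submodule K A) (pq : ℤ → ℤ → Set (Cx K A)) : Prop :=
  ∀ i : ℕ, ∀ c ∈ gr i, tens 1 c ∈ Submodule.span ℂ {x | ∃ p q, p + q = (i : ℤ) ∧ x ∈ pq p q}

/-- The elements of `S` belong to `T`. -/
def Within (S : Set A) (T : Set (Cx K A)) : Prop := ∀ c ∈ S, tens 1 c ∈ T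

/-- The element belongs to the subspace. -/
def IsIn (G : Submodule K A) (c : A) : Prop := c ∈ G

/-- The linear form `f` is not zero on the set `S`. -/
def NonZeroOn (f : A →ₗ[K] K) (S : Set A) : Prop := ∃ c ∈ S, f c ≠ 0

/-- The set `S` generates the algebra. -/
def GenK (S : Set A) : Prop := Algebra.adjoin K S = ⊤

/-- The set `S` generates the algebra with complex coefficients. -/
def Gen (S : Set (Cx K A)) : Prop := GenK (K := ℂ) (A := ℂ ⊗[K] A) S

/-- Every element of `S` is a linear combination of elements of `T`. -/
def Spanned (S : Set (Cx K A)) (T : Set A) : Prop :=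
  ∀ z ∈ S, z ∈ Submodule.span ℂ {x | ∃ c ∈ T, x = tens 1 c}

/-- Every element of `S` is a linear combination of the products of the images of elements of `SA`
and of `SB`. -/
def IsKun (p : A →ₐ[K] C) (q : B →ₐ[K] C) (SA : Set A) (SB : Set B) (S : Set C) : Prop :=
  ∀ z ∈ S, z ∈ Submodule.span K {x | ∃ a ∈ SA, ∃ b ∈ SB, x = p a * q b}

end raw

section alg

variable (X : HA K)

/-- The Hodge structure. -/
def HA.str : HS K where
  V := X.A
  pq := X.pq
  dec := X.dec

/-- The Hodge classes of degree `2 j`: the rational classes of type `(j, j)`. -/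
def HA.hodgeDeg (j : ℕ) : Set X.A := {c | IsIn (X.gr (2 * j)) c ∧ X.str.em 1 c ∈ X.pq j j}

/-- The Hodge classes, of all degrees. -/
def HA.hodge : Set X.A := {c | ∃ j, c ∈ X.hodgeDeg j}

/-- The Hodge conjecture: all Hodge classes are algebraic. -/
def HA.HC : Prop := ∀ j, X.hodgeDeg j ⊆ X.cl j

/-- The images of the homomorphisms of Hodge structures from the `U a`. -/
def HA.imgs {κ : Type} (U : κ → HS K) : Set X.str.C :=
  {x | ∃ (a : κ) (f : Map (U a) X.str) (v : (U a).V), IsHom f ∧ x = X.str.em 1 (f.ev v)}

/-- The algebra with complex coefficients is generated by the images of the homomorphisms from the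
`U a` and by the part with complex multiplication. -/
def HA.GenBy {κ : Type} (U : κ → HS K) : Prop := Gen (A := X.A) (X.str.pures ∪ X.imgs U)

/-- The set is finite, and the number of its elements is at most `(b - b') / 2`, where `b` is the
dimension of the algebra and `b'` the dimension of the part with complex multiplication. -/
def HA.Bound {ι : Type} (E : Set ι) : Prop :=
  E.Finite ∧ 2 * E.ncard + X.str.cmDim ≤ X.str.dim

end alg

/-- The sets `E U` are finite, with at most `dim U - dim U'` elements, where `U'` is the part with
complex multiplication, and no `j ≠ i` is exceptional with respect to `V i`. -/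
structure Few {ι : Type} (V : ι → HS K) (E : HS K → Set ι) : Prop where
  finite : ∀ U, (E U).Finite
  card : ∀ U, (E U).ncard + U.cmDim ≤ U.dim
  self : ∀ i, E (V i) ⊆ {i}

end K

section types

variable {k : Type u} [Field k] {𝒱 : VarClass k} {ops : CycleOps 𝒱}

/-- Sets `t X p q` of classes on `X` with complex coefficients, for integers `p` and `q` (the classes
of type `(p, q)`). -/
def Types (W : WeilCohomology.{u, 0} ops) [Algebra W.K ℂ] : Type (u + 1) :=
  ∀ X : 𝒱.Obj, ℤ → ℤ → Set (Cx W.K (W.H X))

variable {W : WeilCohomology.{u, 0} ops} [Algebra W.K ℂ]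

/-- The sets are subspaces and the cohomology is their direct sum. -/
def Types.Dec (t : Types W) : Prop := ∀ X, TypesDec (t X)

/-- The classes of degree `i` are sums of classes of types `(p, q)` with `p + q = i`. -/
def Types.Deg (t : Types W) : Prop := ∀ X, TypesDeg (W.gr X) (t X)

/-- The types are additive for cup products. -/
def Types.Mul (t : Types W) : Prop := ∀ X, TypesMul (t X)

/-- The pull-backs respect the types. -/
def Types.Map (t : Types W) : Prop := ∀ (X Y : 𝒱.Obj) (f : X ⟶ Y), TypesMap (W.map f) (t Y) (t X)

/-- The class of the cycle `z`. -/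
def clsW (W : WeilCohomology.{u, 0} ops) {X : 𝒱.Obj} (z : X.Cycles) : W.H X := W.cl X z

/-- The classes of the algebraic cycles of codimension `j`. -/
def cycles (W : WeilCohomology.{u, 0} ops) (X : 𝒱.Obj) (j : ℕ) : Set (W.H X) :=
  {c | ∃ z, X.IsCyc j z ∧ clsW W z = c}

/-- The classes of the algebraic cycles of codimension `j` are of type `(j, j)`. -/
def Types.Cyc (t : Types W) : Prop := ∀ X j, Within (cycles W X j) (t X j j)

variable (W)

/-- The coefficients are the rational numbers. -/
def Rational : Prop := ∀ r : W.K, ∃ q : ℚ, (q : W.K) = r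

/-- Every variety has a zero-cycle of degree different from `0`. -/
def HasPoints : Prop := ∀ X : 𝒱.Obj, NonZeroOn (W.tr X) (cycles W X X.dim)

/-- The cohomology of the variety `X`. -/
def cohoOf (t : Types W) (h : t.Dec) (X : 𝒱.Obj) : HA W.K where
  A := W.H X
  gr := W.gr X
  pq := t X
  dec := h X
  cl := cycles W X

end types

/-- A Hodge theory: a Weil cohomology theory with rational coefficients and a Hodge decomposition
of its cohomology with complex coefficients, which is compatible with the degrees, products,
pull-backs and classes of algebraic cycles, such that every variety has a zero-cycle of degree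
different from `0`. (Main case: the singular cohomology of the smooth projective varieties over
the field of complex numbers.) -/
structure Theory {k : Type u} [Field k] {𝒱 : VarClass k} (ops : CycleOps 𝒱) where
  /-- the cohomology with rational coefficients -/
  W : WeilCohomology.{u, 0} ops
  [alg : Algebra W.K ℂ]
  /-- the types -/
  pq : Types W
  rat : Rational W
  dec : pq.Dec
  deg : pq.Deg
  mul : pq.Mul
  map : pq.Map
  cyc : pq.Cyc
  point : HasPoints W

attribute [instance] Theory.alg

variable {k : Type u} [Field k] {𝒱 : VarClass k} {ops : CycleOps 𝒱} (T : Theory ops)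

/-- The cohomology of the variety `X`. -/
def coho (X : 𝒱.Obj) : HA T.W.K := cohoOf T.W T.pq T.dec X

/-- The product `P_1 × (P_2 × (⋯ × Z))`, where `L` is the list of the pairs `(i_a, P_a)`. -/
def prd {ι : Type} (L : List (ι × 𝒱.Obj)) (Z : 𝒱.Obj) : 𝒱.Obj := L.foldr (fun x Y => x.2.prod Y) Z

/-- The Künneth formula for the Hodge classes on `P × Y`: they are linear combinations of products
of the pull-backs of Hodge classes on `P` and on `Y`. -/
def HodgeKun (P Y : 𝒱.Obj) : Prop :=
  IsKun (T.W.map (fst P Y)) (T.W.map (snd P Y)) (coho T P).hodge (coho T Y).hodge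
    (coho T (P.prod Y)).hodge

end

end Pool.Agent.U233.HG.St
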