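import Pool.Agent.U233.HG.Def2

/-!
# The Hodge structures of elliptic curves: definitions
-/

set_option autoImplicit false

open TensorProduct

namespace Pool.Agent.U233.HG.St

open Pool.Agent.N179.DB.S (Cx tens)

noncomputable section

variable (K : Type) [Field K] [Algebra K ℂ]

/-- The space `K ^ 2`. -/
def Two : Type := Fin 2 → K

instance Two.ac : AddCommGroup (Two K) := Pi.addCommGroup

instance Two.md : Module K (Two K) := Pi.module (Fin 2) (fun _ => K) K

/-- The vector `(a, b)`. -/
def Two.mk (a b : K) : Two K := ![a, b]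

/-- The vector `(1, z)` with complex coefficients. -/
def Two.vec (z : ℂ) : Cx K (Two K) := tens 1 (Two.mk K 1 0) + tens z (Two.mk K 0 1)

/-- The multiples of the vector `(1, z)`. -/
def Two.line (z : ℂ) : Set (Cx K (Two K)) := {x | ∃ c : ℂ, x = c • Two.vec K z}

/-- The vectors of type `(1, 0)` are the multiples of `(1, τ)`, and the vectors of type `(0, 1)` are
the multiples of `(1, τ̄)`. -/
def Two.pq (τ : UpperHalfPlane) (p q : ℤ) : Set (Cx K (Two K)) :=
  {x | (p = 1 ∧ q = 0 ∧ x ∈ Two.line K τ) ∨ (p = 0 ∧ q = 1 ∧ x ∈ Two.line K (star (τ : ℂ))) ∨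
    x = 0}

/-- The elliptic curve has no complex multiplication: `τ` satisfies no rational quadratic
equation. -/
def NoCM (τ : UpperHalfPlane) : Prop :=
  ∀ a b c : ℚ, (a : ℂ) * τ ^ 2 + b * τ + c = 0 → a = 0 ∧ b = 0 ∧ c = 0

/-- The elliptic curves are not isogenous: there is no nonzero rational matrix `(a b; c d)` with
`τ' (c τ + d) = a τ + b`. -/
def NonIsogenous (τ τ' : UpperHalfPlane) : Prop :=
  ∀ a b c d : ℚ, (τ' : ℂ) * (c * τ + d) = a * τ + b → a = 0 ∧ b = 0 ∧ c = 0 ∧ d = 0

end

end Pool.Agent.U233.HG.St
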