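import Pool.Agent.U233.HG.Conv2

/-!
# The theorem for elliptic curves: definitions
-/

set_option autoImplicit false

open CategoryTheory AlgebraicGeometry TensorProduct

universe u

namespace Pool.Agent.U233.HG.St

open Pool.Agent.H914

noncomputable section

/-- The Hodge structure `H^1` of the elliptic curve with the period `τ`: the space `K ^ 2`, with
`H^(1,0)` spanned by `(1, τ)` and `H^(0,1)` spanned by `(1, τ̄)`. -/
def ell (K : Type) [Field K] [Algebra K ℂ] (τ : UpperHalfPlane) : HS K where
  V := Two K
  fd := Two.fd K
  pq := Two.pq K τ
  dec := Two.dec K τ

/-- The theorem for the elliptic curves with the periods `τ i`: their first cohomology groups form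
an independent family, and for every variety `Z` there is a set of at most `(b - b') / 2`
exceptional indices, such that `Splits` holds for the products of `Z` with varieties generated by
one of the other curves. -/
structure Elliptic {k : Type u} [Field k] {𝒱 : VarClass k} {ops : CycleOps 𝒱} (T : Theory ops)
    {ι : Type} (τ : ι → UpperHalfPlane) : Prop where
  family : Family (fun i => ell T.W.K (τ i))
  split : ∀ Z : 𝒱.Obj, ∃ E : Set ι, (coho T Z).Bound E ∧
    Splits T (fun i X => X.Power (ell T.W.K (τ i))) E Z

end

end Pool.Agent.U233.HG.St
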