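import Pool.Agent.U233.HG.EllDefs
import Pool.Agent.N179.DB.Rk

/-!
# The Hodge structures of elliptic curves
-/

set_option autoImplicit false
set_option linter.unusedSectionVars false

open CategoryTheory AlgebraicGeometry TensorProduct

namespace Pool.Agent.U233.HG

open Module Pool.Agent.N179.DB Pool.Agent.N179.GR.S Pool.Agent.N179.DB.Rk
open Pool.Agent.N179.DB.S (Cx tens gal bc cx_ind tens_add tens_smul smul_tens exists_tens
  inF_tens bx_apply bc_tens bc_gal gal_add gal_tens)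

open Pool.Agent.U233.HG.St (NoCM NonIsogenous)

noncomputable section

variable {K : Type} [Field K] [Algebra K ℂ]

theorem rho_pq (M : HS K) (p : HP K) {r s : ℤ} {x : Cx K M.V} (hx : x ∈ M.pq r s) :
    rho M.b M.e M.t K (FreeGroup.of p) (gal p.τ p.fix x) =
      (mon p.z p.w (r, s) : ℂ) • gal p.τ p.fix x := by
  have h1 := ((M.mem r s x).1 hx).dg (b := M.b) p.τ p.z p.w
  rw [rho_of]
  have h2 : gal p.τ p.fix x = sl M.b p.τ x := M.gal_eq p.fix x
  rw [h2]
  exact h1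

theorem gal_smul' {V : Type} [AddCommGroup V] [Module K V] [FiniteDimensional K V] (σ : ℂ ≃+* ℂ)
    (h : ∀ r : K, σ (algebraMap K ℂ r) = algebraMap K ℂ r) (c : ℂ) (x : Cx K V) :
    gal σ h (c • x) = σ c • gal σ h x := by
  rw [S.gal_eq (finBasis K V) σ h, S.gal_eq (finBasis K V) σ h, sl_smul]

theorem gal_ellVec (σ : ℂ ≃+* ℂ) (h : ∀ r : K, σ (algebraMap K ℂ r) = algebraMap K ℂ r) (z : ℂ) :
    gal σ h (ellVec K z) = ellVec K (σ z) := by
  unfold ellVec
  rw [gal_add, gal_tens, gal_tens, map_one]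

theorem ellVec_smul {c d z w : ℂ} (h : c • ellVec K z = d • ellVec K w) :
    c = d ∧ c * z = d * w := by
  have h0 := congrArg (fun x => (stdB K).repr x 0) h
  have h1 := congrArg (fun x => (stdB K).repr x 1) h
  simp only [map_smul, Finsupp.smul_apply, (ellVec_repr _).1, (ellVec_repr _).2, smul_eq_mul,
    mul_one] at h0 h1
  exact ⟨h0, h1⟩

theorem ellVec_ne {c z : ℂ} (h : c • ellVec K z = 0) : c = 0 := by
  have h0 := congrArg (fun x => (stdB K).repr x 0) h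
  simpa [(ellVec_repr _).1] using h0

theorem mem_ellPQ {τ : UpperHalfPlane} {p q : ℤ} {x : Cx K (Fin 2 → K)} (h : x ∈ ellPQ K τ p q) :
    ∃ c z : ℂ, (z = τ ∨ z = star (τ : ℂ)) ∧ x = c • ellVec K z := by
  unfold ellPQ at h
  split_ifs at h
  · obtain ⟨c, rfl⟩ := Submodule.mem_span_singleton.1 h
    exact ⟨c, _, Or.inl rfl, rfl⟩
  · obtain ⟨c, rfl⟩ := Submodule.mem_span_singleton.1 h
    exact ⟨c, _, Or.inr rfl, rfl⟩
  · rw [Submodule.mem_bot] at h
    exact ⟨0, _, Or.inl rfl, by rw [h, zero_smul]⟩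

theorem smul_mem_ellPQ {τ : UpperHalfPlane} {p q : ℤ} {c z : ℂ}
    (h : c • ellVec K z ∈ ellPQ K τ p q) : c = 0 ∨ z = τ ∨ z = star (τ : ℂ) := by
  obtain ⟨d, w, hw, h1⟩ := mem_ellPQ h
  obtain ⟨h2, h3⟩ := ellVec_smul h1
  rcases eq_or_ne c 0 with h4 | h4
  · exact Or.inl h4
  · right
    rw [← h2] at h3
    rw [mul_left_cancel₀ h4 h3]
    exact hw

theorem mem10 (τ : UpperHalfPlane) : ellVec K (τ : ℂ) ∈ ellPQ K τ 1 0 := by
  unfold ellPQ
  rw [if_pos ⟨rfl, rfl⟩]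
  exact Submodule.mem_span_singleton_self _

theorem mem01 (τ : UpperHalfPlane) : ellVec K (star (τ : ℂ)) ∈ ellPQ K τ 0 1 := by
  unfold ellPQ
  rw [if_neg (by decide), if_pos ⟨rfl, rfl⟩]
  exact Submodule.mem_span_singleton_self _

section rat

variable (hK : ∀ r : K, ∃ q : ℚ, (q : K) = r)

include hK

theorem fixAll (σ : ℂ ≃+* ℂ) (r : K) : σ (algebraMap K ℂ r) = algebraMap K ℂ r := by
  obtain ⟨q, rfl⟩ := hK r
  rw [map_ratCast, map_ratCast]

theorem fixed_rat {z : ℂ} (h : ∀ σ : ℂ ≃+* ℂ, σ z = z) : ∃ q : ℚ, (q : ℂ) = z := by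
  have h1 : z ∈ KF K := by
    by_contra hz
    obtain ⟨σ, -, h2⟩ := Pool.Agent.TH119.MX.exists_move hz
    exact h2 (h σ)
  obtain ⟨r, hr⟩ := h1
  obtain ⟨q, rfl⟩ := hK r
  refine ⟨q, ?_⟩
  rw [← hr]
  exact (map_ratCast (algebraMap K ℂ) q).symm

theorem exists_move' {τ : UpperHalfPlane} (h : NoCM τ) :
    ∃ σ : ℂ ≃+* ℂ, σ τ ≠ τ ∧ σ τ ≠ star (τ : ℂ) := by
  by_contra hcon
  push Not at hcon
  have h1 : ∀ σ : ℂ ≃+* ℂ, σ τ = τ ∨ σ τ = star (τ : ℂ) := fun σ => by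
    by_cases h2 : σ τ = τ
    · exact Or.inl h2
    · exact Or.inr (hcon σ h2)
  have h2 : ∀ σ : ℂ ≃+* ℂ, σ (star (τ : ℂ)) = τ ∨ σ (star (τ : ℂ)) = star (τ : ℂ) := fun σ =>
    h1 (cc.trans σ)
  have h3 : ∀ σ : ℂ ≃+* ℂ, σ τ ≠ σ (star (τ : ℂ)) := fun σ hσ =>
    star_ne τ (σ.injective hσ).symm
  have h4 : ∀ σ : ℂ ≃+* ℂ, σ (τ + star (τ : ℂ)) = τ + star (τ : ℂ) ∧
      σ (τ * star (τ : ℂ)) = τ * star (τ : ℂ) := by
    intro σ
    rw [map_add, map_mul]
    rcases h1 σ with h5 | h5 <;> rcases h2 σ with h6 | h6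
    · exact absurd (h5.trans h6.symm) (h3 σ)
    · rw [h5, h6]; exact ⟨rfl, rfl⟩
    · rw [h5, h6]; exact ⟨add_comm _ _, mul_comm _ _⟩
    · exact absurd (h5.trans h6.symm) (h3 σ)
  obtain ⟨q, hq⟩ := fixed_rat hK fun σ => (h4 σ).1
  obtain ⟨q', hq'⟩ := fixed_rat hK fun σ => (h4 σ).2
  have h5 := h 1 (-q) q' (by
    push_cast
    rw [hq, hq']
    ring)
  exact one_ne_zero h5.1

/-- there are no pure vectors -/
theorem ell_pure {τ : UpperHalfPlane} (h : NoCM τ) {x : Cx K (Fin 2 → K)}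
    (hx : x ∈ pures (ell K τ)) : x = 0 := by
  obtain ⟨σ, hσ, hσ'⟩ := exists_move' hK h
  obtain ⟨p, q, h0⟩ := hx (RingEquiv.refl ℂ) (fun r => rfl)
  have h1 : gal (RingEquiv.refl ℂ) (fun r => rfl) x = x := by
    rw [S.gal_eq (Pi.basisFun K (Fin 2)), sl_refl]
  have h0' : x ∈ ellPQ K τ p q := by
    rw [← h1]
    exact h0
  obtain ⟨c, z, hz, rfl⟩ := mem_ellPQ h0'
  have key : ∃ σ' : ℂ ≃+* ℂ, σ' z = σ τ := by
    rcases hz with rfl | rfl
    · exact ⟨σ, rfl⟩
    · refine ⟨cc.trans σ, ?_⟩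
      change σ (star (star (τ : ℂ))) = _
      rw [star_star]
  obtain ⟨σ', hσz⟩ := key
  obtain ⟨p, q, h2⟩ := hx σ' (fixAll hK σ')
  have h3 : gal σ' (fixAll hK σ') (c • ellVec K z) = σ' c • ellVec K (σ τ) := by
    rw [gal_smul', gal_ellVec, hσz]
  have h4 : σ' c • ellVec K (σ τ) ∈ ellPQ K τ p q := by
    rw [← h3]
    exact h2
  rcases smul_mem_ellPQ h4 with h5 | h5 | h5
  · have h6 : c = 0 := σ'.injective (by rw [h5, map_zero])
    rw [h6, zero_smul]
  · exact absurd h5 hσ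
  · exact absurd h5 hσ'

theorem noSemi {τ : UpperHalfPlane} (h : NoCM τ) : NoSemi (rep (ell K τ)) := fun _ hx =>
  ell_pure hK h (semi_iff'.1 hx)

/-- the form -/
def ellForm (K : Type) [Field K] : (Fin 2 → K) →ₗ[K] (Fin 2 → K) →ₗ[K] K :=
  LinearMap.mk₂ K (fun u v => u 0 * v 1 - u 1 * v 0) (fun u u' v => by
    rw [Pi.add_apply, Pi.add_apply]; ring) (fun c u v => by
    rw [Pi.smul_apply, Pi.smul_apply, smul_eq_mul, smul_eq_mul, smul_eq_mul]; ring)
    (fun u v v' => by rw [Pi.add_apply, Pi.add_apply]; ring) (fun c u v => by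
    rw [Pi.smul_apply, Pi.smul_apply, smul_eq_mul, smul_eq_mul, smul_eq_mul]; ring)

omit hK in
theorem form_ellVec (a c : ℂ) : formC (ellForm K) (ellVec K a) (ellVec K c) = c - a := by
  unfold ellVec
  rw [map_add (formC (ellForm K) (tens 1 (Pi.single 0 1) + tens a (Pi.single 1 1))),
    map_add (formC (ellForm K)), LinearMap.add_apply, LinearMap.add_apply, formC_tens, formC_tens,
    formC_tens, formC_tens]
  simp [ellForm]
  ring

theorem pol_conj {τ : UpperHalfPlane} {p q : ℤ} {x : Cx K (Fin 2 → K)} (hx' : x ∈ ellPQ K τ p q) :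
    gal cc (fixAll hK cc) x ∈ ellPQ K τ q p := by
  unfold ellPQ at hx' ⊢
  split_ifs at hx' with h1 h2
  · obtain ⟨c, rfl⟩ := Submodule.mem_span_singleton.1 hx'
    rw [if_neg (by omega), if_pos ⟨h1.2, h1.1⟩, gal_smul', gal_ellVec]
    exact Submodule.smul_mem _ _ (Submodule.mem_span_singleton_self _)
  · obtain ⟨c, rfl⟩ := Submodule.mem_span_singleton.1 hx'
    rw [if_pos ⟨h2.2, h2.1⟩, gal_smul', gal_ellVec]
    have h3 : cc (star (τ : ℂ)) = τ := star_star _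
    rw [h3]
    exact Submodule.smul_mem _ _ (Submodule.mem_span_singleton_self _)
  · rw [Submodule.mem_bot] at hx'
    rw [hx']
    have h0 : gal cc (fixAll hK cc) (0 : Cx K (Fin 2 → K)) = 0 :=
      map_zero ((S.autLin cc (fixAll hK cc)).rTensor (Fin 2 → K))
    rw [h0]
    exact Submodule.zero_mem _

omit hK in
theorem pol_orth {τ : UpperHalfPlane} {p q r s : ℤ} {x y : Cx K (Fin 2 → K)}
    (hx' : x ∈ ellPQ K τ p q) (hy' : y ∈ ellPQ K τ r s) (hne : r ≠ q ∨ s ≠ p) :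
    formC (ellForm K) x y = 0 := by
  unfold ellPQ at hx' hy'
  split_ifs at hx' hy' with h1 h2 h3 h4 h5 h6
  · obtain ⟨c, rfl⟩ := Submodule.mem_span_singleton.1 hx'
    obtain ⟨d, rfl⟩ := Submodule.mem_span_singleton.1 hy'
    rw [map_smul (formC (ellForm K)), LinearMap.smul_apply, map_smul, form_ellVec, sub_self,
      smul_zero, smul_zero]
  · omega
  · rw [(Submodule.mem_bot ℂ).1 hy', map_zero]
  · omega
  · obtain ⟨c, rfl⟩ := Submodule.mem_span_singleton.1 hx'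
    obtain ⟨d, rfl⟩ := Submodule.mem_span_singleton.1 hy'
    rw [map_smul (formC (ellForm K)), LinearMap.smul_apply, map_smul, form_ellVec, sub_self,
      smul_zero, smul_zero]
  · rw [(Submodule.mem_bot ℂ).1 hy', map_zero]
  · rw [(Submodule.mem_bot ℂ).1 hx', map_zero, LinearMap.zero_apply]
  · rw [(Submodule.mem_bot ℂ).1 hx', map_zero, LinearMap.zero_apply]
  · rw [(Submodule.mem_bot ℂ).1 hx', map_zero, LinearMap.zero_apply]

theorem pol_pos {τ : UpperHalfPlane} {p q : ℤ} {x : Cx K (Fin 2 → K)} (hx' : x ∈ ellPQ K τ p q)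
    (hx0 : x ≠ 0) : ∃ r : ℝ, 0 < r ∧ Complex.I ^ (p - q) *
      formC (ellForm K) x (gal cc (fixAll hK cc) x) = r := by
  have him : 0 < (τ : ℂ).im := τ.im_pos
  have hst : star (τ : ℂ) - τ = -(2 * (τ : ℂ).im * Complex.I) := by
    apply Complex.ext
    · simp
    · have h2 : (star (τ : ℂ)).im = -(τ : ℂ).im := Complex.conj_im _
      rw [Complex.sub_im, h2]
      simp
      ring
  have key : ∀ c : ℂ, c ≠ 0 → 0 < Complex.normSq c := fun c hc => Complex.normSq_pos.2 hc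
  unfold ellPQ at hx'
  split_ifs at hx' with h1 h2
  · obtain ⟨c, rfl⟩ := Submodule.mem_span_singleton.1 hx'
    have hc : c ≠ 0 := fun h => hx0 (by rw [h]; exact zero_smul ℂ _)
    refine ⟨2 * (τ : ℂ).im * Complex.normSq c, by have := key c hc; positivity, ?_⟩
    rw [gal_smul', gal_ellVec, map_smul (formC (ellForm K)), LinearMap.smul_apply, map_smul,
      form_ellVec, h1.1, h1.2]
    have h3 : cc (τ : ℂ) = star (τ : ℂ) := rfl
    have h4 : c * cc c = Complex.normSq c := Complex.mul_conj c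
    rw [h3, hst, smul_eq_mul, smul_eq_mul, sub_zero, zpow_one]
    push_cast
    rw [← h4]
    linear_combination (-2 * c * cc c * (τ : ℂ).im) * Complex.I_mul_I
  · obtain ⟨c, rfl⟩ := Submodule.mem_span_singleton.1 hx'
    have hc : c ≠ 0 := fun h => hx0 (by rw [h]; exact zero_smul ℂ _)
    refine ⟨2 * (τ : ℂ).im * Complex.normSq c, by have := key c hc; positivity, ?_⟩
    rw [gal_smul', gal_ellVec, map_smul (formC (ellForm K)), LinearMap.smul_apply, map_smul,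
      form_ellVec, h2.1, h2.2]
    have h3 : cc (star (τ : ℂ)) = τ := star_star _
    have h4 : c * cc c = Complex.normSq c := Complex.mul_conj c
    have h5 : (τ : ℂ) - star (τ : ℂ) = 2 * (τ : ℂ).im * Complex.I := by
      rw [← neg_sub, hst, neg_neg]
    rw [h3, h5, smul_eq_mul, smul_eq_mul, zero_sub, zpow_neg, zpow_one, Complex.inv_I]
    push_cast
    rw [← h4]
    linear_combination (-2 * c * cc c * (τ : ℂ).im) * Complex.I_mul_I
  · exact absurd ((Submodule.mem_bot ℂ).1 hx') hx0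

theorem ell_pol (τ : UpperHalfPlane) : IsPol (ell K τ) (ellForm K) where
  real := fixAll hK cc
  conj := fun _ _ _ hx => pol_conj hK hx
  orth := fun _ _ _ _ _ hx _ hy hne => pol_orth hx hy hne
  pos := fun _ _ _ hx hx0 => pol_pos hK hx hx0

end rat

end

end Pool.Agent.U233.HG
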