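import Pool.Agent.U233.HG.SplitDefs
import Pool.Agent.U233.HG.Def3

/-!
# Elliptic curves and the varieties generated by their first cohomology: definitions
-/

set_option autoImplicit false

open CategoryTheory AlgebraicGeometry TensorProduct

universe u

namespace Pool.Agent.U233.HG

open Module Pool.Agent.Y133.Per Pool.Agent.N179.DB
open Pool.Agent.N179.DB.S (Cx tens GeneratesK)
open Pool.Agent.H914 Pool.Agent.H914.VarClass Pool.Agent.H914.VarClass.Obj
  Pool.Agent.H914.WeilCohomology
open Pool.Agent.U233.HG.St (Theory coho prd)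

noncomputable section

section ell

variable (K : Type) [Field K] [Algebra K ℂ]

/-- The vector `(1, z)`. -/
def ellVec (z : ℂ) : Cx K (Fin 2 → K) := tens 1 (Pi.single 0 1) + tens z (Pi.single 1 1)

/-- The vectors of type `(1, 0)` are the multiples of `(1, τ)`, and the vectors of type `(0, 1)` are
the multiples of `(1, τ̄)`. -/
def ellPQ (τ : UpperHalfPlane) (p q : ℤ) : Submodule ℂ (Cx K (Fin 2 → K)) :=
  if p = 1 ∧ q = 0 then Submodule.span ℂ {ellVec K τ}
  else if p = 0 ∧ q = 1 then Submodule.span ℂ {ellVec K (star (τ : ℂ))}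
  else ⊥

/-- the rational basis -/
def stdB : Basis (Fin 2) ℂ (Cx K (Fin 2 → K)) := S.bx (Pi.basisFun K (Fin 2))

variable {K}

theorem stdB_apply (i : Fin 2) : stdB K i = tens 1 (Pi.single i 1) := by
  rw [stdB, S.bx_apply, Pi.basisFun_apply]

theorem ellVec_eq (z : ℂ) : ellVec K z = stdB K 0 + z • stdB K 1 := by
  rw [ellVec, stdB_apply, stdB_apply, S.smul_tens, mul_one]

theorem ellVec_repr (z : ℂ) : (stdB K).repr (ellVec K z) 0 = 1 ∧
    (stdB K).repr (ellVec K z) 1 = z := by
  rw [ellVec_eq]
  constructor <;> simp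

theorem star_ne (τ : UpperHalfPlane) : star (τ : ℂ) ≠ τ := by
  intro h
  have h1 := congrArg Complex.im h
  have h2 : (star (τ : ℂ)).im = -(τ : ℂ).im := Complex.conj_im _
  have h3 : 0 < (τ : ℂ).im := τ.im_pos
  rw [h2] at h1
  linarith

theorem ell_indep (τ : UpperHalfPlane) :
    LinearIndependent ℂ ![ellVec K τ, ellVec K (star (τ : ℂ))] := by
  rw [LinearIndependent.pair_iff]
  intro s t h
  have h0 := congrArg (fun x => (stdB K).repr x 0) h
  have h1 := congrArg (fun x => (stdB K).repr x 1) h
  simp only [map_add, map_smul, Finsupp.add_apply, Finsupp.smul_apply, (ellVec_repr _).1,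
    (ellVec_repr _).2, map_zero, Finsupp.zero_apply, smul_eq_mul, mul_one] at h0 h1
  have h2 : t * (star (τ : ℂ) - τ) = 0 := by linear_combination h1 - (τ : ℂ) * h0
  rcases mul_eq_zero.1 h2 with h3 | h3
  · rw [h3, add_zero] at h0
    exact ⟨h0, h3⟩
  · exact absurd (sub_eq_zero.1 h3) (star_ne τ)

/-- the basis adapted to the types -/
def ellB (K : Type) [Field K] [Algebra K ℂ] (τ : UpperHalfPlane) :
    Basis (Fin 2) ℂ (Cx K (Fin 2 → K)) :=
  basisOfLinearIndependentOfCardEqFinrank (ell_indep τ) (by
    rw [finrank_eq_card_basis (stdB K)])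

theorem ellB_apply (τ : UpperHalfPlane) (i : Fin 2) :
    ellB K τ i = ![ellVec K τ, ellVec K (star (τ : ℂ))] i := by
  rw [ellB, coe_basisOfLinearIndependentOfCardEqFinrank]

/-- the types -/
def ellT : Fin 2 → ℤ × ℤ := ![(1, 0), (0, 1)]

theorem ell_typ (τ : UpperHalfPlane) (r : ℤ × ℤ) (x : Cx K (Fin 2 → K)) :
    x ∈ ellPQ K τ r.1 r.2 ↔ Typ (ellB K τ) ellT r x := by
  have h0 : ellB K τ 0 = ellVec K τ := ellB_apply τ 0
  have h1 : ellB K τ 1 = ellVec K (star (τ : ℂ)) := ellB_apply τ 1
  have hx : x = (ellB K τ).repr x 0 • ellVec K τ + (ellB K τ).repr x 1 • ellVec K (star (τ : ℂ)) := by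
    conv_lhs => rw [← (ellB K τ).sum_repr x]
    rw [Fin.sum_univ_two, h0, h1]
  unfold ellPQ
  split_ifs with h2 h3
  · have hr : r = (1, 0) := Prod.ext h2.1 h2.2
    rw [Submodule.mem_span_singleton]
    constructor
    · rintro ⟨c, rfl⟩ i hi
      have hi' : i = 1 := by
        fin_cases i
        · exact absurd hr.symm hi
        · rfl
      rw [← h0, map_smul, Basis.repr_self, hi']
      simp
    · intro h
      have h4 := h 1 (by rw [hr]; decide)
      rw [h4, zero_smul, add_zero] at hx
      exact ⟨_, hx.symm⟩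
  · have hr : r = (0, 1) := Prod.ext h3.1 h3.2
    rw [Submodule.mem_span_singleton]
    constructor
    · rintro ⟨c, rfl⟩ i hi
      have hi' : i = 0 := by
        fin_cases i
        · rfl
        · exact absurd hr.symm hi
      rw [← h1, map_smul, Basis.repr_self, hi']
      simp
    · intro h
      have h4 := h 0 (by rw [hr]; decide)
      rw [h4, zero_smul, zero_add] at hx
      exact ⟨_, hx.symm⟩
  · rw [Submodule.mem_bot]
    constructor
    · rintro rfl
      exact Typ.zero
    · intro h
      have h4 := h 0 (fun h => h2 ⟨congrArg Prod.fst h.symm, congrArg Prod.snd h.symm⟩)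
      have h5 := h 1 (fun h => h3 ⟨congrArg Prod.fst h.symm, congrArg Prod.snd h.symm⟩)
      rw [h4, h5, zero_smul, zero_smul, add_zero] at hx
      exact hx

variable (K)

/-- The Hodge structure `H^1` of the elliptic curve with the period `τ`: the space `K ^ 2`, with
`H^(1,0)` spanned by `(1, τ)` and `H^(0,1)` spanned by `(1, τ̄)`. -/
def ell (τ : UpperHalfPlane) : HS K where
  V := Fin 2 → K
  pq := ellPQ K τ
  dec := isDec_typ (ellB K τ) ellT (ell_typ τ)

end ell

variable {k : Type u} [Field k] {𝒱 : VarClass k} {ops : CycleOps 𝒱} (T : Theory ops)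

/-- The images of the homomorphisms of Hodge structures from `V` to the cohomology of degree `1`. -/
def degOne (V : HS T.W.K) (P : 𝒱.Obj) : Set (T.W.H P) :=
  {x | ∃ (f : V.V →ₗ[T.W.K] T.W.H P) (v : V.V), (∀ w, f w ∈ T.W.gr P 1) ∧
    IsHom (M := V) (N := coh T P) f ∧ x = f v}

/-- The cohomology algebra of `P` is generated by the Hodge classes and by the images of the
homomorphisms of Hodge structures from `V` to the cohomology of degree `1`. (For instance, if `V` is
the first cohomology of an elliptic curve: the powers of this curve.) -/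
def PowerType (V : HS T.W.K) (P : 𝒱.Obj) : Prop := GeneratesK T.W.K (hodgeCl T P ∪ degOne T V P)

end

end Pool.Agent.U233.HG
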