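import Pool.Agent.U233.HG.Coh
import Pool.Agent.U233.HG.Pol
import Pool.Agent.Y133.Half.PerDefs

/-!
# Independent families of Hodge structures and the splitting of the Hodge conjecture: internal forms
-/

set_option autoImplicit false

open CategoryTheory AlgebraicGeometry TensorProduct

universe u

namespace Pool.Agent.U233.HG

open Module Pool.Agent.Y133.Per
open Pool.Agent.N179.DB.S (Cx tens)
open Pool.Agent.H914 Pool.Agent.H914.VarClass Pool.Agent.H914.VarClass.Obj
  Pool.Agent.H914.WeilCohomology
open Pool.Agent.U233.HG.St (Theory coho prd)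

noncomputable section

section HS

variable {K : Type} [Field K] [Algebra K ℂ]

/-- The Hodge structures are polarisable and pairwise independent. -/
structure Family {ι : Type} (V : ι → HS K) : Prop where
  polarisable : ∀ i, Polarisable (V i)
  independent : ∀ i j, i ≠ j → Independent (V i) (V j)

/-- The dimension. -/
def HS.dim (M : HS K) : ℕ := finrank K M.V

/-- The dimension of the part with complex multiplication. -/
def HS.cmDim (M : HS K) : ℕ := Set.finrank ℂ (pures M)

end HS

variable {k : Type u} [Field k] {𝒱 : VarClass k} {ops : CycleOps 𝒱} (T : Theory ops)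

/-- The classes on `X` with complex coefficients all of whose conjugates are of pure types. -/
def pureCl (X : 𝒱.Obj) : Set (Base T.W.K (T.W.H X)) := pures (coh T X)

/-- The images of the homomorphisms of Hodge structures from the `U a` to the cohomology. -/
def imgCl {κ : Type} (U : κ → HS T.W.K) (X : 𝒱.Obj) : Set (Base T.W.K (T.W.H X)) :=
  {x | ∃ (a : κ) (f : (U a).V →ₗ[T.W.K] T.W.H X) (v : (U a).V),
    IsHom (M := U a) (N := coh T X) f ∧ x = tm 1 (f v)}

/-- The cohomology algebra of `X` with complex coefficients is generated by the images of the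
homomorphisms from the `U a` and by the part with complex multiplication. -/
def GeneratedBy {κ : Type} (U : κ → HS T.W.K) (X : 𝒱.Obj) : Prop :=
  Algebra.adjoin ℂ (pureCl T X ∪ imgCl T U X) = ⊤

/-- The Hodge classes on `X`, of all degrees. -/
def hodgeCl (X : 𝒱.Obj) : Set (T.W.H X) := {c | ∃ j, IsHodge T X j c}

/-- The cohomology of `P` is polarisable and generated by `V`, and the part with complex
multiplication is spanned by the Hodge classes. -/
structure OfType (V : HS T.W.K) (P : 𝒱.Obj) : Prop where
  gen : GeneratedBy T (fun _ : Unit => V) P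
  polarisable : Polarisable (coh T P)
  hodge : ∀ x ∈ pureCl T P, x ∈ Submodule.span ℂ {x : Base T.W.K (T.W.H P) |
    ∃ c ∈ hodgeCl T P, x = tm 1 c}

/-- The list `L` of the pairs `(i_a, P_a)`: the indices are pairwise different and not in `E`, and
`Q i_a P_a` holds. -/
def Good {ι : Type} (Q : ι → 𝒱.Obj → Prop) (E : Set ι) (L : List (ι × 𝒱.Obj)) : Prop :=
  (L.map Prod.fst).Nodup ∧ ∀ x ∈ L, x.1 ∉ E ∧ Q x.1 x.2

/-- The Künneth formula for the Hodge classes on `P × Y`: they are linear combinations of products
of the pull-backs of Hodge classes on `P` and on `Y`. -/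
def HodgeKunneth (P Y : 𝒱.Obj) : Prop :=
  ∀ z ∈ hodgeCl T (P.prod Y), z ∈ Submodule.span T.W.K
    {x | ∃ a ∈ hodgeCl T P, ∃ b ∈ hodgeCl T Y,
      x = T.W.map (fst P Y) a * T.W.map (snd P Y) b}

/-- Let `P_a` be varieties with the property `Q i_a` and with nonzero cohomology, where the indices
`i_a` are pairwise different and not in `E`. The Hodge classes on `P_1 × (P_2 × (⋯ × Z))` are the
linear combinations of the products of the pull-backs of Hodge classes on `P_1` and on
`P_2 × (⋯ × Z)`; and the Hodge conjecture holds for the product if and only if it holds for `Z` and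
for all `P_a`. -/
structure Splits {ι : Type} (Q : ι → 𝒱.Obj → Prop) (E : Set ι) (Z : 𝒱.Obj) : Prop where
  kunneth : ∀ (i : ι) (P : 𝒱.Obj) (L : List (ι × 𝒱.Obj)), Good Q E ((i, P) :: L) →
    HodgeKunneth T P (prd L Z)
  conjecture : ∀ L : List (ι × 𝒱.Obj), Good Q E L →
    (HodgeConjecture T (prd L Z) ↔ HodgeConjecture T Z ∧ ∀ x ∈ L, HodgeConjecture T x.2)

end

end Pool.Agent.U233.HG
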