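import Pool.Agent.U233.HG.Main
import Pool.Agent.U233.HG.SplitDefs

/-!
# The theorem for Hodge classes: the assembly
-/

set_option autoImplicit false
set_option linter.unusedSectionVars false

open CategoryTheory AlgebraicGeometry TensorProduct

universe u

namespace Pool.Agent.U233.HG

open Module Pool.Agent.N179 Pool.Agent.N179.DB Pool.Agent.N179.GR.S
open Pool.Agent.N179.DB.S (Cx tens gal bc cx_ind tens_add tens_smul smul_tens exists_tens
  inF_tens bx_apply bc_tens bc_gal gal_add gal_tens galB gal_mul gr' gr'_eq gal_gr' mem_of_base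
  span_alg algS algT base_mul)
open Pool.Agent.H914 Pool.Agent.H914.VarClass Pool.Agent.H914.VarClass.Obj
  Pool.Agent.H914.WeilCohomology Pool.Agent.TH125.Gal
open Pool.Agent.U233.HG.St (Theory coho prd)
open Pool.Agent.Y133.Per (Base baseMap baseTr tm base_ind baseTr_tm)

variable {k : Type u} [Field k] {𝒱 : VarClass k} {ops : CycleOps 𝒱} (T : Theory ops)

noncomputable section

theorem mem_pureCl {X : 𝒱.Obj} {x : Base T.W.K (T.W.H X)} :
    x ∈ pureCl T X ↔ (show (baseW T.W ℂ).H X from x) ∈ semis (var T X).act :=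
  (semi_iff' (M := coh T X)).symm

theorem images_of_img {κ : Type} (U : κ → HS T.W.K) {X : 𝒱.Obj} {x : Base T.W.K (T.W.H X)}
    (h : x ∈ imgCl T U X) : (show (baseW T.W ℂ).H X from x) ∈ images (K := (baseW T.W ℂ).K)
      (fun a => (rep (U a) : GRep (baseW T.W ℂ).K (HGp T.W.K))) (var T X).act := by
  obtain ⟨a, f, v, hf, rfl⟩ := h
  have key : ∀ g x, (show Cx T.W.K (T.W.H X) from bc f (rho (U a).b (U a).e (U a).t T.W.K g x)) =
      rr T X g (show Cx T.W.K (T.W.H X) from bc f x) :=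
    fun g x => rho_lin (M := U a) (N := coh T X) f hf g x
  refine ⟨a, (show Cx T.W.K (U a).V →ₗ[ℂ] Cx T.W.K (T.W.H X) from bc f), tens 1 v,
    ⟨⊤, inferInstance, fun g _ y => key g y⟩, ?_⟩
  exact (bc_tens f 1 v).symm

theorem gen_var {κ : Type} {U : κ → HS T.W.K} {X : 𝒱.Obj} (h : GeneratedBy T U X) :
    GR.S.GeneratedBy (W := baseW T.W ℂ)
      (fun a => (rep (U a) : GRep (baseW T.W ℂ).K (HGp T.W.K))) (var T X) := by
  have h1 : Algebra.adjoin (baseW T.W ℂ).K (semis (var T X).act ∪ images (K := (baseW T.W ℂ).K)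
      (fun a => (rep (U a) : GRep (baseW T.W ℂ).K (HGp T.W.K))) (var T X).act) = ⊤ := by
    rw [eq_top_iff]
    have h2 : (⊤ : Subalgebra (baseW T.W ℂ).K ((baseW T.W ℂ).H X)) =
      Algebra.adjoin (baseW T.W ℂ).K (show Set ((baseW T.W ℂ).H X) from
        (pureCl T X ∪ imgCl T U X : Set (Base T.W.K (T.W.H X)))) := h.symm
    refine le_trans (le_of_eq h2) (Algebra.adjoin_mono ?_)
    rintro x (hx | hx)
    · exact Or.inl ((mem_pureCl T).1 hx)
    · exact Or.inr (images_of_img T U hx)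
  exact h1

theorem ss_var {X : 𝒱.Obj} (h : Polarisable (coh T X)) : Semisimple (GR.S.coh (var T X)) :=
  h.semisimple

theorem type_var {V : HS T.W.K} {P : 𝒱.Obj} (h : OfType T V P) :
    GR.S.OfType (W := baseW T.W ℂ) (rep V : GRep (baseW T.W ℂ).K (HGp T.W.K)) (var T P) :=
  ⟨gen_var T h.gen, ss_var T h.polarisable⟩

theorem prodAct (P Y : 𝒱.Obj) :
    ProdAct (var T P) (var T Y) (show Acts (var T P) (var T Y) from (var T (P.prod Y)).act) :=
  ⟨intertwines T (fst P Y), intertwines T (snd P Y)⟩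

/-- the list of the varieties with an action -/
def lst {ι : Type} (L : List (ι × 𝒱.Obj)) : List (ι × GVar (baseW T.W ℂ) (HGp T.W.K)) :=
  L.map fun x => (x.1, var T x.2)

theorem tower {ι : Type} (V : ι → HS T.W.K) (Z : 𝒱.Obj) : ∀ (L : List (ι × 𝒱.Obj)),
    (L.map Prod.fst).Nodup → (∀ x ∈ L, OfType T (V x.1) x.2) →
    Tower (W := baseW T.W ℂ) (fun i => (rep (V i) : GRep (baseW T.W ℂ).K (HGp T.W.K))) (var T Z)
      (lst T L) (var T (prd L Z))
  | [], _, _ => Tower.base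
  | (i, P) :: L, h1, h2 => by
    rw [List.map_cons, List.nodup_cons] at h1
    refine Tower.step i (var T P) _ (tower V Z L h1.2 fun x hx => h2 x (List.mem_cons_of_mem _ hx))
      ?_ (type_var T (h2 (i, P) List.mem_cons_self)) (prodAct T P (prd L Z))
    intro x hx hxi
    obtain ⟨y, hy, rfl⟩ := List.mem_map.1 hx
    exact h1.1 (List.mem_map.2 ⟨y, hy, hxi⟩)

theorem twisted_of {V : HS T.W.K} {P : 𝒱.Obj} (h : OfType T V P) :
    GR.S.Twisted (W := baseW T.W ℂ) (ch T) (var T P) := by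
  intro z hz
  have h1 := h.hodge z ((mem_pureCl T).2 hz)
  refine (Submodule.span_mono ?_) h1
  rintro _ ⟨c, ⟨j, hc⟩, rfl⟩
  refine ⟨j, ?_, ⊤, inferInstance, fun g _ => hodge_tw T hc g⟩
  exact Submodule.tmul_mem_baseChange_of_mem (1 : ℂ) hc.1

/-- twisted classes are combinations of Hodge classes -/
theorem tw_mem {X : 𝒱.Obj} {z : (baseW T.W ℂ).H X}
    (hz : z ∈ GR.TwSet (W := baseW T.W ℂ) (ch T) X (var T X).act) :
    (show Base T.W.K (T.W.H X) from z) ∈ Submodule.span ℂ {x : Base T.W.K (T.W.H X) |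
      ∃ c ∈ hodgeCl T X, x = tm 1 c} := by
  obtain ⟨j, hz, Δ, hΔ, hfix⟩ := hz
  refine (Submodule.span_mono ?_) (tw_hodge T (z := z) hz hΔ hfix)
  rintro _ ⟨c, hc, rfl⟩
  exact ⟨c, ⟨j, hc⟩, rfl⟩

/-- **The Künneth formula for Hodge classes.** -/
theorem kunneth_of {P Y : 𝒱.Obj} (hT : GR.S.Twisted (W := baseW T.W ℂ) (ch T) (var T P))
    (hK : KunnethSemi (W := baseW T.W ℂ) (var T P) (var T Y)
      (show Acts (var T P) (var T Y) from (var T (P.prod Y)).act)) : HodgeKunneth T P Y := by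
  rintro c ⟨j, hc⟩
  have h2 := hK (tm 1 c : Base T.W.K (T.W.H (P.prod Y)))
    ⟨⊤, inferInstance, fun g _ => ⟨_, hodge_tw T hc g⟩⟩
  have hgr : (tm 1 c : Base T.W.K (T.W.H (P.prod Y))) ∈ gr' T.W (P.prod Y) (2 * j) := by
    rw [gr'_eq]
    exact Submodule.subset_span ⟨c, hc.1, rfl⟩
  have h3 := GR.tw_step (W := baseW T.W ℂ) (χ := ch T) (P := P) (Y := Y) (j := j)
    (z := (tm 1 c : Base T.W.K (T.W.H (P.prod Y)))) (intertwines T (fst P Y))
    (intertwines T (snd P Y)) hgr (Δ := ⊤) inferInstance (fun g _ => hodge_tw T hc g) (by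
      intro ψ
      have h4 : Submodule.span (baseW T.W ℂ).K {x : (baseW T.W ℂ).H (P.prod Y) |
          ∃ a ∈ semis (var T P).act, ∃ b ∈ semis (var T Y).act,
          x = (baseW T.W ℂ).map (fst P Y) a * (baseW T.W ℂ).map (snd P Y) b} ≤
          (Submodule.span (baseW T.W ℂ).K (GR.TwSet (W := baseW T.W ℂ) (ch T) P
            (var T P).act)).comap (GR.ctr2 ψ) := by
        refine Submodule.span_le.2 ?_
        rintro _ ⟨a, ha, b, hb, rfl⟩
        rw [SetLike.mem_coe, Submodule.mem_comap, GR.ctr2_apply]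
        exact Submodule.smul_mem _ _ (hT a ha)
      exact h4 h2)
  refine mem_of_base _ ?_
  have h5 : Submodule.span (baseW T.W ℂ).K {x : (baseW T.W ℂ).H (P.prod Y) |
      ∃ a ∈ GR.TwSet (W := baseW T.W ℂ) (ch T) P (var T P).act,
      ∃ b ∈ GR.TwSet (W := baseW T.W ℂ) (ch T) Y (var T Y).act,
      x = (baseW T.W ℂ).map (fst P Y) a * (baseW T.W ℂ).map (snd P Y) b} ≤
    Submodule.span ℂ {x : Base T.W.K (T.W.H (P.prod Y)) | ∃ s ∈ Submodule.span T.W.K
      {x | ∃ a ∈ hodgeCl T P, ∃ b ∈ hodgeCl T Y,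
        x = T.W.map (fst P Y) a * T.W.map (snd P Y) b}, x = tm 1 s} := by
    refine Submodule.span_le.2 ?_
    rintro _ ⟨a, ha, b, hb, rfl⟩
    exact base_mul (T.W.map (fst P Y)) (T.W.map (snd P Y)) _ _ (tw_mem T ha) (tw_mem T hb)
  exact h5 h3

theorem dim_coh (M : HS T.W.K) : dim (rep M) = M.dim := Module.finrank_baseChange

theorem cmDim_eq (M : HS T.W.K) : (semiSpan (rep M)).dim = M.cmDim := by
  have h1 : {x : (rep M).V | SemiInv x} = (pures M : Set (Cx T.W.K M.V)) :=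
    Set.ext fun x => semi_iff'
  unfold HS.cmDim semiSpan
  rw [h1]
  rfl

/-- the factors, for the representations -/
def TypeG (V : HS T.W.K) (P : 𝒱.Obj) : Prop :=
  GR.S.OfType (W := baseW T.W ℂ) (rep V : GRep (baseW T.W ℂ).K (HGp T.W.K)) (var T P) ∧
    GR.S.Twisted (W := baseW T.W ℂ) (ch T) (var T P)

/-- the theorem for the factors of this kind -/
structure SplitG {ι : Type} (V : ι → HS T.W.K) (E : HS T.W.K → Set ι) : Prop where
  finite : ∀ U, (E U).Finite
  card : ∀ U, (E U).ncard + U.cmDim ≤ U.dim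
  self : ∀ i, E (V i) ⊆ {i}
  variety : ∀ Z : 𝒱.Obj, 2 * (E (coh T Z)).ncard + (coh T Z).cmDim ≤ (coh T Z).dim
  splits : ∀ (m : ℕ) (U : Fin m → HS T.W.K) (Z : 𝒱.Obj), GeneratedBy T U Z →
    Splits T (fun i P => TypeG T (V i) P) (⋃ a, E (U a)) Z

theorem good_mono {ι : Type} {Q Q' : ι → 𝒱.Obj → Prop} {E E' : Set ι}
    (hE : ∀ i, i ∉ E → i ∉ E') (hQ : ∀ i X, Q i X → Q' i X)
    {L : List (ι × 𝒱.Obj)} (h : Good Q E L) : Good Q' E' L :=
  ⟨h.1, fun x hx => ⟨hE _ (h.2 x hx).1, hQ _ _ (h.2 x hx).2⟩⟩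

theorem splits_mono {ι : Type} {Q Q' : ι → 𝒱.Obj → Prop} {E E' : Set ι}
    {Z : 𝒱.Obj} (h : Splits T Q' E' Z) (hE : ∀ i, i ∉ E → i ∉ E')
    (hQ : ∀ i X, Q i X → Q' i X) : Splits T Q E Z where
  kunneth i P L hL := h.kunneth i P L (good_mono hE hQ hL)
  conjecture L hL := h.conjecture L (good_mono hE hQ hL)

theorem towerG {ι : Type} (V : ι → HS T.W.K) (Z : 𝒱.Obj) : ∀ (L : List (ι × 𝒱.Obj)),
    (L.map Prod.fst).Nodup → (∀ x ∈ L, TypeG T (V x.1) x.2) →
    Tower (W := baseW T.W ℂ) (fun i => (rep (V i) : GRep (baseW T.W ℂ).K (HGp T.W.K))) (var T Z)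
      (lst T L) (var T (prd L Z))
  | [], _, _ => Tower.base
  | (i, P) :: L, h1, h2 => by
    rw [List.map_cons, List.nodup_cons] at h1
    refine Tower.step i (var T P) _ (towerG V Z L h1.2 fun x hx => h2 x (List.mem_cons_of_mem _ hx))
      ?_ (h2 (i, P) List.mem_cons_self).1 (prodAct T P (prd L Z))
    intro x hx hxi
    obtain ⟨y, hy, rfl⟩ := List.mem_map.1 hx
    exact h1.1 (List.mem_map.2 ⟨y, hy, hxi⟩)

/-- **The theorem.** -/
theorem splitG {ι : Type} {V : ι → HS T.W.K} (hF : GR.S.Family (fun i => rep (V i))) :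
    ∃ E : HS T.W.K → Set ι, SplitG T V E := by
  obtain ⟨E, hE⟩ := GR.S.final (W := baseW T.W ℂ) ⟨RingEquiv.refl ℂ⟩ (ch T)
    (V := fun i => (rep (V i) : GRep (baseW T.W ℂ).K (HGp T.W.K))) hF
  refine ⟨fun U => E (rep U), fun U => (hE.exceptional (rep U)).finite, fun U => ?_,
    fun i => hE.self i, fun Z => ?_, fun m U Z hZ => ⟨fun i P L hL => ?_, fun L hL => ?_⟩⟩
  · have h1 := (hE.exceptional (rep U)).card
    have h2 := cmDim_eq T U
    have h3 := dim_coh T U
    change (E (rep U)).ncard + (semiSpan (rep U)).dim ≤ dim (rep U) at h1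
    rwa [h2, h3] at h1
  · have h1 := hE.variety (var T Z) (traceInv T Z)
    rw [coh_var T Z] at h1
    have h2 := cmDim_eq T (coh T Z)
    have h3 := dim_coh T (coh T Z)
    change 2 * (E (rep (coh T Z))).ncard + (semiSpan (rep (coh T Z))).dim ≤ dim (rep (coh T Z)) at h1
    rwa [h2, h3] at h1
  · obtain ⟨h1, h2⟩ := hL
    have h3 := h1
    rw [List.map_cons, List.nodup_cons] at h3
    have hT := towerG T V Z L h3.2 fun x hx => (h2 x (List.mem_cons_of_mem _ hx)).2
    have hP := (h2 (i, P) List.mem_cons_self).2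
    refine kunneth_of T hP.2 ?_
    refine (hE.outside m (fun a => rep (U a)) (var T Z) (gen_var T hZ)).semi (lst T L) _ hT ?_ i
      (var T P) _ (h2 (i, P) List.mem_cons_self).1 ?_ hP.1 (prodAct T P (prd L Z))
    · intro x hx
      obtain ⟨y, hy, rfl⟩ := List.mem_map.1 hx
      exact (h2 y (List.mem_cons_of_mem _ hy)).1
    · intro x hx hxi
      obtain ⟨y, hy, rfl⟩ := List.mem_map.1 hx
      exact h3.1 (List.mem_map.2 ⟨y, hy, hxi⟩)
  · have hT' := towerG T V Z L hL.1 fun x hx => (hL.2 x hx).2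
    have h1 := (hE.outside m (fun a => rep (U a)) (var T Z) (gen_var T hZ)).tate (lst T L) _ hT'
      (by
        intro x hx
        obtain ⟨y, hy, rfl⟩ := List.mem_map.1 hx
        exact ⟨(hL.2 y hy).1, (hL.2 y hy).2.2, point_of T _⟩)
      (point_of T Z)
    rw [tate_iff, tate_iff] at h1
    rw [h1]
    refine and_congr Iff.rfl ⟨fun h x hx => ?_, fun h x hx => ?_⟩
    · rw [← tate_iff]
      exact h (x.1, var T x.2) (List.mem_map.2 ⟨x, hx, rfl⟩)
    · obtain ⟨y, hy, rfl⟩ := List.mem_map.1 hx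
      rw [tate_iff]
      exact h y hy

theorem type_of {V : HS T.W.K} {P : 𝒱.Obj} (h : OfType T V P) : TypeG T V P :=
  ⟨type_var T h, twisted_of T h⟩

theorem family_rep {ι : Type} {V : ι → HS T.W.K} (hV : Family V) :
    GR.S.Family (fun i => rep (V i)) :=
  ⟨fun i => (hV.polarisable i).semisimple_endo,
    fun i j hij => independent_rep (hV.independent i j hij)⟩

/-- a variety is generated by its own cohomology -/
theorem gen_self (Z : 𝒱.Obj) : GeneratedBy T (fun _ : Fin 1 => coh T Z) Z := by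
  unfold GeneratedBy
  rw [eq_top_iff]
  intro x _
  refine cx_ind (K := T.W.K) (V := T.W.H Z) (p := fun x => (show Base T.W.K (T.W.H Z) from x) ∈
    Algebra.adjoin ℂ (pureCl T Z ∪ imgCl T (fun _ : Fin 1 => coh T Z) Z)) ?_ ?_ ?_ x
  · exact zero_mem _
  · intro r c
    have h1 : (tens r c : Cx T.W.K (T.W.H Z)) = r • tens 1 c := by rw [smul_tens, mul_one]
    rw [h1]
    have h0 : (tm 1 c : Base T.W.K (T.W.H Z)) ∈
        Algebra.adjoin ℂ (pureCl T Z ∪ imgCl T (fun _ : Fin 1 => coh T Z) Z) := by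
      refine Algebra.subset_adjoin (Or.inr ⟨0, LinearMap.id, c, fun p q x hx => ?_, rfl⟩)
      have h2 : bc (K := T.W.K) (LinearMap.id : T.W.H Z →ₗ[T.W.K] T.W.H Z) = LinearMap.id :=
        LinearMap.baseChange_id
      have h3 : (bc (K := T.W.K) (LinearMap.id : T.W.H Z →ₗ[T.W.K] T.W.H Z) x :
        Cx T.W.K (T.W.H Z)) = x := by rw [h2]; rfl
      have h4 : (bc (K := T.W.K) (LinearMap.id : T.W.H Z →ₗ[T.W.K] T.W.H Z) x :
        Cx T.W.K (T.W.H Z)) ∈ pqC T Z p q := by rw [h3]; exact hx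
      exact h4
    exact Subalgebra.smul_mem _ h0 r
  · intro a b ha hb
    exact add_mem ha hb

end

end Pool.Agent.U233.HG
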