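import Pool.Agent.U233.HG.Op

/-!
# Spaces of homomorphisms
-/

set_option autoImplicit false
set_option linter.unusedSectionVars false

namespace Pool.Agent.U233.HG

open Module Pool.Agent.N179.DB

noncomputable section

section sum

variable {V : Type*} [AddCommGroup V] [Module ℂ V] {κ : Type*} [Fintype κ] {e : Basis κ ℂ V}
  {t : κ → ℤ × ℤ}

theorem typ_sum {r : ℤ × ℤ} {α : Type*} {s : Finset α} {v : α → V}
    (h : ∀ i ∈ s, Typ e t r (v i)) : Typ e t r (∑ i ∈ s, v i) := by
  classical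
  induction s using Finset.induction_on with
  | empty => rw [Finset.sum_empty]; exact Typ.zero
  | insert a s ha ih =>
    rw [Finset.sum_insert ha]
    exact (h a (Finset.mem_insert_self a s)).add
      (ih fun i hi => h i (Finset.mem_insert_of_mem hi))

/-- A vector of type `r` is a combination of the basis vectors of type `r`. -/
theorem Typ.expand {r : ℤ × ℤ} {x : V} (h : Typ e t r x) :
    x = ∑ k ∈ Finset.univ.filter (fun k => t k = r), e.repr x k • e k := by
  classical
  conv_lhs => rw [← e.sum_repr x]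
  rw [Finset.sum_filter]
  refine Finset.sum_congr rfl fun k _ => ?_
  split
  · rfl
  · next hk => rw [h k hk, zero_smul]

end sum

section hom

variable {V V' : Type*} [AddCommGroup V] [Module ℂ V] [AddCommGroup V'] [Module ℂ V']
  {ι κ ι' κ' : Type*} [Fintype ι] [Fintype κ] [Fintype ι'] [Fintype κ'] [DecidableEq ι]
  [DecidableEq κ] (b : Basis ι ℂ V) (e : Basis κ ℂ V) (b' : Basis ι' ℂ V') (e' : Basis κ' ℂ V')
  (t : κ → ℤ × ℤ) (t' : κ' → ℤ × ℤ)

/-- the types of the elementary homomorphisms -/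
def th (t : κ → ℤ × ℤ) (t' : κ' → ℤ × ℤ) (p : κ' × κ) : ℤ × ℤ := t' p.1 - t p.2

theorem typ_hom_iff {r : ℤ × ℤ} {f : V →ₗ[ℂ] V'} :
    Typ (e.linearMap e') (th t t') r f ↔ ∀ k, Typ e' t' (r + t k) (f (e k)) := by
  constructor
  · intro h k i hi
    rw [← hb_repr]
    refine h (i, k) fun h1 => hi ?_
    rw [← h1, th]
    exact (sub_add_cancel _ _).symm
  · rintro h ⟨i, k⟩ hik
    rw [hb_repr]
    refine h k i fun h1 => hik ?_
    rw [th]
    exact sub_eq_of_eq_add h1

variable {e e' t t'}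

theorem typ_hom {r s : ℤ × ℤ} {f : V →ₗ[ℂ] V'} (hf : Typ (e.linearMap e') (th t t') r f) {x : V}
    (hx : Typ e t s x) : Typ e' t' (r + s) (f x) := by
  rw [hx.expand, map_sum]
  refine typ_sum fun k hk => ?_
  rw [map_smul]
  have h1 := (typ_hom_iff e e' t t').1 hf k
  rw [(Finset.mem_filter.1 hk).2] at h1
  exact h1.smul _

variable (e e' t t')

theorem Dg_hom (τ : ℂ ≃+* ℂ) (z w : ℂˣ) (f : V →ₗ[ℂ] V') (x : V) :
    Dg (b.linearMap b') (e.linearMap e') (th t t') τ z w f (Dg b e t τ z w x) =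
      Dg b' e' t' τ z w (f x) := by
  let T : (V →ₗ[ℂ] V') →ₗ[ℂ] (V →ₗ[ℂ] V') :=
    (LinearMap.compRight ℂ (Dg b' e' t' τ z w : V' →ₗ[ℂ] V')).comp
      (LinearMap.lcomp ℂ V' ((Dg b e t τ z w).symm : V →ₗ[ℂ] V))
  have hT : (Dg (b.linearMap b') (e.linearMap e') (th t t') τ z w :
      (V →ₗ[ℂ] V') →ₗ[ℂ] (V →ₗ[ℂ] V')) = T := by
    refine (mv (b.linearMap b') (e.linearMap e') τ).ext fun k => ?_
    change Dg (b.linearMap b') (e.linearMap e') (th t t') τ z w
      (mv (b.linearMap b') (e.linearMap e') τ k) = _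
    rw [Dg_mv, mv_apply]
    refine (mv b e τ).ext fun l => ?_
    rw [mv_apply, LinearMap.smul_apply, sl_hom]
    change _ = Dg b' e' t' τ z w ((sl (b.linearMap b') τ ((e.linearMap e') k))
      ((Dg b e t τ z w).symm (sl b τ (e l))))
    have h1 : (Dg b e t τ z w).symm (sl b τ (e l)) = ((mon z w (t l))⁻¹ : ℂˣ) • sl b τ (e l) := by
      rw [LinearEquiv.symm_apply_eq]
      change _ = Dg b e t τ z w ((((mon z w (t l))⁻¹ : ℂˣ) : ℂ) • sl b τ (e l))
      rw [map_smul, Dg_basis, smul_smul, ← Units.val_mul, inv_mul_cancel, Units.val_one, one_smul]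
    rw [h1]
    change _ = Dg b' e' t' τ z w ((sl (b.linearMap b') τ ((e.linearMap e') k))
      ((((mon z w (t l))⁻¹ : ℂˣ) : ℂ) • sl b τ (e l)))
    rw [map_smul, map_smul, sl_hom, Basis.linearMap_apply_apply]
    split
    · next h =>
      rw [Dg_basis, smul_smul]
      congr 1
      rw [← Units.val_mul]
      congr 1
      have h2 : t' k.1 = th t t' k + t l := by
        rw [th, h]
        exact (sub_add_cancel _ _).symm
      rw [h2, mon_add, mul_comm, mul_assoc, mul_inv_cancel, mul_one]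
    · rw [map_zero, map_zero, smul_zero, smul_zero]
  have h2 : Dg (b.linearMap b') (e.linearMap e') (th t t') τ z w f = T f :=
    LinearMap.congr_fun hT f
  rw [h2]
  change Dg b' e' t' τ z w (f ((Dg b e t τ z w).symm (Dg b e t τ z w x))) = _
  rw [LinearEquiv.symm_apply_apply]

variable {K : Type} [Field K] [Algebra K ℂ]

theorem rho_hom (g : HGp K) : ∀ (f : V →ₗ[ℂ] V') (x : V),
    rho (b.linearMap b') (e.linearMap e') (th t t') K g f (rho b e t K g x) =
      rho b' e' t' K g (f x) := by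
  refine hg_ind (C := fun g => ∀ (f : V →ₗ[ℂ] V') (x : V),
    rho (b.linearMap b') (e.linearMap e') (th t t') K g f (rho b e t K g x) =
      rho b' e' t' K g (f x)) g (fun f x => by rw [map_one, map_one, map_one]; rfl)
    (fun p f x => ?_) (fun g hg f x => ?_) (fun g g' hg hg' f x => ?_)
  · rw [rho_of, rho_of, rho_of]
    exact Dg_hom b e b' e' t t' p.τ p.z p.w f x
  · have h3 := hg (rho (b.linearMap b') (e.linearMap e') (th t t') K g⁻¹ f) (rho b e t K g⁻¹ x)
    rw [apply_inv', apply_inv'] at h3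
    rw [h3, inv_apply']
  · rw [map_mul, map_mul, map_mul, LinearEquiv.mul_apply, LinearEquiv.mul_apply,
      LinearEquiv.mul_apply, hg, hg']

theorem rho_hom' (g : HGp K) (f : V →ₗ[ℂ] V') (x : V) :
    rho (b.linearMap b') (e.linearMap e') (th t t') K g f x =
      rho b' e' t' K g (f (rho b e t K g⁻¹ x)) := by
  rw [← rho_hom b e b' e' t t', apply_inv']

/-- **Equivariant linear maps are combinations of rational ones which respect the types.** -/
theorem equi_le (f : V →ₗ[ℂ] V') (Δ : Subgroup (HGp K)) (hΔ : Δ.FiniteIndex)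
    (hf : ∀ g ∈ Δ, ∀ x, f (rho b e t K g x) = rho b' e' t' K g (f x)) :
    f ∈ Submodule.span ℂ {h : V →ₗ[ℂ] V' | InF (b.linearMap b') (KF K) h ∧
      Typ (e.linearMap e') (th t t') 0 h} := by
  let N : Submodule ℂ (V →ₗ[ℂ] V') :=
    { carrier := {h | ∀ τ : ℂ ≃+* ℂ, FixK K τ →
        Typ (e.linearMap e') (th t t') 0 (sl (b.linearMap b') τ h)}
      zero_mem' := fun τ _ => by rw [map_zero]; exact Typ.zero
      add_mem' := fun hx hy τ hτ => by rw [map_add]; exact (hx τ hτ).add (hy τ hτ)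
      smul_mem' := fun c _ hx τ hτ => by rw [sl_smul]; exact (hx τ hτ).smul _ }
  have h1 : f ∈ N := by
    intro τ hτ
    have h2 : Typ (e.linearMap e') (th t t') ((0 : ℕ), (0 : ℕ)) (sl (b.linearMap b') τ f) := by
      refine typ_of_chi (b := b.linearMap b') hΔ (j := 0) (fun g hg => ?_) hτ
      rw [pow_zero, one_smul]
      refine LinearMap.ext fun x => ?_
      rw [rho_hom' b e b' e' t t', ← hf g hg, apply_inv']
    exact h2
  have h3 := desc (b.linearMap b') (KF K) N (fun τ hτ x hx σ hσ => by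
    rw [sl_comp]
    refine hx _ fun r => ?_
    rw [RingEquiv.coe_trans, Function.comp_apply, fixK_iff.2 hτ r, hσ r])
  refine Submodule.span_mono ?_ (h3 h1)
  rintro h ⟨hN, hF⟩
  refine ⟨hF, ?_⟩
  have h4 := hN (RingEquiv.refl ℂ) (fun r => rfl)
  rwa [sl_refl] at h4

end hom

end

end Pool.Agent.U233.HG
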