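import Pool.Agent.U233.HG.Var
import Pool.Agent.U233.HG.Pol
import Pool.Agent.N179.DB.Tw

/-!
# The Hodge conjecture as a Tate conjecture, the trace and the points
-/

set_option autoImplicit false
set_option linter.unusedSectionVars false

open CategoryTheory AlgebraicGeometry TensorProduct

universe u

namespace Pool.Agent.U233.HG

open Module Pool.Agent.N179.DB Pool.Agent.N179.GR.S
open Pool.Agent.N179.DB.S (Cx tens gal bc cx_ind tens_add tens_smul smul_tens exists_tens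
  inF_tens bx_apply bc_tens bc_gal gal_add gal_tens galB gal_mul gr' gr'_eq gal_gr' mem_of_base
  span_alg algS algT)
open Pool.Agent.H914 Pool.Agent.H914.VarClass Pool.Agent.H914.VarClass.Obj
  Pool.Agent.H914.WeilCohomology Pool.Agent.TH125.Gal
open Pool.Agent.U233.HG.St (Theory coho)
open Pool.Agent.Y133.Per (Base baseMap baseTr tm base_ind baseTr_tm)

variable {k : Type u} [Field k] {𝒱 : VarClass k} {ops : CycleOps 𝒱} (T : Theory ops)

noncomputable section

/-- classes of cycles form a rational subspace -/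
theorem alg_of_span {X : 𝒱.Obj} {j : ℕ} {c : T.W.H X} (hc : c ∈ spanCycles T.W X (j : ℤ)) :
    ∃ z, X.IsCyc j z ∧ T.W.cl X z = c := by
  unfold spanCycles at hc
  induction hc using Submodule.span_induction with
  | mem c hc =>
    obtain ⟨p, hp, z, hz, rfl⟩ := hc
    obtain rfl : p = j := by exact_mod_cast hp
    exact ⟨z, hz, rfl⟩
  | zero => exact ⟨0, SmVar.IsCyc.zero _ _, map_zero _⟩
  | add a b _ _ ha hb =>
    obtain ⟨z, hz, rfl⟩ := ha
    obtain ⟨w, hw, rfl⟩ := hb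
    exact ⟨z + w, hz.add hw, map_add _ _ _⟩
  | smul r a _ ha =>
    obtain ⟨z, hz, rfl⟩ := ha
    obtain ⟨q, rfl⟩ := T.rat r
    exact ⟨q • z, hz.smul q, T.W.cl_smul q z⟩

/-- the vectors of type `(j, j)` together with all conjugates -/
def diagS (M : HS T.W.K) (j : ℕ) : Submodule ℂ (Cx T.W.K M.V) where
  carrier := {x | ∀ τ : ℂ ≃+* ℂ, FixK T.W.K τ → Typ M.e M.t ((j : ℤ), (j : ℤ)) (sl M.b τ x)}
  zero_mem' := fun τ _ => by
    rw [map_zero]
    exact Typ.zero
  add_mem' := by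
    intro x y hx hy τ hτ
    rw [map_add]
    exact (hx τ hτ).add (hy τ hτ)
  smul_mem' := by
    intro c x hx τ hτ
    rw [sl_smul]
    exact (hx τ hτ).smul _

theorem diagS_sl {M : HS T.W.K} {j : ℕ} {x : Cx T.W.K M.V} (hx : x ∈ diagS T M j) {σ : ℂ ≃+* ℂ}
    (hσ : FixK T.W.K σ) : sl M.b σ x ∈ diagS T M j := by
  intro τ hτ
  rw [sl_comp]
  refine hx _ fun r => ?_
  change τ (σ (algebraMap T.W.K ℂ r)) = algebraMap T.W.K ℂ r
  rw [hσ r, hτ r]

/-- rational vectors of type `(j, j)` -/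
theorem tens_diag {M : HS T.W.K} {j : ℕ} {c : M.V}
    (hc : (tens 1 c : Cx T.W.K M.V) ∈ M.pq j j) : (tens 1 c : Cx T.W.K M.V) ∈ diagS T M j := by
  intro τ hτ
  have h1 : sl M.b τ (tens 1 c : Cx T.W.K M.V) = tens 1 c := by
    rw [← M.gal_eq hτ, gal_tens, map_one]
  rw [h1]
  exact (M.mem' ((j : ℤ), (j : ℤ)) _).1 hc

/-- Hodge classes are multiplied by the powers of the character. -/
theorem hodge_tw {X : 𝒱.Obj} {j : ℕ} {c : T.W.H X} (hc : IsHodge T X j c) (g : HGp T.W.K) :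
    (var T X).act g (tm 1 c : Base T.W.K (T.W.H X)) =
      ((ch T g : (baseW T.W ℂ).Kˣ) : (baseW T.W ℂ).K) ^ j •
        (show (baseW T.W ℂ).H X from (tm 1 c : Base T.W.K (T.W.H X))) := by
  have h1 : (tens 1 c : Cx T.W.K (T.W.H X)) ∈ diagS T (coh T X) j := tens_diag T hc.2
  have h2 := rho_diag (K := T.W.K) (j := (j : ℤ)) (b := (coh T X).b) (e := (coh T X).e)
    (t := (coh T X).t) h1 g
  have h3 : ((chi T.W.K g ^ (j : ℤ) : ℂˣ) : ℂ) = (chi T.W.K g : ℂ) ^ j := by
    rw [zpow_natCast, Units.val_pow_eq_pow_val]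
  rw [h3] at h2
  exact h2

/-- the coordinates -/
def rp (X : 𝒱.Obj) (l : Fin (coh T X).n) : Cx T.W.K (T.W.H X) →ₗ[ℂ] ℂ := (coh T X).e.coord l

theorem mem_rp (X : 𝒱.Obj) (p q : ℤ) (x : Cx T.W.K (T.W.H X)) :
    x ∈ pqC T X p q ↔ ∀ l, (coh T X).t l ≠ (p, q) → rp T X l x = 0 := (coh T X).mem p q x

/-- The classes with the property of the Tate conjecture are combinations of Hodge classes. -/
theorem tw_hodge {X : 𝒱.Obj} {j : ℕ} {z : Base T.W.K (T.W.H X)}
    (hz : z ∈ gr' T.W X (2 * j)) {Δ : Subgroup (HGp T.W.K)}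
    (hΔ : Δ.FiniteIndex) (hfix : ∀ g ∈ Δ, rr T X g z = (chi T.W.K g : ℂ) ^ j • z) :
    z ∈ Submodule.span ℂ {x : Base T.W.K (T.W.H X) | ∃ c, IsHodge T X j c ∧ x = tm 1 c} := by
  let N : Submodule ℂ (Cx T.W.K (T.W.H X)) := gr' T.W X (2 * j) ⊓ diagS T (coh T X) j
  have hN := desc (coh T X).b (KF T.W.K) N (by
    intro τ hτ x hx
    have hτ' : FixK T.W.K τ := fixK_iff.2 hτ
    refine ⟨?_, diagS_sl T hx.2 hτ'⟩
    rw [← (coh T X).gal_eq hτ']
    exact gal_gr' τ hτ' hx.1)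
  have hzN : (show Cx T.W.K (T.W.H X) from z) ∈ N :=
    ⟨hz, fun τ hτ => typ_of_chi (K := T.W.K) (b := (coh T X).b) (e := (coh T X).e)
      (t := (coh T X).t) hΔ (j := j) (x := (show Cx T.W.K (T.W.H X) from z)) hfix hτ⟩
  have h1 := hN hzN
  have h2 : Submodule.span ℂ {x | x ∈ N ∧ InF (coh T X).b (KF T.W.K) x} ≤
      Submodule.span ℂ {x : Base T.W.K (T.W.H X) | ∃ c, IsHodge T X j c ∧ x = tm 1 c} := by
    refine Submodule.span_le.2 ?_
    rintro x ⟨⟨hx1, hx2⟩, hx3⟩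
    obtain ⟨(c : T.W.H X), rfl⟩ := exists_tens (coh T X).bK hx3
    have hc1 : c ∈ T.W.gr X (2 * j) := by
      refine mem_of_base _ ?_
      have h3 := hx1
      rw [gr'_eq] at h3
      exact h3
    have hc2 : (tens 1 c : Cx T.W.K (T.W.H X)) ∈ pqC T X j j := by
      have h3 := hx2 (RingEquiv.refl ℂ) (fun r => rfl)
      rw [sl_refl] at h3
      exact ((coh T X).mem j j _).2 h3
    have hc3 : IsHodge T X j c := ⟨hc1, hc2⟩
    have h6 : (tm 1 c : Base T.W.K (T.W.H X)) ∈ Submodule.span ℂ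
        {x : Base T.W.K (T.W.H X) | ∃ c, IsHodge T X j c ∧ x = tm 1 c} :=
      Submodule.subset_span ⟨c, hc3, rfl⟩
    exact h6
  exact h2 h1

theorem tate_iff (X : 𝒱.Obj) : TateConjecture (ch T) (var T X) ↔ HodgeConjecture T X := by
  constructor
  · intro h j c hc
    have h0 : (tm 1 c : Base T.W.K (T.W.H X)) ∈ gr' T.W X (2 * j) := by
      rw [gr'_eq]
      exact Submodule.subset_span ⟨c, hc.1, rfl⟩
    have h3 := h j (tm 1 c : Base T.W.K (T.W.H X)) h0 ⟨⊤, inferInstance, fun g _ =>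
      hodge_tw T hc g⟩
    refine alg_of_span T (mem_of_base (spanCycles T.W X (j : ℤ)) ?_)
    refine (Submodule.span_mono ?_) (show (tm 1 c : Base T.W.K (T.W.H X)) ∈
      Submodule.span ℂ (algS T.W X j) from h3)
    rintro _ ⟨z, hz, rfl⟩
    exact ⟨T.W.cl X z, Submodule.subset_span ⟨j, rfl, z, hz, rfl⟩, rfl⟩
  · rintro h j z hz ⟨Δ, hΔ, hfix⟩
    have h1 := tw_hodge T hz hΔ hfix
    have h2 : Submodule.span ℂ {x : Base T.W.K (T.W.H X) | ∃ c, IsHodge T X j c ∧ x = tm 1 c} ≤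
        Submodule.span ℂ (algS T.W X j) := by
      refine Submodule.span_le.2 ?_
      rintro _ ⟨c, hc, rfl⟩
      obtain ⟨z, hz, rfl⟩ := h j c hc
      exact Submodule.subset_span ⟨z, hz, rfl⟩
    exact h2 h1

/-! ### the projection to a degree -/

/-- the projection to the degree -/
def pj (X : 𝒱.Obj) (i : ℕ) : T.W.H X →ₗ[T.W.K] T.W.H X := proj (T.W.isInternal X) i

theorem repr_of_gr {X : 𝒱.Obj} {i : ℕ} {x : Cx T.W.K (T.W.H X)} (hx : x ∈ gr' T.W X i)
    {l : Fin (coh T X).n} (hl : ((coh T X).t l).1 + ((coh T X).t l).2 ≠ i) :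
    rp T X l x = 0 := by
  have h1 : ∀ c ∈ T.W.gr X i, rp T X l (tens 1 c) = 0 := by
    intro c hc
    have h2 := T.deg X i c hc
    have h5 : Submodule.span ℂ {x : Cx T.W.K (T.W.H X) | ∃ p q, p + q = (i : ℤ) ∧
        x ∈ T.pq X p q} ≤ LinearMap.ker (rp T X l) := by
      refine Submodule.span_le.2 ?_
      rintro x ⟨p, q, hpq, hx⟩
      refine (mem_rp T X p q x).1 hx l fun h => hl ?_
      rw [h]
      exact hpq
    exact h5 h2
  have h3 : x ∈ Submodule.span ℂ {x : Base T.W.K (T.W.H X) | ∃ s ∈ T.W.gr X i, x = tm 1 s} := by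
    rw [← gr'_eq]
    exact hx
  have h4 : Submodule.span ℂ {x : Base T.W.K (T.W.H X) | ∃ s ∈ T.W.gr X i, x = tm 1 s} ≤
      LinearMap.ker (show Base T.W.K (T.W.H X) →ₗ[ℂ] ℂ from rp T X l) := by
    refine Submodule.span_le.2 ?_
    rintro _ ⟨s, hs, rfl⟩
    exact h1 s hs
  exact h4 h3

theorem pj_gr (X : 𝒱.Obj) (i : ℕ) (x : Cx T.W.K (T.W.H X)) :
    (bc (pj T X i) x : Cx T.W.K (T.W.H X)) ∈ gr' T.W X i := by
  refine cx_ind (p := fun x => (bc (pj T X i) x : Cx T.W.K (T.W.H X)) ∈ gr' T.W X i) ?_ ?_ ?_ x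
  · rw [map_zero]
    exact Submodule.zero_mem _
  · intro r c
    rw [bc_tens]
    exact Submodule.tmul_mem_baseChange_of_mem r (proj_mem (T.W.isInternal X) i c)
  · intro a b ha hb
    rw [map_add]
    exact Submodule.add_mem _ ha hb

theorem sum_pj (X : 𝒱.Obj) (x : Cx T.W.K (T.W.H X)) :
    ∑ i ∈ Finset.range (2 * X.dim + 1), (bc (pj T X i) x : Cx T.W.K (T.W.H X)) = x := by
  refine cx_ind (p := fun x => ∑ i ∈ Finset.range (2 * X.dim + 1),
    (bc (pj T X i) x : Cx T.W.K (T.W.H X)) = x) ?_ ?_ ?_ x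
  · exact Finset.sum_eq_zero fun i _ => map_zero _
  · intro r c
    have h1 := LinearMap.congr_fun (sum_proj (T.W.isInternal X) (N := 2 * X.dim + 1)
      fun i hi => T.W.gr_eq_bot X i (by omega)) c
    rw [LinearMap.sum_apply] at h1
    have h2 : (tens r c : Cx T.W.K (T.W.H X)) =
        tens r (∑ i ∈ Finset.range (2 * X.dim + 1), pj T X i c) := congrArg _ h1.symm
    conv_rhs => rw [h2]
    exact (TensorProduct.tmul_sum r _ _).symm
  · intro a b ha hb
    conv_rhs => rw [← ha, ← hb]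
    rw [← Finset.sum_add_distrib]
    exact Finset.sum_congr rfl fun i _ => map_add _ _ _

theorem pj_pq (X : 𝒱.Obj) (i : ℕ) (p q : ℤ) (x : Cx T.W.K (T.W.H X)) (hx : x ∈ pqC T X p q) :
    (bc (pj T X i) x : Cx T.W.K (T.W.H X)) ∈ pqC T X p q := by
  have h0 := (mem_rp T X p q x).1 hx
  refine (mem_rp T X p q _).2 fun l hl => ?_
  by_cases h : ((coh T X).t l).1 + ((coh T X).t l).2 = i
  · by_cases hi : i ≤ 2 * X.dim
    · have h1 := congrArg (rp T X l) (sum_pj T X x)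
      rw [map_sum, Finset.sum_eq_single i (fun j _ hj => ?_) (fun hi' => ?_)] at h1
      · rw [h1]
        exact h0 l hl
      · refine repr_of_gr T (pj_gr T X j x) ?_
        rw [h]
        exact fun h => hj (by exact_mod_cast h.symm)
      · exact absurd (Finset.mem_range.2 (by omega)) hi'
    · have h1 := pj_gr T X i x
      have h2 : gr' T.W X i = ⊥ := by
        unfold gr'
        rw [T.W.gr_eq_bot X i (by omega)]
        exact Submodule.baseChange_bot ℂ
      rw [h2] at h1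
      have h3 : (bc (pj T X i) x : Cx T.W.K (T.W.H X)) = 0 := h1
      rw [h3, map_zero]
  · exact repr_of_gr T (pj_gr T X i x) h

theorem isHom_pj (X : 𝒱.Obj) (i : ℕ) : IsHom (M := coh T X) (N := coh T X) (pj T X i) :=
  fun p q x hx => pj_pq T X i p q x hx

theorem rr_pj (X : 𝒱.Obj) (i : ℕ) (g : HGp T.W.K) (x : Cx T.W.K (T.W.H X)) :
    (bc (pj T X i) (show Cx T.W.K (T.W.H X) from rr T X g x) : Cx T.W.K (T.W.H X)) =
      rr T X g (bc (pj T X i) x : Cx T.W.K (T.W.H X)) :=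
  rho_lin (M := coh T X) (N := coh T X) (pj T X i) (isHom_pj T X i) g x

/-- the trace depends only on the part of the top degree -/
theorem tr_pj (X : 𝒱.Obj) (x : Cx T.W.K (T.W.H X)) :
    baseTr (T.W.tr X) (show Base T.W.K (T.W.H X) from bc (pj T X (2 * X.dim)) x) =
      baseTr (T.W.tr X) (show Base T.W.K (T.W.H X) from x) := by
  refine cx_ind (p := fun x => baseTr (T.W.tr X) (show Base T.W.K (T.W.H X) from
    bc (pj T X (2 * X.dim)) x) = baseTr (T.W.tr X) (show Base T.W.K (T.W.H X) from x)) ?_ ?_ ?_ x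
  · rw [map_zero]
  · intro r c
    change baseTr (T.W.tr X) (tm r (pj T X (2 * X.dim) c)) = baseTr (T.W.tr X) (tm r c)
    rw [baseTr_tm, baseTr_tm]
    congr 2
    refine gr_induction (T.W.isInternal X)
      (p := fun c => T.W.tr X (pj T X (2 * X.dim) c) = T.W.tr X c) ?_ ?_ c
    · intro i a ha
      by_cases hi : i = 2 * X.dim
      · subst hi
        rw [pj, proj_same _ ha]
      · rw [pj, proj_ne _ ha hi, map_zero, T.W.tr_eq_zero ha hi]
    · intro a b ha hb
      rw [map_add, map_add, map_add, ha, hb]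
  · intro a b ha hb
    have h1 : (show Base T.W.K (T.W.H X) from bc (pj T X (2 * X.dim)) (a + b)) =
      (show Base T.W.K (T.W.H X) from bc (pj T X (2 * X.dim)) a) +
        (show Base T.W.K (T.W.H X) from bc (pj T X (2 * X.dim)) b) := map_add _ _ _
    rw [h1, map_add, ha, hb]
    exact (map_add _ _ _).symm

/-- the class of a zero-cycle which spans the top degree -/
theorem exists_top (X : 𝒱.Obj) : ∃ w, X.IsCyc X.dim w ∧ T.W.tr X (T.W.cl X w) ≠ 0 ∧
    ∀ b ∈ T.W.gr X (2 * X.dim), ∃ r : T.W.K, b = r • T.W.cl X w := by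
  obtain ⟨_, ⟨w, hw, rfl⟩, hne⟩ := T.point X
  replace hne : T.W.tr X (T.W.cl X w) ≠ 0 := hne
  refine ⟨w, hw, hne, fun b hb => ⟨T.W.tr X b / T.W.tr X (T.W.cl X w), ?_⟩⟩
  have hw' := T.W.cl_mem hw
  rw [← sub_eq_zero]
  apply T.W.nondeg
  intro c
  refine gr_induction (T.W.isInternal X) (p := fun c => T.W.tr X
    ((b - (T.W.tr X b / T.W.tr X (T.W.cl X w)) • T.W.cl X w) * c) = 0) ?_ ?_ c
  · intro i a ha
    by_cases hi : i = 0
    · subst hi
      rw [T.W.gr_zero] at ha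
      obtain ⟨r, rfl⟩ := Submodule.mem_span_singleton.1 ha
      rw [mul_smul_comm, mul_one, map_smul, map_sub, map_smul, smul_eq_mul, smul_eq_mul,
        div_mul_cancel₀ _ hne, sub_self, mul_zero]
    · refine T.W.tr_eq_zero (i := 2 * X.dim + i)
        (T.W.mul_mem (Submodule.sub_mem _ hb (Submodule.smul_mem _ _ hw')) ha) (by omega)
  · intro a b ha hb
    rw [mul_add, map_add, ha, hb, add_zero]

/-- the trace -/
theorem traceInv (X : 𝒱.Obj) : TraceInv (ch T) (var T X) := by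
  obtain ⟨w, hw, -, htop⟩ := exists_top T X
  have key : ∀ (g : HGp T.W.K) (a : Cx T.W.K (T.W.H X)),
      baseTr (T.W.tr X) (rr T X g a) = (chi T.W.K g : ℂ) ^ X.dim * baseTr (T.W.tr X) a := by
    intro g a
    have h1 := tr_pj T X (show Cx T.W.K (T.W.H X) from rr T X g a)
    have h2 := tr_pj T X a
    rw [rr_pj] at h1
    refine h1.symm.trans (Eq.trans ?_ (congrArg _ h2))
    clear h1 h2
    refine cx_ind (p := fun a => baseTr (T.W.tr X) (rr T X g
      (bc (pj T X (2 * X.dim)) a : Cx T.W.K (T.W.H X))) = (chi T.W.K g : ℂ) ^ X.dim *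
        baseTr (T.W.tr X) (show Base T.W.K (T.W.H X) from bc (pj T X (2 * X.dim)) a)) ?_ ?_ ?_ a
    · rw [map_zero]
      have h3 : rr T X g (0 : Base T.W.K (T.W.H X)) = 0 := map_zero _
      have h4 : baseTr (T.W.tr X) (0 : Base T.W.K (T.W.H X)) = 0 := map_zero _
      exact (congrArg _ h3).trans (h4.trans (by
        rw [show (show Base T.W.K (T.W.H X) from (0 : Cx T.W.K (T.W.H X))) = 0 from rfl, h4,
          mul_zero]))
    · intro r c
      obtain ⟨s, hs⟩ := htop _ (proj_mem (T.W.isInternal X) (2 * X.dim) c)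
      have h3 : (bc (pj T X (2 * X.dim)) (tens r c) : Cx T.W.K (T.W.H X)) =
          (r * algebraMap T.W.K ℂ s) • tens 1 (T.W.cl X w) := by
        rw [bc_tens, pj, hs, tens_smul, smul_tens, mul_one, mul_comm]
      have h4 : IsHodge T X X.dim (T.W.cl X w) := ⟨T.W.cl_mem hw, T.cyc X X.dim _ ⟨w, hw, rfl⟩⟩
      have h5 := hodge_tw T h4 g
      have h6 : rr T X g ((r * algebraMap T.W.K ℂ s) • (tm 1 (T.W.cl X w) :
          Base T.W.K (T.W.H X))) = (r * algebraMap T.W.K ℂ s) •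
            ((chi T.W.K g : ℂ) ^ X.dim • (tm 1 (T.W.cl X w) : Base T.W.K (T.W.H X))) := by
        rw [map_smul]
        exact congrArg _ h5
      rw [h3]
      refine (congrArg _ h6).trans ?_
      change _ = (chi T.W.K g : ℂ) ^ X.dim * baseTr (T.W.tr X)
        ((r * algebraMap T.W.K ℂ s) • (tm 1 (T.W.cl X w) : Base T.W.K (T.W.H X)))
      rw [map_smul, map_smul, map_smul, smul_eq_mul, smul_eq_mul, smul_eq_mul]
      ring
    · intro a b ha hb
      have h3 : (bc (pj T X (2 * X.dim)) (a + b) : Cx T.W.K (T.W.H X)) =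
        bc (pj T X (2 * X.dim)) a + bc (pj T X (2 * X.dim)) b := map_add _ _ _
      rw [h3]
      have h4 : rr T X g ((bc (pj T X (2 * X.dim)) a : Cx T.W.K (T.W.H X)) +
          (bc (pj T X (2 * X.dim)) b : Cx T.W.K (T.W.H X)) : Cx T.W.K (T.W.H X)) =
        rr T X g (bc (pj T X (2 * X.dim)) a : Cx T.W.K (T.W.H X)) +
          rr T X g (bc (pj T X (2 * X.dim)) b : Cx T.W.K (T.W.H X)) := map_add _ _ _
      refine (congrArg _ h4).trans ?_
      rw [map_add, ha, hb, ← mul_add]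
      exact congrArg _ (map_add (baseTr (T.W.tr X)) _ _).symm
  exact fun g a => key g a

theorem point_of (P : 𝒱.Obj) : HasPoint (W := baseW T.W ℂ) (Γ := HGp T.W.K) (var T P) := by
  obtain ⟨w, hw, hne, -⟩ := exists_top T P
  refine ⟨(tm 1 (T.W.cl P w) : Base T.W.K (T.W.H P)), ⟨w, hw, rfl⟩, ?_⟩
  have h1 : baseTr (T.W.tr P) (tm 1 (T.W.cl P w)) = algebraMap T.W.K ℂ (T.W.tr P (T.W.cl P w)) := by
    rw [baseTr_tm, one_mul]
  intro h0
  have h2 : baseTr (T.W.tr P) (tm 1 (T.W.cl P w)) = 0 := h0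
  rw [h1] at h2
  exact hne ((map_eq_zero_iff _ (algebraMap T.W.K ℂ).injective).1 h2)

end

end Pool.Agent.U233.HG
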