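import Pool.Agent.N179.DB.Grp
import Pool.Agent.N179.DB.Hom

/-!
# Complex vector spaces with a rational basis and a graded basis: the conjugates of the operators
which act on the vectors of type `(p, q)` by `z ^ p w ^ q`
-/

set_option autoImplicit false
set_option linter.unusedSectionVars false

namespace Pool.Agent.U233.HG

open Module Pool.Agent.N179.DB

noncomputable section

/-- The indices of the operators: automorphisms of `ℂ` over `K` with two numbers. -/
structure HP (K : Type) [Field K] [Algebra K ℂ] where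
  /-- the automorphism -/
  τ : ℂ ≃+* ℂ
  fix : ∀ r : K, τ (algebraMap K ℂ r) = algebraMap K ℂ r
  /-- the first number -/
  z : ℂˣ
  /-- the second number -/
  w : ℂˣ

/-- The free group on the indices. -/
abbrev HGp (K : Type) [Field K] [Algebra K ℂ] : Type := FreeGroup (HP K)

/-- The character `(τ, z, w) ↦ z w`. -/
def chi (K : Type) [Field K] [Algebra K ℂ] : HGp K →* ℂˣ := FreeGroup.lift fun p => p.z * p.w

/-- The scalar `z ^ p w ^ q`. -/
def mon (z w : ℂˣ) (r : ℤ × ℤ) : ℂˣ := z ^ r.1 * w ^ r.2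

theorem mon_mul (z w z' w' : ℂˣ) (r : ℤ × ℤ) : mon (z * z') (w * w') r = mon z w r * mon z' w' r := by
  unfold mon
  rw [mul_zpow, mul_zpow]
  exact mul_mul_mul_comm _ _ _ _

theorem mon_add (z w : ℂˣ) (r s : ℤ × ℤ) : mon z w (r + s) = mon z w r * mon z w s := by
  unfold mon
  rw [Prod.fst_add, Prod.snd_add, zpow_add, zpow_add]
  exact mul_mul_mul_comm _ _ _ _

theorem mon_one (r : ℤ × ℤ) : mon 1 1 r = 1 := by
  unfold mon
  rw [one_zpow, one_zpow, one_mul]

theorem mon_pow (z w : ℂˣ) (n : ℕ) (r : ℤ × ℤ) : mon (z ^ n) (w ^ n) r = mon z w r ^ n := by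
  unfold mon
  rw [mul_pow, ← zpow_natCast z, ← zpow_natCast w, ← zpow_natCast (z ^ r.1),
    ← zpow_natCast (w ^ r.2), ← zpow_mul, ← zpow_mul, ← zpow_mul, ← zpow_mul, mul_comm (n : ℤ) r.1,
    mul_comm (n : ℤ) r.2]

theorem two_zpow_inj {m n : ℤ} (h : ((Units.mk0 (2 : ℂ) two_ne_zero) ^ m : ℂˣ) =
    (Units.mk0 (2 : ℂ) two_ne_zero) ^ n) : m = n := by
  have h1 := congrArg (fun u : ℂˣ => ‖(u : ℂ)‖) h
  simp only [Units.val_zpow_eq_zpow_val, Units.val_mk0, norm_zpow, Complex.norm_ofNat] at h1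
  exact zpow_right_injective₀ (by norm_num) (by norm_num) h1

/-- The scalars determine the type. -/
theorem mon_inj {r s : ℤ × ℤ} (h : ∀ z w, mon z w r = mon z w s) : r = s := by
  have h1 := h (Units.mk0 2 two_ne_zero) 1
  have h2 := h 1 (Units.mk0 2 two_ne_zero)
  unfold mon at h1 h2
  rw [one_zpow, one_zpow, mul_one, mul_one] at h1
  rw [one_zpow, one_zpow, one_mul, one_mul] at h2
  exact Prod.ext (two_zpow_inj h1) (two_zpow_inj h2)

section Root

variable {K : Type} [Field K] [Algebra K ℂ]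

/-- the power of an index -/
def HP.pw (p : HP K) (n : ℕ) : HP K := ⟨p.τ, p.fix, p.z ^ n, p.w ^ n⟩

theorem exists_root (z : ℂˣ) {n : ℕ} (hn : n ≠ 0) : ∃ z' : ℂˣ, z' ^ n = z := by
  obtain ⟨y, hy⟩ := IsAlgClosed.exists_pow_nat_eq (z : ℂ) (Nat.pos_of_ne_zero hn)
  have hy0 : y ≠ 0 := by
    rintro rfl
    rw [zero_pow hn] at hy
    exact z.ne_zero hy.symm
  exact ⟨Units.mk0 y hy0, Units.ext (by rw [Units.val_pow_eq_pow_val, Units.val_mk0, hy])⟩

theorem exists_pw (p : HP K) {n : ℕ} (hn : n ≠ 0) : ∃ p' : HP K, p'.pw n = p := by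
  obtain ⟨z, hz⟩ := exists_root p.z hn
  obtain ⟨w, hw⟩ := exists_root p.w hn
  refine ⟨⟨p.τ, p.fix, z, w⟩, ?_⟩
  unfold HP.pw
  simp only [hz, hw]

/-- The homomorphism respects the powers of the indices. -/
def Rooty {G : Type*} [Group G] (R : HGp K →* G) : Prop :=
  ∀ (p : HP K) (n : ℕ), R (FreeGroup.of p) ^ n = R (FreeGroup.of (p.pw n))

/-- **Subgroups of finite index have the same image as the whole group.** -/
theorem Rooty.exists_mem {G : Type*} [Group G] {R : HGp K →* G} (hR : Rooty R)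
    {Δ : Subgroup (HGp K)} (hΔ : Δ.FiniteIndex) (g : HGp K) : ∃ g' ∈ Δ, R g' = R g := by
  have key : ∀ p : HP K, ∃ g' ∈ Δ, R g' = R (FreeGroup.of p) := by
    intro p
    have hn : Δ.normalCore.index ≠ 0 := Subgroup.FiniteIndex.index_ne_zero
    obtain ⟨p', hp'⟩ := exists_pw p hn
    refine ⟨FreeGroup.of p' ^ Δ.normalCore.index,
      Subgroup.normalCore_le _ (Subgroup.pow_index_mem Δ.normalCore _), ?_⟩
    rw [map_pow, hR, hp']
  refine FreeGroup.induction_on g ⟨1, Δ.one_mem, rfl⟩ key (fun p hp => ?_) (fun x y hx hy => ?_)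
  · obtain ⟨g', h1, h2⟩ := hp
    exact ⟨g'⁻¹, Δ.inv_mem h1, by rw [map_inv, map_inv, h2]⟩
  · obtain ⟨x', h1, h2⟩ := hx
    obtain ⟨y', h3, h4⟩ := hy
    exact ⟨x' * y', Δ.mul_mem h1 h3, by rw [map_mul, map_mul, h2, h4]⟩

theorem Rooty.prod {G G' : Type*} [Group G] [Group G'] {R : HGp K →* G} {R' : HGp K →* G'}
    (h : Rooty R) (h' : Rooty R') : Rooty (R.prod R') := fun p n => by
  rw [MonoidHom.prod_apply, MonoidHom.prod_apply, ← h p n, ← h' p n]
  rfl

theorem hg_ind {C : HGp K → Prop} (g : HGp K) (one : C 1) (of : ∀ p, C (FreeGroup.of p))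
    (inv : ∀ x, C x → C x⁻¹) (mul : ∀ x y, C x → C y → C (x * y)) : C g :=
  FreeGroup.induction_on g one of (fun _ h => inv _ h) mul

theorem chi_of (p : HP K) : chi K (FreeGroup.of p) = p.z * p.w := by
  rw [chi, FreeGroup.lift_apply_of]

end Root

section typ

variable {V : Type*} [AddCommGroup V] [Module ℂ V] {ι κ : Type*} [Fintype ι] [Fintype κ]
  (b : Basis ι ℂ V) (e : Basis κ ℂ V) (t : κ → ℤ × ℤ)

/-- The vector is of type `r`. -/
def Typ (r : ℤ × ℤ) (x : V) : Prop := ∀ k, t k ≠ r → e.repr x k = 0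

variable {e t}

theorem Typ.add {r : ℤ × ℤ} {x y : V} (hx : Typ e t r x) (hy : Typ e t r y) :
    Typ e t r (x + y) := fun k hk => by
  rw [map_add, Finsupp.add_apply, hx k hk, hy k hk, add_zero]

theorem Typ.smul {r : ℤ × ℤ} (c : ℂ) {x : V} (hx : Typ e t r x) : Typ e t r (c • x) := fun k hk => by
  rw [map_smul, Finsupp.smul_apply, hx k hk, smul_zero]

theorem Typ.zero {r : ℤ × ℤ} : Typ e t r (0 : V) := fun k _ => by
  rw [map_zero, Finsupp.zero_apply]

theorem Typ.basis (k : κ) : Typ e t (t k) (e k) := fun i hi => by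
  classical
  rw [e.repr_self, Finsupp.single_apply, if_neg]
  rintro rfl
  exact hi rfl

variable (e t)

/-- the vectors of type `r` -/
def typS (r : ℤ × ℤ) : Submodule ℂ V where
  carrier := {x | Typ e t r x}
  zero_mem' := Typ.zero
  add_mem' := fun hx hy => hx.add hy
  smul_mem' := fun c _ hx => hx.smul c

/-- The operator which acts on the `τ`-conjugates of the vectors of type `(p, q)` by
`z ^ p w ^ q`. -/
def Dg (τ : ℂ ≃+* ℂ) (z w : ℂˣ) : V ≃ₗ[ℂ] V :=
  (mv b e τ).equiv ((mv b e τ).unitsSMul fun k => mon z w (t k)) (Equiv.refl κ)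

theorem Dg_mv (τ : ℂ ≃+* ℂ) (z w : ℂˣ) (k : κ) :
    Dg b e t τ z w (mv b e τ k) = (mon z w (t k) : ℂ) • mv b e τ k := by
  rw [Dg, Basis.equiv_apply, Equiv.refl_apply, Basis.unitsSMul_apply]
  rfl

theorem Dg_basis (τ : ℂ ≃+* ℂ) (z w : ℂˣ) (k : κ) :
    Dg b e t τ z w (sl b τ (e k)) = (mon z w (t k) : ℂ) • sl b τ (e k) := by
  rw [← mv_apply, Dg_mv]

theorem Dg_repr (τ : ℂ ≃+* ℂ) (z w : ℂˣ) (x : V) (k : κ) :
    (mv b e τ).repr (Dg b e t τ z w x) k = mon z w (t k) * (mv b e τ).repr x k := by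
  classical
  have h1 : x = ∑ i, (mv b e τ).repr x i • mv b e τ i := ((mv b e τ).sum_repr x).symm
  have h2 : Dg b e t τ z w x =
      ∑ i, (mon z w (t i) * (mv b e τ).repr x i) • mv b e τ i := by
    conv_lhs => rw [h1]
    rw [map_sum]
    refine Finset.sum_congr rfl fun i _ => ?_
    rw [map_smul, Dg_mv, smul_smul, mul_comm]
  rw [h2, (mv b e τ).repr_sum_self]

/-- the coordinates of the conjugates -/
theorem mv_repr (τ : ℂ ≃+* ℂ) (x : V) (k : κ) :
    (mv b e τ).repr (sl b τ x) k = τ (e.repr x k) := by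
  have h1 : sl b τ x = ∑ i, τ (e.repr x i) • mv b e τ i := by
    conv_lhs => rw [← e.sum_repr x]
    rw [sl_sum]
    refine Finset.sum_congr rfl fun i _ => ?_
    rw [mv_apply]
  rw [h1, (mv b e τ).repr_sum_self]

theorem Dg_mul (τ : ℂ ≃+* ℂ) (z w z' w' : ℂˣ) (x : V) :
    Dg b e t τ (z * z') (w * w') x = Dg b e t τ z w (Dg b e t τ z' w' x) := by
  refine (mv b e τ).ext_elem fun k => ?_
  rw [Dg_repr, Dg_repr, Dg_repr, mon_mul, Units.val_mul, mul_assoc]

theorem Dg_one (τ : ℂ ≃+* ℂ) : Dg b e t τ 1 1 = LinearEquiv.refl ℂ V := by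
  ext x
  refine (mv b e τ).ext_elem fun k => ?_
  rw [Dg_repr, mon_one, Units.val_one, one_mul]
  rfl

theorem Dg_pow (τ : ℂ ≃+* ℂ) (z w : ℂˣ) (n : ℕ) :
    (Dg b e t τ z w) ^ n = Dg b e t τ (z ^ n) (w ^ n) := by
  induction n with
  | zero => rw [pow_zero, pow_zero, pow_zero, Dg_one]; rfl
  | succ n ih =>
    ext x
    rw [pow_succ, LinearEquiv.mul_apply, ih, pow_succ, pow_succ, Dg_mul]

variable {b e t}

theorem Typ.dg {r : ℤ × ℤ} {x : V} (h : Typ e t r x) (τ : ℂ ≃+* ℂ) (z w : ℂˣ) :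
    Dg b e t τ z w (sl b τ x) = (mon z w r : ℂ) • sl b τ x := by
  refine (mv b e τ).ext_elem fun k => ?_
  rw [Dg_repr, map_smul, Finsupp.smul_apply, smul_eq_mul, mv_repr]
  by_cases hk : t k = r
  · rw [hk]
  · rw [h k hk, map_zero, mul_zero, mul_zero]

/-- The common eigenvectors of the operators for one automorphism are the conjugates of the vectors of
pure types. -/
theorem typ_of_eig {τ : ℂ ≃+* ℂ} {x : V} (h : ∀ z w, ∃ c : ℂ, Dg b e t τ z w x = c • x) :
    ∃ r, Typ e t r (sl b τ.symm x) := by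
  classical
  set y := sl b τ.symm x with hy
  have hx : x = sl b τ y := (sl_symm' b τ x).symm
  by_cases h0 : ∃ k, e.repr y k ≠ 0
  · obtain ⟨k, hk⟩ := h0
    refine ⟨t k, fun l hl => ?_⟩
    by_contra hl0
    apply hl
    refine mon_inj fun z w => ?_
    obtain ⟨c, hc⟩ := h z w
    have h1 : ∀ m, e.repr y m ≠ 0 → (mon z w (t m) : ℂ) = c := by
      intro m hm
      have h2 := congrArg (fun v => (mv b e τ).repr v m) hc
      simp only [Dg_repr, map_smul, Finsupp.smul_apply, smul_eq_mul] at h2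
      rw [hx, mv_repr] at h2
      refine mul_right_cancel₀ ?_ h2
      intro h3
      exact hm (by simpa using h3)
    exact Units.ext ((h1 l hl0).trans (h1 k hk).symm)
  · push Not at h0
    exact ⟨0, fun k _ => h0 k⟩

/-- The eigenvectors with given eigenvalues. -/
theorem typ_of_mon {τ : ℂ ≃+* ℂ} {x : V} {r : ℤ × ℤ}
    (h : ∀ z w, Dg b e t τ z w x = (mon z w r : ℂ) • x) : Typ e t r (sl b τ.symm x) := by
  set y := sl b τ.symm x with hy
  have hx : x = sl b τ y := (sl_symm' b τ x).symm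
  intro k hk
  by_contra hk0
  apply hk
  refine mon_inj fun z w => ?_
  have h2 := congrArg (fun v => (mv b e τ).repr v k) (h z w)
  simp only [Dg_repr, map_smul, Finsupp.smul_apply, smul_eq_mul] at h2
  rw [hx, mv_repr] at h2
  refine Units.ext (mul_right_cancel₀ ?_ h2)
  intro h3
  exact hk0 (by simpa using h3)

end typ

section rep

variable {K : Type} [Field K] [Algebra K ℂ]
  {V : Type*} [AddCommGroup V] [Module ℂ V] {ι κ : Type*} [Fintype ι] [Fintype κ]
  (b : Basis ι ℂ V) (e : Basis κ ℂ V) (t : κ → ℤ × ℤ)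

/-- the representation of the group -/
def rho (K : Type) [Field K] [Algebra K ℂ] : HGp K →* (V ≃ₗ[ℂ] V) :=
  FreeGroup.lift fun p => Dg b e t p.τ p.z p.w

theorem rho_of (p : HP K) : rho b e t K (FreeGroup.of p) = Dg b e t p.τ p.z p.w := by
  rw [rho, FreeGroup.lift_apply_of]

theorem rho_rooty : Rooty (rho b e t K) := fun p n => by
  rw [rho_of, rho_of, Dg_pow]
  rfl

theorem inv_apply' (g : HGp K) (x : V) : rho b e t K g⁻¹ (rho b e t K g x) = x := by
  rw [← LinearEquiv.mul_apply, ← map_mul, inv_mul_cancel, map_one]; rfl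

theorem apply_inv' (g : HGp K) (x : V) : rho b e t K g (rho b e t K g⁻¹ x) = x := by
  rw [← LinearEquiv.mul_apply, ← map_mul, mul_inv_cancel, map_one]; rfl

/-- All conjugates of the vector are of pure types. -/
def Pure (K : Type) [Field K] [Algebra K ℂ] (x : V) : Prop :=
  ∀ τ : ℂ ≃+* ℂ, FixK K τ → ∃ r, Typ e t r (sl b τ x)

variable {b e t}

theorem eig_all {x : V} (h : Pure b e t K x) (g : HGp K) : ∃ c : ℂ, rho b e t K g x = c • x := by
  refine hg_ind (C := fun g => ∃ c : ℂ, rho b e t K g x = c • x) g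
    ⟨1, by rw [map_one, one_smul]; rfl⟩ (fun p => ?_) (fun g hg => ?_) (fun g g' hg hg' => ?_)
  · obtain ⟨r, hr⟩ := h p.τ.symm (FixK.symm p.fix)
    refine ⟨mon p.z p.w r, ?_⟩
    have h1 := hr.dg (b := b) p.τ p.z p.w
    rw [sl_symm'] at h1
    rw [rho_of, h1]
  · obtain ⟨c, hc⟩ := hg
    by_cases hx : x = 0
    · exact ⟨0, by rw [hx, map_zero, smul_zero]⟩
    have hc0 : c ≠ 0 := by
      rintro rfl
      rw [zero_smul] at hc
      exact hx ((rho b e t K g).map_eq_zero_iff.1 hc)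
    refine ⟨c⁻¹, ?_⟩
    have h3 := inv_apply' b e t g x
    rw [hc, map_smul] at h3
    conv_rhs => rw [← h3]
    rw [smul_smul, inv_mul_cancel₀ hc0, one_smul]
  · obtain ⟨c, hc⟩ := hg
    obtain ⟨c', hc'⟩ := hg'
    exact ⟨c' * c, by rw [map_mul, LinearEquiv.mul_apply, hc', map_smul, hc, smul_smul]⟩

/-- The semi-invariant vectors for a subgroup of finite index. -/
theorem pure_of {Δ : Subgroup (HGp K)} (hΔ : Δ.FiniteIndex) {x : V}
    (h : ∀ g ∈ Δ, ∃ c : ℂ, rho b e t K g x = c • x) : Pure b e t K x := by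
  intro τ hτ
  have h1 : ∃ r, Typ e t r (sl b τ.symm.symm x) := by
    refine typ_of_eig (b := b) fun z w => ?_
    obtain ⟨g', hg', hgg⟩ := (rho_rooty b e t).exists_mem hΔ
      (FreeGroup.of (⟨τ.symm, FixK.symm hτ, z, w⟩ : HP K))
    obtain ⟨c, hc⟩ := h g' hg'
    rw [hgg, rho_of] at hc
    exact ⟨c, hc⟩
  rwa [RingEquiv.symm_symm] at h1

/-- The vectors of type `(j, j)` together with all conjugates. -/
theorem rho_diag {j : ℤ} {x : V}
    (h : ∀ τ : ℂ ≃+* ℂ, FixK K τ → Typ e t (j, j) (sl b τ x)) (g : HGp K) :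
    rho b e t K g x = ((chi K g ^ j : ℂˣ) : ℂ) • x := by
  refine hg_ind (C := fun g => rho b e t K g x = ((chi K g ^ j : ℂˣ) : ℂ) • x) g
    (by rw [map_one, map_one, one_zpow, Units.val_one, one_smul]; rfl) (fun p => ?_)
    (fun g hg => ?_) (fun g g' hg hg' => ?_)
  · have h1 := (h p.τ.symm (FixK.symm p.fix)).dg (b := b) p.τ p.z p.w
    rw [sl_symm'] at h1
    rw [rho_of, h1, chi_of, mul_zpow]
    rfl
  · have h3 := inv_apply' b e t g x
    rw [hg, map_smul] at h3
    rw [map_inv (chi K), inv_zpow, Units.val_inv_eq_inv_val]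
    conv_rhs => rw [← h3]
    rw [smul_smul, inv_mul_cancel₀ (Units.ne_zero _), one_smul]
  · rw [map_mul, LinearEquiv.mul_apply, hg', map_smul, hg, smul_smul, map_mul, mul_zpow,
      Units.val_mul, mul_comm]

/-- The vectors which are multiplied by the powers of the character. -/
theorem typ_of_chi {Δ : Subgroup (HGp K)} (hΔ : Δ.FiniteIndex) {j : ℕ} {x : V}
    (h : ∀ g ∈ Δ, rho b e t K g x = (chi K g : ℂ) ^ j • x) {τ : ℂ ≃+* ℂ} (hτ : FixK K τ) :
    Typ e t ((j : ℤ), (j : ℤ)) (sl b τ x) := by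
  have hchi : Rooty (chi K) := fun p n => by
    rw [chi_of, chi_of, mul_pow]
    rfl
  have h1 : Typ e t ((j : ℤ), (j : ℤ)) (sl b τ.symm.symm x) := by
    refine typ_of_mon (b := b) fun z w => ?_
    obtain ⟨g', hg', hgg⟩ := ((rho_rooty b e t).prod hchi).exists_mem hΔ
      (FreeGroup.of (⟨τ.symm, FixK.symm hτ, z, w⟩ : HP K))
    rw [MonoidHom.prod_apply, MonoidHom.prod_apply, Prod.mk.injEq] at hgg
    have h2 := h g' hg'
    rw [hgg.1, hgg.2, rho_of, chi_of] at h2
    rw [h2, mon]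
    simp [mul_pow]
  rwa [RingEquiv.symm_symm] at h1

variable (b e t) in
/-- the functoriality -/
theorem rho_map {V' : Type*} [AddCommGroup V'] [Module ℂ V'] {ι' κ' : Type*} [Fintype ι']
    [Fintype κ'] (b' : Basis ι' ℂ V') (e' : Basis κ' ℂ V') (t' : κ' → ℤ × ℤ) (f : V →ₗ[ℂ] V')
    (h1 : ∀ τ, FixK K τ → ∀ x, f (sl b τ x) = sl b' τ (f x))
    (h2 : ∀ k, Typ e' t' (t k) (f (e k))) (g : HGp K) :
    ∀ x, f (rho b e t K g x) = rho b' e' t' K g (f x) := by
  refine hg_ind (C := fun g => ∀ x, f (rho b e t K g x) = rho b' e' t' K g (f x)) g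
    (fun x => by rw [map_one, map_one]; rfl) (fun p x => ?_) (fun g hg x => ?_)
    (fun g h hg hh x => ?_)
  · rw [rho_of, rho_of]
    have h3 : f.comp (Dg b e t p.τ p.z p.w : V →ₗ[ℂ] V) =
        (Dg b' e' t' p.τ p.z p.w : V' →ₗ[ℂ] V').comp f := by
      refine (mv b e p.τ).ext fun k => ?_
      change f (Dg b e t p.τ p.z p.w (mv b e p.τ k)) = Dg b' e' t' p.τ p.z p.w (f (mv b e p.τ k))
      rw [mv_apply, Dg_basis, map_smul, h1 _ p.fix, (h2 k).dg]
    exact LinearMap.congr_fun h3 x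
  · have h3 := hg (rho b e t K g⁻¹ x)
    rw [apply_inv'] at h3
    rw [h3, inv_apply']
  · rw [map_mul, map_mul, LinearEquiv.mul_apply, LinearEquiv.mul_apply, hg, hh]

end rep

end

end Pool.Agent.U233.HG
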