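import Pool.Agent.N179.DB.AlgDefs

/-!
# Operators and forms with complex coefficients
-/

set_option autoImplicit false

open TensorProduct

namespace Pool.Agent.U233.HG

open Pool.Agent.N179.DB.S (Cx)

noncomputable section

variable {K : Type} [Field K] [Algebra K ℂ]

/-- The complex conjugation. -/
def cc : ℂ ≃+* ℂ := Complex.conjAe.toRingEquiv

/-- The extension of a bilinear form to complex coefficients. -/
def formC {V : Type} [AddCommGroup V] [Module K V] (ψ : V →ₗ[K] V →ₗ[K] K) :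
    Cx K V →ₗ[ℂ] Cx K V →ₗ[ℂ] ℂ :=
  (show (ℂ ⊗[K] V) →ₗ[ℂ] (ℂ ⊗[K] V) →ₗ[ℂ] ℂ from LinearMap.BilinForm.baseChange ℂ ψ)

/-- The operator on the space with complex coefficients which is given by an element of `End(V)` with
complex coefficients: `c ⊗ f` acts by `c' ⊗ v ↦ c c' ⊗ f v`. -/
def opC {V : Type} [AddCommGroup V] [Module K V] :
    Cx K (V →ₗ[K] V) →ₗ[ℂ] (Cx K V →ₗ[ℂ] Cx K V) :=
  (show ℂ ⊗[K] (V →ₗ[K] V) →ₗ[ℂ] ((ℂ ⊗[K] V) →ₗ[ℂ] (ℂ ⊗[K] V)) from
    LinearMap.liftBaseChange ℂ (LinearMap.baseChangeHom K ℂ V V))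

end

end Pool.Agent.U233.HG
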