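import Pool.Agent.U233.HG.Str
import Pool.Agent.N179.GR.Fin
import Pool.Agent.N179.DB.Var

/-!
# The representation given by a Hodge structure, and the dictionary
-/

set_option autoImplicit false
set_option linter.unusedSectionVars false

open TensorProduct

namespace Pool.Agent.U233.HG

open Module Pool.Agent.N179.DB Pool.Agent.N179.GR.S
open Pool.Agent.N179.DB.S (Cx tens gal bc cx_ind tens_add tens_smul smul_tens exists_tens
  inF_tens bx_apply bc_tens bc_gal)

noncomputable section

variable {K : Type} [Field K] [Algebra K ℂ]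

/-- A homomorphism of Hodge structures: a linear map which respects the types. -/
def IsHom {M N : HS K} (f : M.V →ₗ[K] N.V) : Prop := ∀ p q, ∀ x ∈ M.pq p q, bc f x ∈ N.pq p q

/-- The vectors all of whose conjugates under the automorphisms of the complex numbers over `K` are
of pure types (the types may be different). They span the part of the Hodge structure with
complex multiplication: the largest Hodge substructure with a commutative Mumford-Tate group. -/
def pures (M : HS K) : Set (Cx K M.V) :=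
  {x | ∀ (τ : ℂ ≃+* ℂ) (h : ∀ r : K, τ (algebraMap K ℂ r) = algebraMap K ℂ r),
    ∃ p q, gal τ h x ∈ M.pq p q}

/-- Every homomorphism of Hodge structures `End M → End N` has its values in the part with complex
multiplication. -/
def Independent (M N : HS K) : Prop :=
  ∀ f : M.endo.V →ₗ[K] N.endo.V, IsHom (M := M.endo) (N := N.endo) f →
    ∀ x, tens 1 (f x) ∈ Submodule.span ℂ (pures N.endo)

theorem mem_pures {M : HS K} {x : Cx K M.V} : x ∈ pures M ↔ Pure M.b M.e M.t K x := by
  constructor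
  · intro h τ hτ
    obtain ⟨p, q, h1⟩ := h τ hτ
    rw [M.gal_eq] at h1
    exact ⟨(p, q), (M.mem p q _).1 h1⟩
  · intro h τ hτ
    obtain ⟨r, h1⟩ := h τ hτ
    refine ⟨r.1, r.2, ?_⟩
    rw [M.gal_eq]
    exact (M.mem' r _).2 h1

/-- the representation -/
def rep (M : HS K) : GRep ℂ (HGp K) where
  V := Cx K M.V
  fd := M.fdC
  act g := (rho M.b M.e M.t K g).toLinearMap
  one := fun x => by rw [map_one]; rfl
  mul := fun g h x => by rw [map_mul]; rfl

theorem rep_act (M : HS K) (g : HGp K) (x : Cx K M.V) :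
    (rep M).ap g x = rho M.b M.e M.t K g x := rfl

theorem semi_iff' {M : HS K} {x : Cx K M.V} : SemiInv (M := rep M) x ↔ x ∈ pures M := by
  rw [mem_pures]
  constructor
  · rintro ⟨Δ, hΔ, h⟩
    exact pure_of hΔ h
  · intro h
    exact ⟨⊤, inferInstance, fun g _ => eig_all h g⟩

/-- homomorphisms are equivariant -/
theorem rho_lin {M N : HS K} (f : M.V →ₗ[K] N.V) (hf : IsHom f) (g : HGp K)
    (x : Cx K M.V) : bc f (rho M.b M.e M.t K g x) = rho N.b N.e N.t K g (bc f x) := by
  refine rho_map M.b M.e M.t N.b N.e N.t (bc f) ?_ ?_ g x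
  · intro τ hτ x
    rw [← M.gal_eq hτ, ← N.gal_eq hτ]
    exact bc_gal f τ hτ x
  · intro k
    exact (N.mem' _ _).1 (hf _ _ _ ((M.mem' _ _).2 (Typ.basis k)))

/-- the rational linear maps which respect the types -/
theorem exists_isHom {M N : HS K} (f : Cx K M.V →ₗ[ℂ] Cx K N.V)
    (hb : InF (M.b.linearMap N.b) (KF K) f) (he : Typ (M.e.linearMap N.e) (th M.t N.t) 0 f) :
    ∃ P : M.V →ₗ[K] N.V, IsHom (M := M) (N := N) P ∧ f = bc P := by
  classical
  have h1 : ∀ k, ∃ w : N.V, f (M.b k) = tens 1 w := fun k =>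
    exists_tens N.bK ((inF_hom M.b N.b).1 hb k)
  choose w hw using h1
  let P : M.V →ₗ[K] N.V := M.bK.constr K w
  have hP : f = bc P := by
    refine M.b.ext fun k => ?_
    rw [hw]
    change _ = bc P (S.bx M.bK k)
    rw [bx_apply, bc_tens, Basis.constr_basis]
  refine ⟨P, fun p q x hx => ?_, hP⟩
  rw [← hP]
  have h2 := typ_hom he ((M.mem p q x).1 hx)
  rw [zero_add] at h2
  exact (N.mem p q _).2 h2

/-- A potentially equivariant linear map is a combination of homomorphisms. -/
theorem pot_hom {M N : HS K} (f : Cx K M.V →ₗ[ℂ] Cx K N.V) (Δ : Subgroup (HGp K))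
    (hΔ : Δ.FiniteIndex) (hf : ∀ g ∈ Δ, ∀ x, f ((rep M).ap g x) = (rep N).ap g (f x)) :
    f ∈ Submodule.span ℂ {h : Cx K M.V →ₗ[ℂ] Cx K N.V | ∃ P : M.V →ₗ[K] N.V,
      IsHom (M := M) (N := N) P ∧ h = bc P} := by
  have h1 := equi_le M.b M.e N.b N.e M.t N.t f Δ hΔ hf
  refine Submodule.span_mono ?_ h1
  rintro h ⟨h2, h3⟩
  exact exists_isHom h h2 h3

/-- the identification of the two spaces of endomorphisms -/
def opM (M : HS K) : Cx K M.endo.V ≃ₗ[ℂ] (Cx K M.V →ₗ[ℂ] Cx K M.V) := opE M.bK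

theorem mem_endo (M : HS K) (r : ℤ × ℤ) (x : Cx K M.endo.V) :
    x ∈ M.endo.pq r.1 r.2 ↔ Typ (M.e.linearMap M.e) (th M.t M.t) r (opM M x) := mem_endPQ M r x

theorem opE_gal {V : Type} [AddCommGroup V] [Module K V] {ι : Type} [Fintype ι] [DecidableEq ι]
    (B : Basis ι K V) (τ : ℂ ≃+* ℂ) (hτ : ∀ r : K, τ (algebraMap K ℂ r) = algebraMap K ℂ r)
    (x : Cx K (V →ₗ[K] V)) :
    opE B (gal τ hτ x) = sl ((S.bx B).linearMap (S.bx B)) τ (opE B x) := by
  rw [S.gal_eq (B.linearMap B) τ hτ, opE_sl]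

theorem opM_gal (M : HS K) (τ : ℂ ≃+* ℂ) (hτ : ∀ r : K, τ (algebraMap K ℂ r) = algebraMap K ℂ r)
    (y : Cx K M.endo.V) : opM M (gal τ hτ y) = sl (M.b.linearMap M.b) τ (opM M y) :=
  opE_gal M.bK τ hτ y

theorem opM_sl (M : HS K) {τ : ℂ ≃+* ℂ} (hτ : FixK K τ) (y : Cx K M.endo.V) :
    opM M (sl M.endo.b τ y) = sl (M.b.linearMap M.b) τ (opM M y) := by
  rw [← opM_gal M τ hτ, ← M.endo.gal_eq hτ]

/-- the linear map -/
def opL (M : HS K) : Cx K M.endo.V →ₗ[ℂ] (Cx K M.V →ₗ[ℂ] Cx K M.V) := (opM M).toLinearMap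

theorem opM_rho (M : HS K) (g : HGp K) (x : Cx K M.endo.V) :
    opM M (rho M.endo.b M.endo.e M.endo.t K g x) =
      rho (M.b.linearMap M.b) (M.e.linearMap M.e) (th M.t M.t) K g (opM M x) := by
  refine rho_map (K := K) M.endo.b M.endo.e M.endo.t (M.b.linearMap M.b) (M.e.linearMap M.e)
    (th M.t M.t) (opL M) (fun τ hτ y => opM_sl M hτ y) (fun k => ?_) g x
  exact (mem_endo M (M.endo.t k) (M.endo.e k)).1 ((M.endo.mem' _ _).2 (Typ.basis k))

theorem opM_act (M : HS K) (g : HGp K) (x : Cx K M.endo.V) :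
    opM M ((rep M.endo).ap g x) = (endo (rep M)).ap g (opM M x) := by
  rw [rep_act, opM_rho]
  refine LinearMap.ext fun v => ?_
  rw [rho_hom' M.b M.e M.b M.e]
  rfl

theorem semi_endo {M : HS K} {x : Cx K M.endo.V} :
    SemiInv (M := endo (rep M)) (opM M x) ↔ x ∈ pures M.endo := by
  rw [← semi_iff']
  refine exists_congr fun Δ => and_congr Iff.rfl (forall₂_congr fun g _ => exists_congr fun c => ?_)
  rw [← opM_act]
  constructor
  · intro h
    apply (opM M).injective
    have h1 : opM M (c • x) = c • opM M x := map_smul (opM M) c x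
    exact h.trans h1.symm
  · intro h
    have h1 : opM M (c • x) = c • opM M x := map_smul (opM M) c x
    exact (congrArg (opM M) h).trans h1

theorem mem_semiSpan {M : HS K} {x : Cx K M.endo.V} (h : x ∈ Submodule.span ℂ (pures M.endo)) :
    (semiSpan (endo (rep M))).Has (opM M x) := by
  have h1 : Submodule.span ℂ (pures M.endo) ≤
      Submodule.comap (opL M) (semiSpan (endo (rep M))) := by
    refine Submodule.span_le.2 fun y hy => ?_
    exact Submodule.subset_span (semi_endo.2 hy)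
  exact h1 h

theorem bc_mem {M N : HS K} {P : M.V →ₗ[K] N.V} {S : Submodule ℂ (Cx K N.V)}
    (h : ∀ x, tens 1 (P x) ∈ S) (x : Cx K M.V) : bc P x ∈ S := by
  refine cx_ind (p := fun x => bc P x ∈ S) ?_ ?_ ?_ x
  · rw [map_zero]
    exact Submodule.zero_mem _
  · intro r c
    rw [bc_tens]
    have h1 : (tens r (P c) : Cx K N.V) = r • tens 1 (P c) := by rw [smul_tens, mul_one]
    rw [h1]
    exact Submodule.smul_mem _ _ (h c)
  · intro a b ha hb
    rw [map_add]
    exact Submodule.add_mem _ ha hb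

/-- **Independence.** -/
theorem independent_rep {M N : HS K} (h : Independent M N) :
    Pool.Agent.N179.GR.S.Independent (rep M) (rep N) := by
  intro f hf x
  let f' : (Cx K M.V →ₗ[ℂ] Cx K M.V) →ₗ[ℂ] (Cx K N.V →ₗ[ℂ] Cx K N.V) := f
  let F : Cx K M.endo.V →ₗ[ℂ] Cx K N.endo.V :=
    ((opM N).symm.toLinearMap.comp f').comp (opL M)
  have hF : ∀ y, opM N (F y) = f' (opM M y) := fun y => (opM N).apply_symm_apply _
  have h1 := pot_hom (M := M.endo) (N := N.endo) F ⊤ inferInstance (by
    intro g _ (y : Cx K M.endo.V)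
    apply (opM N).injective
    have h6 : opM M ((rep M.endo).ap g y) = (endo (rep M)).ap g (opM M y) := opM_act M g y
    have h7 : opM N ((rep N.endo).ap g (F y)) = (endo (rep N)).ap g (opM N (F y)) :=
      opM_act N g (F y)
    refine (hF _).trans ((congrArg f' h6).trans (Eq.trans ?_ h7.symm))
    rw [hF y]
    exact hf g (opM M y))
  have h3 : ∀ y, F y ∈ Submodule.span ℂ (pures N.endo) := by
    intro y
    have h4 : Submodule.span ℂ {h : Cx K M.endo.V →ₗ[ℂ] Cx K N.endo.V | ∃ P : M.endo.V →ₗ[K]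
        N.endo.V, IsHom (M := M.endo) (N := N.endo) P ∧ h = bc P} ≤
        (Submodule.span ℂ (pures N.endo)).comap (LinearMap.applyₗ y) := by
      refine Submodule.span_le.2 ?_
      rintro _ ⟨P, hP, rfl⟩
      exact bc_mem (M := M.endo) (N := N.endo) (h P hP) y
    exact h4 h1
  obtain ⟨y, hy⟩ := (opM M).surjective (show Cx K M.V →ₗ[ℂ] Cx K M.V from x)
  have h5 := mem_semiSpan (h3 y)
  rw [hF, hy] at h5
  exact h5

end

end Pool.Agent.U233.HG
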