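import Pool.Agent.N179.DB.AlgDefs
import Pool.Agent.N179.DB.Op
import Pool.Agent.U233.HG.Hom
import Pool.Agent.U233.HG.Raw

/-!
# Hodge structures and their endomorphisms
-/

set_option autoImplicit false
set_option linter.unusedSectionVars false

open TensorProduct

namespace Pool.Agent.U233.HG

open Module Pool.Agent.N179.DB
open Pool.Agent.N179.DB.S (Cx tens gal bc)

noncomputable section

/-- The sum of the subspaces is direct, and it is the whole space. -/
def IsDec {V : Type} [AddCommGroup V] [Module ℂ V] (pq : ℤ → ℤ → Submodule ℂ V) : Prop :=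
  (iSupIndep fun r : ℤ × ℤ => pq r.1 r.2) ∧ ⨆ r : ℤ × ℤ, pq r.1 r.2 = ⊤

/-- A Hodge structure: a vector space `V` of finite dimension over `K` (for `K = ℚ`) and subspaces
`V ^ (p, q)` of the space with complex coefficients, which is their direct sum. The weights are
arbitrary, and nothing else is required here. -/
structure HS (K : Type) [Field K] [Algebra K ℂ] where
  /-- the space -/
  V : Type
  [ac : AddCommGroup V]
  [md : Module K V]
  [fd : FiniteDimensional K V]
  /-- the vectors of type `(p, q)` -/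
  pq : ℤ → ℤ → Submodule ℂ (Cx K V)
  dec : IsDec pq

attribute [instance] HS.ac HS.md HS.fd

section adapted

variable {V : Type} [AddCommGroup V] [Module ℂ V]

/-- adapted bases -/
theorem exists_adapted [FiniteDimensional ℂ V] {pq : ℤ → ℤ → Submodule ℂ V} (h : IsDec pq) :
    ∃ (n : ℕ) (e : Basis (Fin n) ℂ V) (t : Fin n → ℤ × ℤ),
      ∀ r x, x ∈ pq r.1 r.2 ↔ Typ e t r x := by
  classical
  have hint : DirectSum.IsInternal fun r : ℤ × ℤ => pq r.1 r.2 :=
    DirectSum.isInternal_submodule_of_iSupIndep_of_iSup_eq_top h.1 h.2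
  let B := hint.collectedBasis fun r => finBasis ℂ (pq r.1 r.2)
  have hfin : Fintype (Σ r : ℤ × ℤ, Fin (finrank ℂ (pq r.1 r.2))) :=
    FiniteDimensional.fintypeBasisIndex B
  let E := Fintype.equivFin (Σ r : ℤ × ℤ, Fin (finrank ℂ (pq r.1 r.2)))
  refine ⟨_, B.reindex E, fun k => (E.symm k).1, fun r x => ⟨fun hx k hk => ?_, fun hx => ?_⟩⟩
  · rw [Basis.repr_reindex_apply]
    exact hint.collectedBasis_repr_of_mem_ne _ (fun h => hk h.symm) hx
  · rw [hx.expand]
    refine Submodule.sum_mem _ fun k hk => Submodule.smul_mem _ _ ?_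
    rw [Basis.reindex_apply]
    have h1 := hint.collectedBasis_mem (fun r => finBasis ℂ (pq r.1 r.2)) (E.symm k)
    rw [(Finset.mem_filter.1 hk).2] at h1
    exact h1

/-- The subspaces given by a basis with types. -/
theorem isDec_typ {κ : Type} [Fintype κ] (e : Basis κ ℂ V) (t : κ → ℤ × ℤ)
    {pq : ℤ → ℤ → Submodule ℂ V} (h : ∀ r x, x ∈ pq r.1 r.2 ↔ Typ e t r x) : IsDec pq := by
  classical
  constructor
  · rw [iSupIndep_def]
    intro r
    rw [Submodule.disjoint_def]
    intro x hx hx'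
    let N : Submodule ℂ V :=
      { carrier := {x | ∀ k, t k = r → e.repr x k = 0}
        zero_mem' := fun k _ => by rw [map_zero, Finsupp.zero_apply]
        add_mem' := fun hx hy k hk => by rw [map_add, Finsupp.add_apply, hx k hk, hy k hk, add_zero]
        smul_mem' := fun c _ hx k hk => by
          rw [map_smul, Finsupp.smul_apply, hx k hk, smul_zero] }
    have h1 : ⨆ j, ⨆ (_ : j ≠ r), pq j.1 j.2 ≤ N := by
      refine iSup₂_le fun j hj y hy k hk => ?_
      exact (h j y).1 hy k (by rw [hk]; exact hj.symm)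
    refine e.ext_elem fun k => ?_
    rw [map_zero, Finsupp.zero_apply]
    by_cases hk : t k = r
    · exact h1 hx' k hk
    · exact (h r x).1 hx k hk
  · rw [eq_top_iff, ← e.span_eq]
    refine Submodule.span_le.2 ?_
    rintro _ ⟨k, rfl⟩
    exact Submodule.mem_iSup_of_mem (t k) ((h (t k) _).2 (Typ.basis k))

end adapted

section bases

variable {K : Type} [Field K] [Algebra K ℂ] (M : HS K)

/-- the rational basis -/
def HS.bK : Basis (Fin (finrank K M.V)) K M.V := finBasis K M.V

/-- the rational basis of the complex space -/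
def HS.b : Basis (Fin (finrank K M.V)) ℂ (Cx K M.V) := S.bx M.bK

theorem HS.fdC : FiniteDimensional ℂ (Cx K M.V) :=
  Module.Finite.of_basis M.b

theorem HS.exists_e : ∃ (n : ℕ) (e : Basis (Fin n) ℂ (Cx K M.V)) (t : Fin n → ℤ × ℤ),
    ∀ r x, x ∈ M.pq r.1 r.2 ↔ Typ e t r x := by
  have := M.fdC
  exact exists_adapted M.dec

/-- the number of elements of the graded basis -/
def HS.n : ℕ := M.exists_e.choose

/-- the graded basis -/
def HS.e : Basis (Fin M.n) ℂ (Cx K M.V) := M.exists_e.choose_spec.choose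

/-- the types of its elements -/
def HS.t : Fin M.n → ℤ × ℤ := M.exists_e.choose_spec.choose_spec.choose

theorem HS.mem' (r : ℤ × ℤ) (x : Cx K M.V) : x ∈ M.pq r.1 r.2 ↔ Typ M.e M.t r x :=
  M.exists_e.choose_spec.choose_spec.choose_spec r x

theorem HS.mem (p q : ℤ) (x : Cx K M.V) : x ∈ M.pq p q ↔ Typ M.e M.t (p, q) x := M.mem' (p, q) x

theorem HS.gal_eq {τ : ℂ ≃+* ℂ} (h : ∀ r : K, τ (algebraMap K ℂ r) = algebraMap K ℂ r)
    (x : Cx K M.V) : gal τ h x = sl M.b τ x := S.gal_eq M.bK τ h x

end bases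

section op

variable {K : Type} [Field K] [Algebra K ℂ]

theorem opC_tens {V : Type} [AddCommGroup V] [Module K V] (c : ℂ) (f : V →ₗ[K] V) :
    opC (tens c f) = c • bc f :=
  LinearMap.liftBaseChange_tmul (A := ℂ) (LinearMap.baseChangeHom K ℂ V V) c f

variable {V : Type} [AddCommGroup V] [Module K V] {ι : Type} [Fintype ι] [DecidableEq ι]

theorem bc_linearMap (B : Basis ι K V) (i j : ι) :
    bc (B.linearMap B (i, j)) = (S.bx B).linearMap (S.bx B) (i, j) := by
  refine (S.bx B).ext fun k => ?_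
  rw [Basis.linearMap_apply_apply, S.bx_apply]
  change tens 1 (B.linearMap B (i, j) (B k)) = _
  rw [Basis.linearMap_apply_apply]
  split
  · rw [S.bx_apply]
  · exact TensorProduct.tmul_zero _ _

/-- `opC` as an equivalence -/
def opE (B : Basis ι K V) : Cx K (V →ₗ[K] V) ≃ₗ[ℂ] (Cx K V →ₗ[ℂ] Cx K V) :=
  (S.bx (B.linearMap B)).equiv ((S.bx B).linearMap (S.bx B)) (Equiv.refl _)

theorem opC_eq (B : Basis ι K V) (x : Cx K (V →ₗ[K] V)) : opC x = opE B x := by
  have h : opC (K := K) (V := V) = (opE B : Cx K (V →ₗ[K] V) →ₗ[ℂ] (Cx K V →ₗ[ℂ] Cx K V)) := by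
    refine (S.bx (B.linearMap B)).ext fun p => ?_
    change _ = opE B (S.bx (B.linearMap B) p)
    rw [opE, Basis.equiv_apply, Equiv.refl_apply, S.bx_apply, opC_tens, one_smul]
    exact bc_linearMap B p.1 p.2
  exact LinearMap.congr_fun h x

theorem opE_sl (B : Basis ι K V) (τ : ℂ ≃+* ℂ) (x : Cx K (V →ₗ[K] V)) :
    opE B (sl (S.bx (B.linearMap B)) τ x) =
      sl ((S.bx B).linearMap (S.bx B)) τ (opE B x) := by
  have h1 : x = ∑ i, (S.bx (B.linearMap B)).repr x i • S.bx (B.linearMap B) i :=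
    ((S.bx (B.linearMap B)).sum_repr x).symm
  rw [h1, sl_sum, map_sum, map_sum, map_sum]
  refine Finset.sum_congr rfl fun i _ => ?_
  rw [map_smul, map_smul, sl_smul, sl_basis, opE, Basis.equiv_apply, Equiv.refl_apply, sl_basis]

end op

section endo

variable {K : Type} [Field K] [Algebra K ℂ] (M : HS K)

/-- The elements of `End(V)` with complex coefficients of type `(p, q)`: the operators which map the
vectors of type `(r, s)` to vectors of type `(p + r, q + s)`. -/
def endPQ (p q : ℤ) : Submodule ℂ (Cx K (M.V →ₗ[K] M.V)) where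
  carrier := {x | ∀ r s, ∀ v ∈ M.pq r s, opC x v ∈ M.pq (p + r) (q + s)}
  zero_mem' := fun r s v _ => by
    rw [map_zero, LinearMap.zero_apply]
    exact Submodule.zero_mem _
  add_mem' := fun hx hy r s v hv => by
    rw [map_add, LinearMap.add_apply]
    exact Submodule.add_mem _ (hx r s v hv) (hy r s v hv)
  smul_mem' := fun c _ hx r s v hv => by
    rw [map_smul, LinearMap.smul_apply]
    exact Submodule.smul_mem _ _ (hx r s v hv)

theorem mem_endPQ (r : ℤ × ℤ) (x : Cx K (M.V →ₗ[K] M.V)) :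
    x ∈ endPQ M r.1 r.2 ↔ Typ (M.e.linearMap M.e) (th M.t M.t) r (opE M.bK x) := by
  rw [typ_hom_iff]
  constructor
  · intro h k
    have h1 := h (M.t k).1 (M.t k).2 (M.e k) ((M.mem' _ _).2 (Typ.basis k))
    rw [opC_eq M.bK] at h1
    exact (M.mem' (r + M.t k) _).1 h1
  · intro h p q v hv
    rw [opC_eq M.bK]
    have h1 := typ_hom ((typ_hom_iff M.e M.e M.t M.t).2 h) ((M.mem p q v).1 hv)
    exact (M.mem' (r + (p, q)) _).2 h1

theorem dec_endo : IsDec (endPQ M) := by
  refine isDec_typ (V := Cx K (M.V →ₗ[K] M.V)) ((M.e.linearMap M.e).map (opE M.bK).symm)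
    (th M.t M.t) fun r x => ?_
  rw [mem_endPQ]
  refine forall₂_congr fun k _ => ?_
  rw [Basis.map_repr, LinearEquiv.trans_apply, LinearEquiv.symm_symm]

/-- The Hodge structure on the space of the endomorphisms of `V`. -/
def HS.endo : HS K where
  V := M.V →ₗ[K] M.V
  pq := endPQ M
  dec := dec_endo M

end endo

end

end Pool.Agent.U233.HG
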