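import Pool.Agent.U233.HG.Coh
import Pool.Agent.U233.HG.Rep
import Pool.Agent.N179.DB.Main

/-!
# The action of the group on the cohomology algebras
-/

set_option autoImplicit false
set_option linter.unusedSectionVars false

open CategoryTheory AlgebraicGeometry TensorProduct

universe u

namespace Pool.Agent.U233.HG

open Module Pool.Agent.N179.DB Pool.Agent.N179.GR.S
open Pool.Agent.N179.DB.S (Cx tens gal bc cx_ind tens_add tens_smul smul_tens exists_tens
  inF_tens bx_apply bc_tens bc_gal gal_add gal_tens galB gal_mul gr' gr'_eq gal_gr' mem_of_base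
  span_alg algS algT)
open Pool.Agent.H914 Pool.Agent.H914.VarClass Pool.Agent.H914.VarClass.Obj
  Pool.Agent.H914.WeilCohomology Pool.Agent.TH125.Gal
open Pool.Agent.U233.HG.St (Theory coho)
open Pool.Agent.Y133.Per (Base baseMap baseTr tm base_ind baseTr_tm)

variable {k : Type u} [Field k] {𝒱 : VarClass k} {ops : CycleOps 𝒱} (T : Theory ops)

noncomputable section

/-- the action on the cohomology -/
def rr (X : 𝒱.Obj) (g : HGp T.W.K) : Base T.W.K (T.W.H X) ≃ₗ[ℂ] Base T.W.K (T.W.H X) :=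
  rho (coh T X).b (coh T X).e (coh T X).t T.W.K g

theorem mul_typ (X : 𝒱.Obj) {p q r s : ℤ} {a c : Base T.W.K (T.W.H X)}
    (ha : (show Cx T.W.K (T.W.H X) from a) ∈ (coh T X).pq p q)
    (hc : (show Cx T.W.K (T.W.H X) from c) ∈ (coh T X).pq r s) :
    (show Cx T.W.K (T.W.H X) from a * c) ∈ (coh T X).pq (p + r) (q + s) :=
  T.mul X p q r s a c ha hc

/-- the conjugate of a basis vector -/
def cv (X : 𝒱.Obj) (τ : ℂ ≃+* ℂ) (k : Fin (coh T X).n) : Base T.W.K (T.W.H X) :=
  sl (coh T X).b τ ((coh T X).e k)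

/-- the basis vector -/
def ev (X : 𝒱.Obj) (k : Fin (coh T X).n) : Base T.W.K (T.W.H X) := (coh T X).e k

theorem cv_eq (X : 𝒱.Obj) {τ : ℂ ≃+* ℂ} (h : FixK T.W.K τ) (k : Fin (coh T X).n) :
    cv T X τ k = galB τ h (ev T X k) := ((coh T X).gal_eq h _).symm

theorem rr_mul_gen (X : 𝒱.Obj) (p : HP T.W.K) (x y : Base T.W.K (T.W.H X)) :
    rr T X (FreeGroup.of p) (x * y) = rr T X (FreeGroup.of p) x * rr T X (FreeGroup.of p) y := by
  let F : Base T.W.K (T.W.H X) →ₗ[ℂ] Base T.W.K (T.W.H X) := (rr T X (FreeGroup.of p)).toLinearMap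
  let B1 : Base T.W.K (T.W.H X) →ₗ[ℂ] Base T.W.K (T.W.H X) →ₗ[ℂ] Base T.W.K (T.W.H X) :=
    (LinearMap.mul ℂ (Base T.W.K (T.W.H X))).compr₂ F
  let B2 : Base T.W.K (T.W.H X) →ₗ[ℂ] Base T.W.K (T.W.H X) →ₗ[ℂ] Base T.W.K (T.W.H X) :=
    (LinearMap.mul ℂ (Base T.W.K (T.W.H X))).compl₁₂ F F
  have hD : ∀ (r : ℤ × ℤ) (v : Base T.W.K (T.W.H X)), Typ (coh T X).e (coh T X).t r v →
      rr T X (FreeGroup.of p) (galB p.τ p.fix v) = (mon p.z p.w r : ℂ) • galB p.τ p.fix v := by
    intro r v hv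
    have h1 := hv.dg (b := (coh T X).b) p.τ p.z p.w
    have h2 : sl (coh T X).b p.τ v = galB p.τ p.fix v := ((coh T X).gal_eq p.fix v).symm
    rw [h2] at h1
    rw [rr, rho_of]
    exact h1
  have hB : B1 = B2 := by
    refine (mv (coh T X).b (coh T X).e p.τ).ext fun i => ?_
    refine (mv (coh T X).b (coh T X).e p.τ).ext fun j => ?_
    rw [mv_apply, mv_apply]
    change rr T X (FreeGroup.of p) (cv T X p.τ i * cv T X p.τ j) =
      rr T X (FreeGroup.of p) (cv T X p.τ i) * rr T X (FreeGroup.of p) (cv T X p.τ j)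
    have hi : Typ (coh T X).e (coh T X).t ((coh T X).t i) (ev T X i) := Typ.basis i
    have hj : Typ (coh T X).e (coh T X).t ((coh T X).t j) (ev T X j) := Typ.basis j
    have hij : Typ (coh T X).e (coh T X).t ((coh T X).t i + (coh T X).t j)
        (ev T X i * ev T X j) :=
      ((coh T X).mem' _ _).1 (mul_typ T X (((coh T X).mem' _ _).2 hi) (((coh T X).mem' _ _).2 hj))
    rw [cv_eq T X p.fix, cv_eq T X p.fix, ← gal_mul, hD _ _ hij, hD _ _ hi, hD _ _ hj, gal_mul,
      mon_add, Units.val_mul, smul_mul_smul_comm]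
  exact LinearMap.congr_fun (LinearMap.congr_fun hB x) y

theorem rr_mul (X : 𝒱.Obj) (g : HGp T.W.K) : ∀ x y : Base T.W.K (T.W.H X),
    rr T X g (x * y) = rr T X g x * rr T X g y := by
  refine hg_ind (C := fun g => ∀ x y : Base T.W.K (T.W.H X),
    rr T X g (x * y) = rr T X g x * rr T X g y) g ?_ (fun p x y => rr_mul_gen T X p x y) ?_ ?_
  · intro x y
    unfold rr
    rw [map_one]
    rfl
  · intro g hg x y
    have h1 := hg (rr T X g⁻¹ x) (rr T X g⁻¹ y)
    have h2 : ∀ z, rr T X g (rr T X g⁻¹ z) = z := fun z => apply_inv' _ _ _ g z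
    have h3 : ∀ z, rr T X g⁻¹ (rr T X g z) = z := fun z => inv_apply' _ _ _ g z
    rw [h2, h2] at h1
    rw [← h1, h3]
  · intro g g' hg hg' x y
    have h1 : ∀ z, rr T X (g * g') z = rr T X g (rr T X g' z) := fun z => by
      unfold rr
      rw [map_mul]
      rfl
    rw [h1, h1, h1, hg', hg]

theorem rr_one (X : 𝒱.Obj) (g : HGp T.W.K) : rr T X g 1 = 1 := by
  obtain ⟨y, hy⟩ := (rr T X g).surjective 1
  have h1 := rr_mul T X g 1 y
  rw [one_mul, hy, mul_one] at h1
  exact h1.symm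

/-- the algebra automorphism -/
def algE (X : 𝒱.Obj) (g : HGp T.W.K) :
    (baseW T.W ℂ).H X ≃ₐ[(baseW T.W ℂ).K] (baseW T.W ℂ).H X :=
  AlgEquiv.ofLinearEquiv
    (show (baseW T.W ℂ).H X ≃ₗ[(baseW T.W ℂ).K] (baseW T.W ℂ).H X from rr T X g)
    (rr_one T X g) (rr_mul T X g)

/-- the action by algebra automorphisms -/
def actA (X : 𝒱.Obj) :
    HGp T.W.K →* ((baseW T.W ℂ).H X ≃ₐ[(baseW T.W ℂ).K] (baseW T.W ℂ).H X) where
  toFun := algE T X
  map_one' := by
    apply AlgEquiv.ext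
    intro x
    change rho (coh T X).b (coh T X).e (coh T X).t T.W.K 1 x = x
    rw [map_one]
    rfl
  map_mul' g h := by
    apply AlgEquiv.ext
    intro x
    change rho (coh T X).b (coh T X).e (coh T X).t T.W.K (g * h) x = _
    rw [map_mul]
    rfl

/-- the variety with the action -/
def var (X : 𝒱.Obj) : GVar (baseW T.W ℂ) (HGp T.W.K) := ⟨X, actA T X⟩

theorem coh_var (X : 𝒱.Obj) : Pool.Agent.N179.GR.S.coh (var T X) = rep (coh T X) := rfl

/-- the character -/
def ch (T : Theory ops) : HGp T.W.K →* (baseW T.W ℂ).Kˣ := chi T.W.K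

/-- the maps given by morphisms are homomorphisms -/
theorem isHom_map {X Y : 𝒱.Obj} (f : X ⟶ Y) :
    IsHom (M := coh T Y) (N := coh T X) (T.W.map f).toLinearMap := by
  intro p q x hx
  exact T.map X Y f p q x hx

theorem intertwines {X Y : 𝒱.Obj} (f : X ⟶ Y) :
    Intertwines ((baseW T.W ℂ).map f) (var T Y).act (var T X).act := by
  intro g a
  have h1 : ∀ x : Cx T.W.K (T.W.H Y), bc (T.W.map f).toLinearMap x =
      (show Cx T.W.K (T.W.H X) from baseMap (T.W.map f) x) := by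
    intro x
    refine cx_ind (p := fun x => bc (T.W.map f).toLinearMap x =
      (show Cx T.W.K (T.W.H X) from baseMap (T.W.map f) x)) ?_ ?_ ?_ x
    · rw [map_zero]
      exact (map_zero (baseMap (T.W.map f))).symm
    · intro r c
      rfl
    · intro a b ha hb
      rw [map_add, ha, hb]
      exact (map_add (baseMap (T.W.map f)) a b).symm
  have h2 := rho_lin (M := coh T Y) (N := coh T X) (T.W.map f).toLinearMap (isHom_map T f) g a
  have h5 := (h1 _).symm.trans (h2.trans (congrArg _ (h1 _)))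
  exact h5.symm

end

end Pool.Agent.U233.HG
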